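import Pool.Agent.L7h13.SP.Cvx
import Pool.Agent.Y757.LS.G

/-!
# Exponents of the zeta function in the upper half plane
-/

set_option autoImplicit false

open Complex Set

namespace Pool.Agent.L7h13.SP

/-- `ζ(σ + it) = O(t ^ (m + ε))` as `t → +∞`, for every `ε > 0` -/
def Exu (σ m : ℝ) : Prop := ∀ ε : ℝ, 0 < ε → ∃ T₀ : ℝ, ∀ t : ℝ, T₀ ≤ t →
  ‖riemannZeta ⟨σ, t⟩‖ ≤ t ^ (m + ε)

lemma Exu.mono {σ m m' : ℝ} (h : Exu σ m) (hm : m ≤ m') : Exu σ m' := by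
  intro ε hε
  obtain ⟨T₀, hT⟩ := h ε hε
  refine ⟨max T₀ 1, fun t ht => (hT t ((le_max_left _ _).trans ht)).trans ?_⟩
  exact Real.rpow_le_rpow_of_exponent_le ((le_max_right _ _).trans ht) (by linarith)

/-- absorb a constant -/
lemma absorb (C : ℝ) {ε : ℝ} (hε : 0 < ε) : ∃ T₀ : ℝ, 1 ≤ T₀ ∧ ∀ t : ℝ, T₀ ≤ t → C ≤ t ^ ε := by
  refine ⟨max 1 ((max C 1) ^ (1 / ε)), le_max_left _ _, fun t ht => ?_⟩
  have h1 : (max C 1) ^ (1 / ε) ≤ t := (le_max_right _ _).trans ht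
  have h0 : 0 < max C 1 := lt_of_lt_of_le one_pos (le_max_right _ _)
  have h2 := Real.rpow_le_rpow (by positivity) h1 hε.le
  rw [← Real.rpow_mul h0.le, one_div_mul_cancel hε.ne', Real.rpow_one] at h2
  exact (le_max_left _ _).trans h2

lemma zeta_diff {s : ℂ} (h : 1 ≤ s.im) : DifferentiableAt ℂ riemannZeta s := by
  apply differentiableAt_riemannZeta
  rintro rfl
  simp at h
  linarith

lemma zgrow (b : ℝ) : ∃ C : ℝ, 1 ≤ C ∧ ∀ s : ℂ, -1 ≤ s.re → s.re ≤ b → 1 ≤ s.im →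
    ‖riemannZeta s‖ ≤ C * s.im ^ (5 : ℝ) := by
  obtain ⟨C, hC1, hC⟩ := Pool.Agent.Y757.LS.GG_growth
  refine ⟨C * (|b| + 5) ^ 5, ?_, fun s h1 h2 h3 => ?_⟩
  · have : (1:ℝ) ≤ (|b| + 5) ^ 5 := one_le_pow₀ (by linarith [abs_nonneg b])
    nlinarith
  · have hne : s ≠ 1 := by
      rintro rfl
      simp at h3
      linarith
    have e1 := Pool.Agent.Y757.LS.GG_of_ne hne
    have h4 : s + 3 ≠ 0 := Pool.Agent.Y757.LS.add_three_ne (by linarith)
    have h5 : s - 1 ≠ 0 := sub_ne_zero.2 hne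
    have e2 : riemannZeta s = Pool.Agent.Y757.LS.GG s * ((s + 3) / (s - 1)) := by
      rw [e1]; field_simp
    have hn : ‖s‖ ≤ |b| + 1 + s.im := by
      refine (Complex.norm_le_abs_re_add_abs_im s).trans ?_
      rw [abs_of_nonneg (by linarith : 0 ≤ s.im)]
      have : |s.re| ≤ |b| + 1 := by
        rw [abs_le]
        constructor
        · linarith [abs_nonneg b]
        · linarith [le_abs_self b]
      linarith
    have h6 : ‖s + 3‖ ≤ (|b| + 5) * s.im := by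
      refine (norm_add_le _ _).trans ?_
      have : ‖(3:ℂ)‖ = 3 := by simp
      rw [this]
      nlinarith [abs_nonneg b]
    have h7 : 1 ≤ ‖s - 1‖ := by
      have := Complex.abs_im_le_norm (s - 1)
      rw [Complex.sub_im, Complex.one_im, sub_zero, abs_of_nonneg (by linarith)] at this
      linarith
    have h8 : (‖s‖ + 1) ^ 4 ≤ ((|b| + 5) * s.im) ^ 4 := by
      apply pow_le_pow_left₀ (by positivity)
      nlinarith [abs_nonneg b]
    rw [e2, norm_mul, norm_div]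
    have h9 : ‖s + 3‖ / ‖s - 1‖ ≤ (|b| + 5) * s.im := by
      rw [div_le_iff₀ (by linarith)]
      have : 0 ≤ (|b| + 5) * s.im := by
        have := abs_nonneg b
        positivity
      nlinarith
    have h10 : 0 ≤ (|b| + 5) * s.im := (norm_nonneg _).trans h6
    have e3 : s.im ^ (5:ℝ) = s.im ^ 5 := by
      rw [← Real.rpow_natCast]; norm_num
    calc ‖Pool.Agent.Y757.LS.GG s‖ * (‖s + 3‖ / ‖s - 1‖)
        ≤ (C * ((|b| + 5) * s.im) ^ 4) * ((|b| + 5) * s.im) := by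
          apply mul_le_mul ((hC s h1).trans _) h9 (by positivity) (by positivity)
          exact mul_le_mul_of_nonneg_left h8 (by linarith)
      _ = C * (|b| + 5) ^ 5 * s.im ^ (5:ℝ) := by rw [e3]; ring

lemma exu_three : Exu 3 0 := by
  intro ε hε
  obtain ⟨A, hA1, hA⟩ := Pool.Agent.Y757.LS.zeta_bounds (a := 2) (by norm_num)
  obtain ⟨T₀, -, hT⟩ := absorb A hε
  refine ⟨T₀, fun t ht => ?_⟩
  rw [zero_add]
  exact ((hA ⟨3, t⟩ (by norm_num)).1).trans (hT t ht)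

/-- to the right -/
lemma Exu.right {σ m : ℝ} (h : Exu σ m) (hm : 0 ≤ m) (hσ0 : -1 ≤ σ) (hσ : σ < 3) {ε : ℝ} (hε : 0 < ε) :
    ∃ T₀ : ℝ, 1 ≤ T₀ ∧ ∀ s : ℂ, σ ≤ s.re → s.re ≤ 3 → T₀ ≤ s.im → ‖riemannZeta s‖ ≤ s.im ^ (m + ε) := by
  obtain ⟨C, _, hC⟩ := zgrow 3
  obtain ⟨T₀, h1, hT⟩ := cvx (A := 5) (α := m) (β := 0) hσ (f := riemannZeta)
    (fun s _ _ h3 => zeta_diff h3) ⟨C, fun s h1 h2 h3 => hC s (by linarith) h2 h3⟩ h exu_three hε
  refine ⟨T₀, h1, fun s h2 h3 h4 => (hT s h2 h3 h4).trans ?_⟩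
  apply Real.rpow_le_rpow_of_exponent_le (by linarith)
  have h5 : (3 - s.re) / (3 - σ) ≤ 1 := by
    rw [div_le_one (by linarith)]; linarith
  have h6 : 0 ≤ (3 - s.re) / (3 - σ) := div_nonneg (by linarith) (by linarith)
  nlinarith

/-- to the left -/
lemma Exu.left {σ m : ℝ} (h : Exu σ m) (hσ : 1 / 2 < σ) (hσ2 : σ ≤ 2) {ε : ℝ} (hε : 0 < ε) :
    ∃ T₀ : ℝ, 1 ≤ T₀ ∧ ∀ s : ℂ, 1 - σ ≤ s.re → s.re ≤ σ → T₀ ≤ s.im →
      ‖riemannZeta s‖ ≤ s.im ^ (m + (σ - s.re) / 2 + ε) := by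
  obtain ⟨C, _, hC⟩ := zgrow 3
  obtain ⟨K, hK, hr⟩ := Pool.Agent.Y757.LS.zeta_refl
  obtain ⟨T₀, h1, hT⟩ := cvx (a := 1 - σ) (b := σ) (A := 5) (α := m + (σ - 1 / 2)) (β := m)
    (by linarith) (f := riemannZeta)
    (fun s _ _ h3 => zeta_diff h3) ⟨C, fun s h1 h2 h3 => hC s (by linarith) (by linarith) h3⟩
    (by
      intro ε hε
      obtain ⟨T₀, hT⟩ := h (ε / 2) (by positivity)
      obtain ⟨T₁, h1, hT1⟩ := absorb (Real.exp K) (ε := ε / 2) (by positivity)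
      refine ⟨max T₀ T₁, fun t ht => ?_⟩
      have ht0 : T₀ ≤ t := (le_max_left _ _).trans ht
      have ht1 : T₁ ≤ t := (le_max_right _ _).trans ht
      have ht2 : 0 < t := by linarith
      have h2 := (hr (σ - 1 / 2) t (by linarith) (by linarith) (by
        rw [abs_of_nonneg (by linarith)]; linarith)).2
      rw [abs_of_pos ht2] at h2
      have e1 : (1 / 2 - ((σ - 1 / 2 : ℝ) : ℂ) + t * I) = ⟨1 - σ, t⟩ := by
        apply Complex.ext
        · simp; ring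
        · simp
      have e2 : (1 / 2 + ((σ - 1 / 2 : ℝ) : ℂ) + t * I) = ⟨σ, t⟩ := by
        apply Complex.ext
        · simp
        · simp
      rw [e1, e2] at h2
      refine h2.trans ?_
      have h3 := hT t ht0
      have h4 := hT1 t ht1
      calc Real.exp K * t ^ (σ - 1 / 2) * ‖riemannZeta ⟨σ, t⟩‖
          ≤ t ^ (ε / 2) * t ^ (σ - 1 / 2) * t ^ (m + ε / 2) := by gcongr
        _ = t ^ (m + (σ - 1 / 2) + ε) := by
            rw [← Real.rpow_add ht2, ← Real.rpow_add ht2]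
            congr 1; ring) h hε
  refine ⟨T₀, h1, fun s h2 h3 h4 => (hT s h2 h3 h4).trans (le_of_eq ?_)⟩
  congr 1
  have : σ - (1 - σ) ≠ 0 := by linarith
  field_simp
  ring

lemma Exu.left' {σ m : ℝ} (h : Exu σ m) (hσ : 1 / 2 < σ) (hσ2 : σ ≤ 2) {σ' : ℝ} (h1 : 1 - σ ≤ σ')
    (h2 : σ' ≤ σ) : Exu σ' (m + (σ - σ') / 2) := by
  intro ε hε
  obtain ⟨T₀, _, hT⟩ := h.left hσ hσ2 hε
  exact ⟨T₀, fun t ht => hT ⟨σ', t⟩ h1 h2 ht⟩

lemma Exu.closed {σ m : ℝ} (h : ∀ m' : ℝ, m < m' → Exu σ m') : Exu σ m := by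
  intro ε hε
  obtain ⟨T₀, hT⟩ := h (m + ε / 2) (by linarith) (ε / 2) (by linarith)
  exact ⟨T₀, fun t ht => by
    rw [show m + ε = m + ε / 2 + ε / 2 by ring]
    exact hT t ht⟩

/-- the exponent vanishes if it decreases at the rate `1` to the right -/
lemma exu_zero {σ : ℝ} (hσ : 1 / 2 < σ) (hσ1 : σ ≤ 1)
    (H : ∀ m : ℝ, 0 ≤ m → Exu σ m → ∀ σ' : ℝ, σ < σ' → σ' ≤ 2 → Exu σ' (max 0 (m - (σ' - σ)))) :
    Exu σ 0 := by
  set S : Set ℝ := {m | 0 ≤ m ∧ Exu σ m} with hS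
  have hne : S.Nonempty := by
    obtain ⟨C, _, hC⟩ := zgrow 3
    refine ⟨5, by norm_num, fun ε hε => ?_⟩
    obtain ⟨T₀, h1, hT⟩ := absorb C hε
    refine ⟨T₀, fun t ht => ?_⟩
    have ht0 : 0 < t := by linarith
    refine (hC ⟨σ, t⟩ (by simp only; linarith) (by simp only; linarith)
      (by simp only; linarith)).trans ?_
    rw [add_comm, Real.rpow_add ht0]
    exact mul_le_mul_of_nonneg_right (hT t ht) (by positivity)
  have hbdd : BddBelow S := ⟨0, fun m hm => hm.1⟩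
  set m₀ := sInf S with hm₀
  have hm0 : 0 ≤ m₀ := le_csInf hne fun m hm => hm.1
  have hmem : Exu σ m₀ := by
    apply Exu.closed
    intro m' hm'
    obtain ⟨m, hm, hmm⟩ := exists_lt_of_csInf_lt hne hm'
    exact hm.2.mono hmm.le
  rcases hm0.eq_or_lt with h0 | h0
  · rw [← h0] at hmem; exact hmem
  · exfalso
    set d : ℝ := min m₀ 1 with hd
    have hd0 : 0 < d := lt_min h0 one_pos
    have h1 := H m₀ hm0 hmem (σ + d) (by linarith) (by
      have : d ≤ 1 := min_le_right _ _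
      linarith)
    have h2 : max 0 (m₀ - (σ + d - σ)) = m₀ - d := by
      rw [max_eq_right]
      · ring
      · have : d ≤ m₀ := min_le_left _ _
        linarith
    rw [h2] at h1
    have h3 := h1.left' (σ' := σ) (by linarith) (by
      have : d ≤ 1 := min_le_right _ _
      linarith) (by linarith) (by linarith)
    have h4 : m₀ - d + (σ + d - σ) / 2 ∈ S := by
      refine ⟨?_, h3⟩
      have : d ≤ m₀ := min_le_left _ _
      linarith
    have h5 := csInf_le hbdd h4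
    linarith

end Pool.Agent.L7h13.SP
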