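import Pool.Agent.H31R2.DH.Back

/-!
# Jensen and Backlund, uniform forms
-/

set_option autoImplicit false

open Complex Metric Set Filter Topology

namespace Pool.Agent.L7h13.SP

open H370 H370.Loc DH31

/-- few zeros of a function which is not large and not small at the centre -/
lemma gjensen {R δ : ℝ} (hδ : 0 < δ) (hR : δ < R) {ε : ℝ} (hε : 0 < ε) : ∃ η : ℝ, 0 < η ∧
    ∀ L : ℝ, 0 ≤ L → ∀ (f : ℂ → ℂ) (c : ℂ), AnalyticOnNhd ℂ f (closedBall c R) →
      (∀ z ∈ closedBall c R, ‖f z‖ ≤ Real.exp (η * L)) → Real.exp (-(η * L)) ≤ ‖f c‖ →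
      ∀ S : Finset ℂ, (∀ z ∈ S, z ∈ closedBall c (R - δ)) →
        ∑ z ∈ S, (mult f z : ℝ) ≤ ε * L := by
  have hlog : 0 < Real.log (R / (R - δ)) := Real.log_pos (by
    rw [lt_div_iff₀ (by linarith)]; linarith)
  refine ⟨ε * Real.log (R / (R - δ)) / 2, by positivity, fun L hL f c hf hb hc S hS => ?_⟩
  set η := ε * Real.log (R / (R - δ)) / 2 with hη
  have hη0 : 0 < η := by positivity
  have hfc : f c ≠ 0 := by
    intro h
    rw [h, norm_zero] at hc
    exact absurd (Real.exp_pos _) (not_lt.2 hc)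
  have h1 := jensen_mult (f := f) (c := c) (r := R - δ) (R := R) (by linarith) (by linarith)
    (Real.one_le_exp (by positivity)) hf hfc hb S hS
  refine h1.trans ?_
  rw [div_le_iff₀ hlog]
  have hfc' : 0 < ‖f c‖ := norm_pos_iff.2 hfc
  rw [Real.log_div (Real.exp_pos _).ne' hfc'.ne', Real.log_exp]
  have h2 : -(η * L) ≤ Real.log ‖f c‖ := (Real.le_log_iff_exp_le hfc').2 hc
  have h3 : ε * L * Real.log (R / (R - δ)) = 2 * (η * L) := by rw [hη]; ring
  linarith

/-- order of vanishing after an affine substitution -/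
lemma mult_affine {f : ℂ → ℂ} {a b : ℂ} (ha : a ≠ 0) {z : ℂ} (hf : AnalyticAt ℂ f (b + a * z)) :
    mult (fun w => f (b + a * w)) z = mult f (b + a * z) := by
  unfold mult
  unfold analyticOrderNatAt
  congr 1
  have hg : AnalyticAt ℂ (fun w : ℂ => b + a * w) z := by fun_prop
  have h1 : analyticOrderAt (f ∘ fun w : ℂ => b + a * w) z =
      analyticOrderAt f (b + a * z) * analyticOrderAt (fun w => (b + a * w) - (b + a * z)) z :=
    AnalyticAt.analyticOrderAt_comp (g := fun w : ℂ => b + a * w) hf hg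
  have h2 : analyticOrderAt (fun w : ℂ => (b + a * w) - (b + a * z)) z = 1 := by
    have hg2 : AnalyticAt ℂ (fun w : ℂ => (b + a * w) - (b + a * z)) z := by fun_prop
    have : analyticOrderAt (fun w : ℂ => (b + a * w) - (b + a * z)) z = ((1 : ℕ) : ℕ∞) := by
      rw [hg2.analyticOrderAt_eq_natCast]
      refine ⟨fun _ => a, by fun_prop, ha, ?_⟩
      filter_upwards with w
      rw [smul_eq_mul]
      ring
    simpa using this
  rw [h2, mul_one] at h1
  exact h1

/-- few zeros imply small values, uniform form -/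
lemma gbacklund {R δ r A B : ℝ} (hδ : 0 < δ) (hR : 3 * δ < R) (hr : 0 < r) (hrR : r ≤ R) (hA : 0 ≤ A)
    (hB : 1 ≤ B) {ε : ℝ} (hε : 0 < ε) : ∃ η : ℝ, 0 < η ∧ ∃ L₀ : ℝ,
    ∀ L : ℝ, L₀ ≤ L → 0 ≤ L → ∀ (f : ℂ → ℂ) (c : ℂ), AnalyticOnNhd ℂ f (closedBall c R) →
      (∀ z ∈ closedBall c R, ‖f z‖ ≤ Real.exp (A * L)) → (∀ z ∈ closedBall c r, ‖f z‖ ≤ B) →
      1 / B ≤ ‖f c‖ →
      (∀ S : Finset ℂ, (∀ z ∈ S, z ∈ closedBall c (R - δ) ∧ f z = 0) →
        ∑ z ∈ S, (mult f z : ℝ) ≤ η * L) →
      ∀ z ∈ closedBall c (R - 2 * δ), ‖f z‖ ≤ Real.exp (ε * L) := by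
  have hR0 : 0 < R := by linarith
  -- normalised parameters
  set d : ℝ := δ / R with hd
  have hd0 : 0 < d := by positivity
  have hd3 : 3 * d < 1 := by rw [hd, mul_div_assoc', div_lt_one hR0]; exact hR
  -- the radius of the zero free ball
  set l : ℝ := min (min (r / (4 * B ^ 2)) (r / 2)) (R - 3 * δ) / R with hl
  have hl0 : 0 < l := by
    rw [hl]
    have : 0 < R - 3 * δ := by linarith
    positivity
  have hB0 : 0 < B := by linarith
  have hl1 : l * R ≤ r / (4 * B ^ 2) := by
    rw [hl, div_mul_cancel₀ _ hR0.ne']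
    exact (min_le_left _ _).trans (min_le_left _ _)
  have hl2 : l * R ≤ r / 2 := by
    rw [hl, div_mul_cancel₀ _ hR0.ne']
    exact (min_le_left _ _).trans (min_le_right _ _)
  have hl3 : l ≤ 1 - 3 * d := by
    have h1 : l * R ≤ R - 3 * δ := by
      rw [hl, div_mul_cancel₀ _ hR0.ne']
      exact min_le_right _ _
    have h2 : (1 - 3 * d) * R = R - 3 * δ := by rw [hd]; field_simp
    rw [← h2] at h1
    exact le_of_mul_le_mul_right h1 hR0
  have hq0 : 0 ≤ 1 - d / 2 := by linarith
  have hq1 : 1 - d / 2 < 1 := by linarith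
  -- choice of K
  set D : ℝ := 8 / d ^ 2 * (A + Real.log (1 / d) + 1) with hD
  have hlog1d : 0 ≤ Real.log (1 / d) := Real.log_nonneg (by rw [le_div_iff₀ hd0]; linarith)
  have hD0 : 0 < D := by positivity
  obtain ⟨K, hK⟩ := exists_pow_lt_of_lt_one (show 0 < ε / 4 / D by positivity) hq1
  rw [lt_div_iff₀ hD0] at hK
  have h2l1 : 1 ≤ 2 / l := by rw [le_div_iff₀ hl0]; linarith
  have hlog2l : 0 ≤ Real.log (2 / l) := Real.log_nonneg h2l1
  have hlogB : 0 ≤ Real.log B := Real.log_nonneg hB
  set G : ℝ := K * (4 / l) ^ K with hG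
  have hG0 : 0 ≤ G := by positivity
  set E : ℝ := Real.log (2 / l) + 2 * Real.log (2 / l) * G + 1 with hE
  have hE0 : 0 < E := by positivity
  set C : ℝ := Real.log B + 2 * (Real.log B + Real.log B + 1) * G +
    8 / d ^ 2 * (Real.log B + 1) with hC
  have hC0 : 0 ≤ C := by positivity
  refine ⟨min 1 (ε / 4 / E), lt_min one_pos (by positivity), 4 * C / ε, ?_⟩
  intro L hL hL0 f c hf hb hbr hc hn z hz
  set η : ℝ := min 1 (ε / 4 / E) with hη
  have hη0 : 0 < η := lt_min one_pos (by positivity)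
  have hη1 : η ≤ 1 := min_le_left _ _
  have hη2 : η * E ≤ ε / 4 := by
    have : η ≤ ε / 4 / E := min_le_right _ _
    rwa [le_div_iff₀ hE0] at this
  rw [div_le_iff₀ hε] at hL
  -- scaling
  set g : ℂ → ℂ := fun w => f (c + (R : ℂ) * w) with hg
  have hRc : (R : ℂ) ≠ 0 := by exact_mod_cast hR0.ne'
  have hmem : ∀ (ρ : ℝ) (w : ℂ), w ∈ closedBall (0 : ℂ) ρ ↔ c + (R : ℂ) * w ∈ closedBall c (ρ * R) := by
    intro ρ w
    rw [mem_closedBall, mem_closedBall, dist_eq_norm, dist_eq_norm, sub_zero, add_sub_cancel_left,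
      norm_mul, Complex.norm_real, Real.norm_eq_abs, abs_of_pos hR0, mul_comm R]
    exact (mul_le_mul_iff_left₀ hR0).symm
  have hdR : (1 - 3 * d) * R + 3 * d * R = R := by ring
  have e1 : (1 - 3 * d + 3 * d) * R = R := by ring
  have e2 : (1 - 3 * d + 2 * d) * R = R - δ := by rw [hd]; field_simp; ring
  have e3 : (1 - 3 * d + d) * R = R - 2 * δ := by rw [hd]; field_simp; ring
  have hga : AnalyticOnNhd ℂ g (closedBall 0 (1 - 3 * d + 3 * d)) := by
    intro w hw
    have h1 := (hmem _ _).1 hw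
    rw [e1] at h1
    have h2 := hf _ h1
    exact AnalyticAt.comp (g := f) (f := fun w : ℂ => c + (R : ℂ) * w) h2 (by fun_prop)
  have hg0 : g 0 = f c := by simp [hg]
  have hfc : f c ≠ 0 := by
    intro h
    rw [h, norm_zero] at hc
    have : 0 < 1 / B := by positivity
    linarith
  -- zero free ball
  have hfree : ∀ w ∈ closedBall (0:ℂ) (1 - 3 * d + 2 * d), g w = 0 → l ≤ ‖w - 0‖ := by
    intro w _ hw0
    by_contra hcon
    push Not at hcon
    rw [sub_zero] at hcon
    have h1 : ‖(R : ℂ) * w‖ < l * R := by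
      rw [norm_mul, Complex.norm_real, Real.norm_eq_abs, abs_of_pos hR0, mul_comm]
      exact mul_lt_mul_of_pos_right hcon hR0
    have hdiff : ∀ x ∈ ball c (r / 2), ‖deriv f x‖ ≤ B / (r / 2) := by
      intro x hx
      rw [mem_ball] at hx
      refine Complex.norm_deriv_le_of_forall_mem_sphere_norm_le (by positivity) ?_ ?_
      · refine DifferentiableOn.diffContOnCl ?_
        rw [closure_ball _ (by positivity : r / 2 ≠ 0)]
        intro y hy
        rw [mem_closedBall] at hy
        have : y ∈ closedBall c R := by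
          rw [mem_closedBall]
          linarith [dist_triangle y x c]
        exact (hf y this).differentiableAt.differentiableWithinAt
      · intro y hy
        rw [mem_sphere] at hy
        apply hbr
        rw [mem_closedBall]
        linarith [dist_triangle y x c]
    have h2 : ‖f (c + R * w) - f c‖ ≤ B / (r / 2) * ‖(c + R * w) - c‖ := by
      refine (convex_ball c (r / 2)).norm_image_sub_le_of_norm_deriv_le (𝕜 := ℂ) ?_ hdiff ?_ ?_
      · intro x hx
        rw [mem_ball] at hx
        exact (hf x (by rw [mem_closedBall]; linarith)).differentiableAt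
      · exact mem_ball_self (by positivity)
      · rw [mem_ball, dist_eq_norm, add_sub_cancel_left]
        linarith
    rw [add_sub_cancel_left] at h2
    have h3 : f (c + R * w) = 0 := hw0
    rw [h3, zero_sub, norm_neg] at h2
    have h4 : B / (r / 2) * ‖(R : ℂ) * w‖ ≤ B / (r / 2) * (r / (4 * B ^ 2)) := by
      apply mul_le_mul_of_nonneg_left (h1.le.trans hl1) (by positivity)
    have h5 : B / (r / 2) * (r / (4 * B ^ 2)) = 1 / B / 2 := by field_simp; norm_num
    have h6 : 0 < 1 / B := by positivity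
    linarith
  have key := backlund_abs (f := g) (c := 0) (ϱ := 1 - 3 * d) (δ := d) (l := l) (n := η * L)
    (M := Real.exp (A * L)) (A := B) (a := B) hl0 (by linarith) (by linarith) (by linarith) hd0
    (Real.one_le_exp (by positivity)) hB hB (by positivity) hga
    (fun w hw => by
      apply hb
      have h1 := (hmem _ _).1 hw
      rwa [e1] at h1)
    (fun w hw => by
      apply hbr
      have h1 := (hmem _ _).1 hw
      refine closedBall_subset_closedBall ?_ h1
      linarith)
    (by rw [hg0]; exact hc) hfree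
    (fun S hS => by
      classical
      have hinj : Function.Injective (fun w : ℂ => c + (R : ℂ) * w) := by
        intro x y hxy
        simp only at hxy
        exact mul_left_cancel₀ hRc (add_left_cancel hxy)
      have h1 := hn (S.image fun w => c + (R : ℂ) * w) (by
        intro z hz
        rw [Finset.mem_image] at hz
        obtain ⟨w, hw, rfl⟩ := hz
        obtain ⟨hw1, hw2⟩ := hS w hw
        have h2 := (hmem _ _).1 hw1
        rw [e2] at h2
        exact ⟨h2, hw2⟩)
      rw [Finset.sum_image (fun x _ y _ h => hinj h)] at h1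
      refine le_trans (le_of_eq ?_) h1
      apply Finset.sum_congr rfl
      intro w hw
      have hw1 := (hS w hw).1
      have h2 := (hmem _ _).1 hw1
      rw [e2] at h2
      rw [hg, mult_affine hRc (hf _ (closedBall_subset_closedBall (by linarith) h2))]) K
    (z := (z - c) / R) (by
      rw [hmem, e3, mul_div_cancel₀ _ hRc, add_sub_cancel]
      exact hz)
  have hgz : g ((z - c) / R) = f z := by
    simp only [hg]
    rw [mul_div_cancel₀ _ hRc, add_sub_cancel]
  rw [hgz, Real.log_exp] at key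
  refine key.trans ?_
  rw [← Real.exp_log hB0, ← Real.exp_add, Real.log_exp]
  apply Real.exp_le_exp.2
  have hp : 0 ≤ (1 - d / 2) ^ K := by positivity
  have hp1 : (1 - d / 2) ^ K ≤ 1 := pow_le_one₀ hq0 (by linarith)
  have t1 : η * L * Real.log (2 / l) + 2 * (η * L * Real.log (2 / l)) * G ≤ ε / 4 * L := by
    have h1 : η * L * Real.log (2 / l) + 2 * (η * L * Real.log (2 / l)) * G ≤ η * E * L := by
      have e0 : η * E * L = η * L * Real.log (2 / l) + 2 * (η * L * Real.log (2 / l)) * G +
        η * L := by rw [hE]; ring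
      have : 0 ≤ η * L := by positivity
      linarith
    exact h1.trans (mul_le_mul_of_nonneg_right hη2 hL0)
  have t2 : 8 / d ^ 2 * (A * L + η * L * Real.log (1 / d)) * (1 - d / 2) ^ K ≤ ε / 4 * L := by
    have h1 : A * L + η * L * Real.log (1 / d) ≤ L * (A + Real.log (1 / d) + 1) := by
      have a1 : η * L * Real.log (1 / d) ≤ 1 * L * Real.log (1 / d) := by gcongr
      linarith
    calc 8 / d ^ 2 * (A * L + η * L * Real.log (1 / d)) * (1 - d / 2) ^ K
        ≤ 8 / d ^ 2 * (L * (A + Real.log (1 / d) + 1)) * (1 - d / 2) ^ K := by gcongr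
      _ = ((1 - d / 2) ^ K * D) * L := by rw [hD]; ring
      _ ≤ ε / 4 * L := mul_le_mul_of_nonneg_right hK.le hL0
  have t3 : 8 / d ^ 2 * (Real.log B + 1) * (1 - d / 2) ^ K ≤ 8 / d ^ 2 * (Real.log B + 1) :=
    mul_le_of_le_one_right (by positivity) hp1
  have t4 : Real.log B + (η * L * Real.log (2 / l) + 2 * (Real.log B + η * L * Real.log (2 / l) +
      Real.log B + 1) * (K * (4 / l) ^ K) + 4 * (A * L + η * L * Real.log (1 / d) + Real.log B + 1) / d *
        (1 - d / 2) ^ K * (2 / d)) =
      (η * L * Real.log (2 / l) + 2 * (η * L * Real.log (2 / l)) * G) +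
      8 / d ^ 2 * (A * L + η * L * Real.log (1 / d)) * (1 - d / 2) ^ K +
      8 / d ^ 2 * (Real.log B + 1) * (1 - d / 2) ^ K +
      (Real.log B + 2 * (Real.log B + Real.log B + 1) * G) := by
    rw [hG]
    field_simp
    ring
  rw [t4]
  linarith

end Pool.Agent.L7h13.SP
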