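import Pool.Agent.R307.Mx

/-!
# Three lines, for functions of polynomial growth in the upper half plane
-/

set_option autoImplicit false

open Complex Set

namespace Pool.Agent.L7h13.SP

lemma rpow_near {T t p : ℝ} (hT : 0 < T) (h1 : T / 2 ≤ t) (h2 : t ≤ 2 * T) :
    t ^ p ≤ 2 ^ |p| * T ^ p := by
  have ht : 0 < t := by linarith
  rcases le_or_gt 0 p with hp | hp
  · rw [abs_of_nonneg hp, ← Real.mul_rpow (by norm_num) hT.le]
    exact Real.rpow_le_rpow ht.le h2 hp
  · rw [abs_of_neg hp]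
    have h3 : t ^ p ≤ (T / 2) ^ p := Real.rpow_le_rpow_of_nonpos (by linarith) h1 hp.le
    refine h3.trans (le_of_eq ?_)
    rw [Real.div_rpow hT.le (by norm_num), Real.rpow_neg (by norm_num)]
    ring

lemma cvx {a b A α β : ℝ} (hab : a < b) {f : ℂ → ℂ}
    (hf : ∀ s : ℂ, a ≤ s.re → s.re ≤ b → 1 ≤ s.im → DifferentiableAt ℂ f s)
    (hA : ∃ C : ℝ, ∀ s : ℂ, a ≤ s.re → s.re ≤ b → 1 ≤ s.im → ‖f s‖ ≤ C * s.im ^ A)
    (hα : ∀ ε : ℝ, 0 < ε → ∃ T₀ : ℝ, ∀ t : ℝ, T₀ ≤ t → ‖f ⟨a, t⟩‖ ≤ t ^ (α + ε))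
    (hβ : ∀ ε : ℝ, 0 < ε → ∃ T₀ : ℝ, ∀ t : ℝ, T₀ ≤ t → ‖f ⟨b, t⟩‖ ≤ t ^ (β + ε))
    {ε : ℝ} (hε : 0 < ε) :
    ∃ T₀ : ℝ, 1 ≤ T₀ ∧ ∀ s : ℂ, a ≤ s.re → s.re ≤ b → T₀ ≤ s.im →
      ‖f s‖ ≤ s.im ^ (α * ((b - s.re) / (b - a)) + β * ((s.re - a) / (b - a)) + ε) := by
  obtain ⟨C, hC⟩ := hA
  set X : ℝ := b - a with hX
  have hX0 : 0 < X := by linarith
  set e : ℝ := ε / 4 with he
  have he0 : 0 < e := by positivity
  obtain ⟨Ta, hTa⟩ := hα e he0
  obtain ⟨Tb, hTb⟩ := hβ e he0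
  set δ₀ : ℝ := e / X ^ 2 with hδ₀
  have hδ0 : 0 < δ₀ := by positivity
  have hδX : δ₀ * X ^ 2 = e := by rw [hδ₀]; field_simp
  set N : ℝ := |A| + |α - β| + |α| + 1 with hN
  have hN0 : 0 < N := by positivity
  set η : ℝ := Real.sqrt (N / δ₀) with hη
  have hη0 : 0 < η := Real.sqrt_pos.2 (by positivity)
  have hη2 : δ₀ * η ^ 2 = N := by
    rw [hη, Real.sq_sqrt (by positivity)]; field_simp
  set c1 : ℝ := 2 ^ |α + e| with hc1
  set c2 : ℝ := 2 ^ |β + e| with hc2
  set c3 : ℝ := max C 0 * 2 ^ |A| with hc3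
  have hc10 : 0 < c1 := by positivity
  have hc20 : 0 < c2 := by positivity
  have hc30 : 0 ≤ c3 := by positivity
  set c : ℝ := c1 + c2 + c3 with hc
  have hc0 : 0 < c := by positivity
  refine ⟨max 1 (max (max (Ta + η) (Tb + η)) (max (2 * η + 2) (c ^ (1 / e)))), le_max_left _ _,
    fun s h1 h2 hs => ?_⟩
  set T : ℝ := s.im with hT
  have hT1 : 1 ≤ T := (le_max_left _ _).trans hs
  have hs' := (le_max_right _ _).trans hs
  have hTa' : Ta + η ≤ T := ((le_max_left _ _).trans (le_max_left _ _)).trans hs'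
  have hTb' : Tb + η ≤ T := ((le_max_right _ _).trans (le_max_left _ _)).trans hs'
  have hTη : 2 * η + 2 ≤ T := ((le_max_left _ _).trans (le_max_right _ _)).trans hs'
  have hTc : c ^ (1 / e) ≤ T := ((le_max_right _ _).trans (le_max_right _ _)).trans hs'
  have hT0 : 0 < T := by linarith
  have hcT : c ≤ T ^ e := by
    have h3 := Real.rpow_le_rpow (by positivity) hTc he0.le
    rwa [← Real.rpow_mul hc0.le, one_div_mul_cancel he0.ne', Real.rpow_one] at h3
  set ℓ : ℝ := Real.log T with hℓ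
  have hℓ0 : 0 ≤ ℓ := Real.log_nonneg hT1
  have hexp : ∀ p : ℝ, Real.exp (p * ℓ) = T ^ p := fun p => by
    rw [Real.rpow_def_of_pos hT0, mul_comm]
  have hnear : ∀ t : ℝ, |t - T| ≤ η → T / 2 ≤ t ∧ t ≤ 2 * T ∧ 1 ≤ t := by
    intro t ht
    have := abs_le.1 ht
    refine ⟨by linarith, by linarith, by linarith⟩
  set κ : ℝ := (α - β) / X * ℓ with hκ
  have hκX : κ * X = (α - β) * ℓ := by rw [hκ]; field_simp
  have hκabs : |κ| * X = |α - β| * ℓ := by
    rw [← abs_of_pos hX0, ← abs_mul, hκX, abs_mul, abs_of_nonneg hℓ0]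
  have hpow : ∀ p q : ℝ, p ≤ q → T ^ p ≤ T ^ q := fun p q h =>
    Real.rpow_le_rpow_of_exponent_le hT1 h
  have hTp : ∀ p : ℝ, 0 ≤ T ^ p := fun p => by positivity
  have key := Pool.Agent.R307.gauss_max (g := f) (σ := a) (X := X) (η := η) (t₁ := T) (κ := κ)
    (δ := δ₀ * ℓ) (L := c1 * T ^ (α + e)) (R := c2 * T ^ (β + e)) (P := c3 * T ^ A)
    (Q := c * T ^ (α + e + e)) hX0 hη0 (by positivity)
    (fun z hz1 hz2 hz3 => hf z hz1 (by linarith) (hnear _ hz3).2.2)
    (fun t ht => by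
      obtain ⟨n1, n2, n3⟩ := hnear t ht
      have h3 := hTa t (by have := abs_le.1 ht; linarith)
      exact h3.trans (rpow_near hT0 n1 n2))
    (fun t ht => by
      obtain ⟨n1, n2, n3⟩ := hnear t ht
      have h3 := hTb t (by have := abs_le.1 ht; linarith)
      rw [show a + X = b by rw [hX]; ring]
      exact h3.trans (rpow_near hT0 n1 n2))
    (fun z hz1 hz2 hz3 => by
      obtain ⟨n1, n2, n3⟩ := hnear _ hz3
      have h3 := hC z hz1 (by linarith) n3
      have h4 : 0 ≤ z.im ^ A := by have : 0 < z.im := by linarith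
                                   positivity
      calc ‖f z‖ ≤ C * z.im ^ A := h3
        _ ≤ max C 0 * z.im ^ A := mul_le_mul_of_nonneg_right (le_max_left _ _) h4
        _ ≤ max C 0 * (2 ^ |A| * T ^ A) := mul_le_mul_of_nonneg_left (rpow_near hT0 n1 n2)
            (le_max_right _ _)
        _ = _ := by rw [hc3]; ring)
    (by
      calc c1 * T ^ (α + e) ≤ c * T ^ (α + e + e) := by
            apply mul_le_mul _ (hpow _ _ (by linarith)) (hTp _) hc0.le
            rw [hc]; linarith)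
    (by
      have h3 : Real.exp (δ₀ * ℓ * X ^ 2 + κ * X) = T ^ (e + (α - β)) := by
        rw [← hexp]
        congr 1
        rw [hκX, ← hδX]; ring
      rw [h3, mul_assoc, ← Real.rpow_add hT0, show β + e + (e + (α - β)) = α + e + e by ring]
      apply mul_le_mul_of_nonneg_right _ (hTp _)
      rw [hc]; linarith)
    (by
      have h3 : Real.exp (δ₀ * ℓ * (X ^ 2 - η ^ 2) + |κ| * X) = T ^ (e - N + |α - β|) := by
        rw [← hexp]
        congr 1
        rw [hκabs, ← hδX, ← hη2]; ring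
      rw [h3, mul_assoc, ← Real.rpow_add hT0]
      apply mul_le_mul _ (hpow _ _ _) (hTp _) hc0.le
      · rw [hc]; linarith
      · rw [hN]
        have := le_abs_self A
        have := neg_abs_le α
        linarith)
    (x := s.re - a) (by linarith) (by linarith)
  have hse : (⟨a + (s.re - a), T⟩ : ℂ) = s := by
    apply Complex.ext
    · simp
    · rfl
  rw [hse, Real.exp_add] at key
  have h5 : 1 ≤ Real.exp (δ₀ * ℓ * (s.re - a) ^ 2) := Real.one_le_exp (by positivity)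
  have h6 : ‖f s‖ * Real.exp (κ * (s.re - a)) ≤ c * T ^ (α + e + e) := by
    refine le_trans ?_ key
    have h7 := Real.exp_pos (κ * (s.re - a))
    have h8 : ‖f s‖ * (1 * Real.exp (κ * (s.re - a))) ≤
        ‖f s‖ * (Real.exp (δ₀ * ℓ * (s.re - a) ^ 2) * Real.exp (κ * (s.re - a))) := by
      apply mul_le_mul_of_nonneg_left _ (norm_nonneg _)
      exact mul_le_mul_of_nonneg_right h5 h7.le
    rwa [one_mul] at h8
  have h7 : Real.exp (κ * (s.re - a)) = T ^ ((α - β) / X * (s.re - a)) := by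
    rw [← hexp]; congr 1; rw [hκ]; ring
  rw [h7] at h6
  have h8 : 0 < T ^ ((α - β) / X * (s.re - a)) := by positivity
  rw [← le_div_iff₀ h8] at h6
  refine h6.trans ?_
  rw [mul_div_assoc, ← Real.rpow_sub hT0]
  calc c * T ^ (α + e + e - (α - β) / X * (s.re - a))
      ≤ T ^ e * T ^ (α + e + e - (α - β) / X * (s.re - a)) :=
        mul_le_mul_of_nonneg_right hcT (hTp _)
    _ = T ^ (e + (α + e + e - (α - β) / X * (s.re - a))) := by rw [← Real.rpow_add hT0]
    _ ≤ _ := by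
        apply hpow
        have h9 : α * ((b - s.re) / X) + β * ((s.re - a) / X) = α - (α - β) / X * (s.re - a) := by
          rw [hX]
          have : b - a ≠ 0 := by linarith
          field_simp
          ring
        linarith

end Pool.Agent.L7h13.SP
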