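import Pool.Agent.L7h13.SP.LeftB

/-!
# The Dirichlet series of `P(d/ds) ζ`
-/

set_option autoImplicit false

open Complex Set Metric Polynomial

namespace Pool.Agent.L7h13.SP

open LSeries

/-- the coefficients -/
noncomputable def cf (P : ℂ[X]) : ℕ → ℂ :=
  ∑ k ∈ Finset.range (P.natDegree + 1), (P.coeff k * (-1) ^ k) • (logMul^[k] 1)

lemma logMul_iter (k n : ℕ) : (logMul^[k] 1) n = (Complex.log n) ^ k := by
  induction k with
  | zero => simp
  | succ k ih =>
    rw [Function.iterate_succ_apply']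
    unfold logMul
    rw [ih, pow_succ]; ring

lemma cf_eval (P : ℂ[X]) (n : ℕ) : cf P n = P.eval (-Complex.log n) := by
  unfold cf
  rw [Polynomial.eval_eq_sum_range, Finset.sum_apply]
  apply Finset.sum_congr rfl
  intro k _
  rw [Pi.smul_apply, logMul_iter, neg_pow, smul_eq_mul]
  ring

lemma term_summ (k : ℕ) {s : ℂ} (hs : 1 < s.re) : LSeriesSummable (logMul^[k] 1) s := by
  apply LSeriesSummable_of_abscissaOfAbsConv_lt_re
  rw [absicssaOfAbsConv_logPowMul, abscissaOfAbsConv_one]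
  exact_mod_cast hs

lemma cf_summ (P : ℂ[X]) {s : ℂ} (hs : 1 < s.re) : LSeriesSummable (cf P) s := by
  unfold cf
  exact LSeriesSummable.sum fun k _ => (term_summ k hs).smul _

lemma op_lseries (P : ℂ[X]) {s : ℂ} (hs : 1 < s.re) : Op P riemannZeta s = LSeries (cf P) s := by
  unfold Op cf
  rw [LSeries_sum fun k _ => (term_summ k hs).smul _]
  apply Finset.sum_congr rfl
  intro k _
  rw [LSeries_smul]
  have h1 : riemannZeta =ᶠ[nhds s] LSeries 1 := by
    have hopen : IsOpen {z : ℂ | 1 < z.re} := isOpen_lt continuous_const Complex.continuous_re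
    filter_upwards [hopen.mem_nhds hs] with z hz
    exact (LSeries_one_eq_riemannZeta hz).symm
  rw [h1.iteratedDeriv_eq k, LSeries_iteratedDeriv k (by
    rw [abscissaOfAbsConv_one]; exact_mod_cast hs)]
  ring

/-- the lower bound far to the right -/
lemma rlow' {a : ℕ → ℂ} (hex : ∃ n : ℕ, 1 ≤ n ∧ a n ≠ 0) (hsum1 : ∀ s : ℂ, 3 ≤ s.re → LSeriesSummable a s) :
    ∃ (n₀ : ℕ) (c X : ℝ), 1 ≤ n₀ ∧ 0 < c ∧ 4 ≤ X ∧
    ∀ s : ℂ, X ≤ s.re → c * (n₀ : ℝ) ^ (-s.re) ≤ ‖LSeries a s‖ := by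
  classical
  set n₀ := Nat.find hex with hn₀
  obtain ⟨hn1, hn2⟩ := Nat.find_spec hex
  have hmin : ∀ n : ℕ, 1 ≤ n → n < n₀ → a n = 0 := by
    intro n h1 h2
    by_contra h3
    exact Nat.find_min hex h2 ⟨h1, h3⟩
  have hs3 : LSeriesSummable a 3 := hsum1 3 (by norm_num)
  set D : ℝ := ∑' n, ‖term a 3 n‖ with hD
  have hD0 : 0 ≤ D := tsum_nonneg fun _ => norm_nonneg _
  have hn0 : (0:ℝ) < n₀ := by exact_mod_cast (by omega : 0 < n₀)
  have hn1' : (1:ℝ) ≤ n₀ := by exact_mod_cast hn1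
  have hcn : 0 < ‖a n₀‖ := norm_pos_iff.2 hn2
  -- the tail
  have htail : ∀ s : ℂ, 3 ≤ s.re → ‖LSeries a s - term a s n₀‖ ≤
      ((n₀ : ℝ) + 1) ^ (3 - s.re) * D := by
    intro s hs
    have hsum : Summable (term a s) := hsum1 s hs
    unfold LSeries
    rw [hsum.tsum_eq_add_tsum_ite n₀, add_sub_cancel_left]
    have hg : HasSum (fun n => ((n₀ : ℝ) + 1) ^ (3 - s.re) * ‖term a 3 n‖)
        (((n₀ : ℝ) + 1) ^ (3 - s.re) * D) := (hs3.norm.hasSum).mul_left _
    refine tsum_of_norm_bounded hg fun n => ?_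
    split_ifs with h
    · rw [norm_zero]; positivity
    · rw [norm_term_eq, norm_term_eq]
      rcases Nat.eq_zero_or_pos n with hn | hn
      · simp [hn]
      · rw [if_neg (by omega), if_neg (by omega)]
        rcases Nat.lt_or_ge n n₀ with h1 | h1
        · rw [hmin n hn h1]; simp
        · have h2 : (n₀ : ℝ) + 1 ≤ n := by exact_mod_cast (by omega : n₀ + 1 ≤ n)
          have hn0' : (0:ℝ) < n := by linarith
          have h3 : (3 : ℂ).re = 3 := by simp
          rw [h3]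
          have h4 : (n : ℝ) ^ s.re = n ^ (3:ℝ) * n ^ (s.re - 3) := by
            rw [← Real.rpow_add hn0']; congr 1; ring
          have h5 : ((n₀ : ℝ) + 1) ^ (3 - s.re) = (((n₀ : ℝ) + 1) ^ (s.re - 3))⁻¹ := by
            rw [← Real.rpow_neg (by positivity)]; congr 1; ring
          have h6 : ((n₀ : ℝ) + 1) ^ (s.re - 3) ≤ (n : ℝ) ^ (s.re - 3) :=
            Real.rpow_le_rpow (by positivity) h2 (by linarith)
          rw [h4, h5]
          have h7 : ‖a n‖ / ((n:ℝ) ^ (3:ℝ) * (n:ℝ) ^ (s.re - 3)) =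
              ((n:ℝ) ^ (s.re - 3))⁻¹ * (‖a n‖ / (n:ℝ) ^ (3:ℝ)) := by
            field_simp
          rw [h7]
          apply mul_le_mul_of_nonneg_right _ (by positivity)
          exact inv_anti₀ (by positivity) h6
  -- the ratio
  have hlim : Filter.Tendsto (fun x : ℝ => ((n₀ : ℝ) / (n₀ + 1)) ^ x * (((n₀ : ℝ) + 1) ^ (3:ℝ) * D))
      Filter.atTop (nhds 0) := by
    have h1 : Filter.Tendsto (fun x : ℝ => ((n₀ : ℝ) / (n₀ + 1)) ^ x) Filter.atTop (nhds 0) := by
      apply tendsto_rpow_atTop_of_base_lt_one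
      · have : 0 < (n₀ : ℝ) / (n₀ + 1) := by positivity
        linarith
      · rw [div_lt_one (by positivity)]; linarith
    simpa using h1.mul_const (((n₀ : ℝ) + 1) ^ (3:ℝ) * D)
  obtain ⟨X, hX⟩ := Filter.eventually_atTop.1
    (hlim.eventually_le_const (show 0 < ‖a n₀‖ / 2 by positivity))
  refine ⟨n₀, ‖a n₀‖ / 2, max X 4, hn1, by positivity, le_max_right _ _, fun s hs => ?_⟩
  have hsX := hX s.re ((le_max_left _ _).trans hs)
  have hs4 : 4 ≤ s.re := (le_max_right _ _).trans hs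
  have h1 := htail s (by linarith)
  have h2 : ‖term a s n₀‖ = ‖a n₀‖ * (n₀ : ℝ) ^ (-s.re) := by
    rw [norm_term_eq, if_neg (by omega), Real.rpow_neg hn0.le]
    rfl
  have h3 : ((n₀ : ℝ) + 1) ^ (3 - s.re) * D ≤ ‖a n₀‖ / 2 * (n₀ : ℝ) ^ (-s.re) := by
    have h4 : ((n₀ : ℝ) + 1) ^ (3 - s.re) * D =
        ((n₀ : ℝ) / (n₀ + 1)) ^ s.re * (((n₀ : ℝ) + 1) ^ (3:ℝ) * D) * (n₀ : ℝ) ^ (-s.re) := by
      rw [Real.div_rpow hn0.le (by positivity), Real.rpow_neg hn0.le, Real.rpow_sub (by positivity)]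
      have : (n₀ : ℝ) ^ s.re ≠ 0 := by positivity
      field_simp
    rw [h4]
    exact mul_le_mul_of_nonneg_right hsX (by positivity)
  have h5 := norm_sub_norm_le (term a s n₀) (LSeries a s)
  rw [norm_sub_rev, h2] at h5
  linarith

/-- a Dirichlet polynomial -/
noncomputable def DP (N : ℕ) (b : ℕ → ℂ) (s : ℂ) : ℂ := ∑ n ∈ Finset.Icc 1 N, b n * (n : ℂ) ^ (-s)

/-- its coefficients -/
noncomputable def dc (N : ℕ) (b : ℕ → ℂ) (n : ℕ) : ℂ := if n ∈ Finset.Icc 1 N then b n else 0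

lemma term_dc {N : ℕ} {b : ℕ → ℂ} {s : ℂ} {n : ℕ} (hn : n ∉ Finset.Icc 1 N) : term (dc N b) s n = 0 := by
  rw [term_def]
  split_ifs with h
  · rfl
  · rw [dc, if_neg hn, zero_div]

lemma dc_summ (N : ℕ) (b : ℕ → ℂ) (s : ℂ) : LSeriesSummable (dc N b) s :=
  summable_of_ne_finset_zero (s := Finset.Icc 1 N) fun _ hn => term_dc hn

lemma dp_lseries (N : ℕ) (b : ℕ → ℂ) (s : ℂ) : DP N b s = LSeries (dc N b) s := by
  unfold DP LSeries
  rw [tsum_eq_sum (s := Finset.Icc 1 N) fun _ hn => term_dc hn]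
  apply Finset.sum_congr rfl
  intro n hn
  have h1 : n ≠ 0 := by
    rw [Finset.mem_Icc] at hn; omega
  rw [term_def, if_neg h1, dc, if_pos hn, Complex.cpow_neg, div_eq_mul_inv]

lemma dp_good (N : ℕ) (b : ℕ → ℂ) : ∃ M : ℝ, Good (DP N b) M := by
  refine ⟨∑ n ∈ Finset.Icc 1 N, ‖b n‖ * (n : ℝ) ^ (3:ℝ), fun s => ?_, fun s hs => ?_⟩
  · unfold DP
    apply Finset.analyticAt_fun_sum
    intro n hn
    have h1 : n ≠ 0 := by
      rw [Finset.mem_Icc] at hn; omega
    have h2 : (fun s : ℂ => b n * (n : ℂ) ^ (-s)) =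
        fun s : ℂ => b n * Complex.exp (Complex.log n * (-s)) := by
      funext s
      rw [Complex.cpow_def_of_ne_zero (by exact_mod_cast h1)]
    rw [h2]
    fun_prop
  · unfold DP
    refine (norm_sum_le _ _).trans (Finset.sum_le_sum fun n hn => ?_)
    rw [Finset.mem_Icc] at hn
    rw [norm_mul]
    apply mul_le_mul_of_nonneg_left _ (norm_nonneg _)
    rw [Complex.norm_natCast_cpow_of_pos (by omega)]
    apply Real.rpow_le_rpow_of_exponent_le (by exact_mod_cast hn.1)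
    rw [Complex.neg_re]; linarith

/-- the lower bound far to the right -/
lemma rlow {P : ℂ[X]} (hP : P ≠ 0) (N : ℕ) (b : ℕ → ℂ) : ∃ (n₀ : ℕ) (c X : ℝ), 1 ≤ n₀ ∧ 0 < c ∧ 4 ≤ X ∧
    ∀ s : ℂ, X ≤ s.re → c * (n₀ : ℝ) ^ (-s.re) ≤ ‖Op P riemannZeta s - DP N b s‖ := by
  have hex : ∃ n : ℕ, 1 ≤ n ∧ (cf P - dc N b) n ≠ 0 := by
    by_contra hcon
    push Not at hcon
    apply hP
    apply Polynomial.eq_zero_of_infinite_isRoot
    refine Set.infinite_of_injective_forall_mem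
      (f := fun n : ℕ => -Complex.log ((N + n + 1 : ℕ) : ℂ)) ?_ ?_
    · intro a b hab
      simp only [neg_inj] at hab
      rw [Complex.natCast_log.symm, Complex.natCast_log.symm] at hab
      have h1 : Real.log ((N + a + 1 : ℕ) : ℝ) = Real.log ((N + b + 1 : ℕ) : ℝ) := by exact_mod_cast hab
      have h2 := Real.log_injOn_pos (by simp only [Set.mem_Ioi]; positivity)
        (by simp only [Set.mem_Ioi]; positivity) h1
      have h3 : N + a + 1 = N + b + 1 := by exact_mod_cast h2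
      omega
    · intro n
      have := hcon (N + n + 1) (by omega)
      rw [Pi.sub_apply, cf_eval, dc, if_neg (by rw [Finset.mem_Icc]; omega), sub_zero] at this
      exact this
  obtain ⟨n₀, c, X, h1, h2, h3, h4⟩ := rlow' hex (fun s hs =>
    (cf_summ P (by linarith)).sub (dc_summ N b s))
  refine ⟨n₀, c, X, h1, h2, h3, fun s hs => ?_⟩
  have h5 := h4 s hs
  rw [LSeries_sub (cf_summ P (by linarith)) (dc_summ N b s), ← op_lseries P (by linarith),
    ← dp_lseries] at h5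
  exact h5

end Pool.Agent.L7h13.SP
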