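import Pool.Agent.L7h13.SP.Right

/-!
# Two-sided statements
-/

set_option autoImplicit false

open Complex Set Metric Polynomial

namespace Pool.Agent.L7h13.SP

open H370

lemma cj_iter (f : ℂ → ℂ) (k : ℕ) : iteratedDeriv k (cj f) = cj (iteratedDeriv k f) := by
  induction k with
  | zero => simp
  | succ k ih =>
    rw [iteratedDeriv_succ, iteratedDeriv_succ, ih]
    exact deriv_conj_conj (𝕜 := ℂ) (f := iteratedDeriv k f)

lemma cj_zeta : cj riemannZeta = riemannZeta := by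
  funext s
  unfold cj
  rw [riemannZeta_conj, Complex.conj_conj]

/-- the conjugate polynomial -/
noncomputable def cp (P : ℂ[X]) : ℂ[X] := P.map (starRingEnd ℂ)

lemma cp_ne {P : ℂ[X]} (hP : P ≠ 0) : cp P ≠ 0 :=
  (Polynomial.map_ne_zero_iff (starRingEnd ℂ).injective).2 hP

lemma op_cp (P : ℂ[X]) : Op (cp P) riemannZeta = cj (Op P riemannZeta) := by
  funext s
  unfold Op cp
  rw [Polynomial.natDegree_map_eq_of_injective (starRingEnd ℂ).injective]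
  unfold cj
  rw [map_sum]
  apply Finset.sum_congr rfl
  intro k _
  rw [Polynomial.coeff_map, map_mul]
  congr 1
  have h := cj_iter riemannZeta k
  rw [cj_zeta] at h
  have h2 := congrFun h s
  rw [h2]
  rfl

lemma dp_cj (N : ℕ) (b : ℕ → ℂ) : DP N (fun n => (starRingEnd ℂ) (b n)) = cj (DP N b) := by
  funext s
  unfold DP cj
  rw [map_sum]
  apply Finset.sum_congr rfl
  intro n _
  rw [map_mul]
  congr 1
  rw [← map_neg, Complex.cpow_conj _ _ (by rw [Complex.natCast_arg]; exact Real.pi_pos.ne),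
    Complex.conj_natCast, Complex.conj_conj]

lemma fr_cj (P : ℂ[X]) (N : ℕ) (b : ℕ → ℂ) :
    cj (Fr P N b) = Fr (cp P) N (fun n => (starRingEnd ℂ) (b n)) := by
  funext s
  unfold Fr
  rw [op_cp, dp_cj]
  unfold cj
  rw [map_sub]

lemma fr_an' (P : ℂ[X]) (N : ℕ) (b : ℕ → ℂ) {s : ℂ} (hs : s.im ≠ 0) : AnalyticAt ℂ (Fr P N b) s := by
  obtain ⟨M, hM⟩ := dp_good N b
  refine (op_analytic P ?_).sub (hM.1 s)
  have hopen : IsOpen {s : ℂ | s ≠ 1} := isOpen_ne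
  have : DifferentiableOn ℂ riemannZeta {s : ℂ | s ≠ 1} := fun s hs =>
    (differentiableAt_riemannZeta hs).differentiableWithinAt
  refine this.analyticAt (hopen.mem_nhds ?_)
  rintro rfl
  simp at hs

/-- few zeros in all far windows, above and below -/
def FewQ (f : ℂ → ℂ) (E : Set ℝ) (θ : ℝ) : Prop := ∃ T₀ : ℝ, ∀ T : ℝ, T₀ ≤ |T| →
  ∀ S : Finset ℂ, (∀ z ∈ S, z.re ∈ E ∧ |z.im - T| ≤ 1) →
    ∑ z ∈ S, (analyticOrderNatAt f z : ℝ) ≤ θ * Real.log |T|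

lemma few_up {f : ℂ → ℂ} {E : Set ℝ} {θ : ℝ} (h : FewQ f E θ) : FewU f E 1 θ := by
  obtain ⟨T₀, hT⟩ := h
  refine ⟨max T₀ 0, fun T hT' S hS => ?_⟩
  have h0 : 0 ≤ T := (le_max_right _ _).trans hT'
  have h1 := hT T (by rw [abs_of_nonneg h0]; exact (le_max_left _ _).trans hT') S hS
  rwa [abs_of_nonneg h0] at h1

lemma refl_eq (f : ℂ → ℂ) : (fun w => f (1 - w)) = fun w => f (1 + (-1) * w) := by
  funext w
  congr 1
  ring

lemma mult_refl {f : ℂ → ℂ} {z : ℂ} (hf : AnalyticAt ℂ f (1 - z)) :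
    mult (fun w => f (1 - w)) z = mult f (1 - z) := by
  have e1 : (1 : ℂ) + (-1) * z = 1 - z := by ring
  rw [refl_eq, mult_affine (by norm_num) (by rw [e1]; exact hf), e1]

/-- from both half planes -/
lemma few_of_upper {f : ℂ → ℂ} (hf : ∀ s : ℂ, s.im ≠ 0 → AnalyticAt ℂ f s) {E : Set ℝ} {θ : ℝ}
    (h1 : FewU f E 1 θ) (h2 : FewU (cj f) E 1 θ) : FewQ f E θ := by
  classical
  obtain ⟨T₁, hT1⟩ := h1
  obtain ⟨T₂, hT2⟩ := h2
  refine ⟨max (max T₁ T₂) 2, fun T hT S hS => ?_⟩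
  have f1 : T₁ ≤ |T| := ((le_max_left _ _).trans (le_max_left _ _)).trans hT
  have f2 : T₂ ≤ |T| := ((le_max_right _ _).trans (le_max_left _ _)).trans hT
  have f3 : 2 ≤ |T| := (le_max_right _ _).trans hT
  rcases le_or_gt 0 T with h | h
  · rw [abs_of_nonneg h] at *
    exact hT1 T f1 S hS
  · rw [abs_of_neg h] at *
    have h3 := hT2 (-T) f2 (S.image (starRingEnd ℂ)) (by
      intro z hz
      rw [Finset.mem_image] at hz
      obtain ⟨w, hw, rfl⟩ := hz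
      obtain ⟨h4, h5⟩ := hS w hw
      refine ⟨by simpa using h4, ?_⟩
      rw [Complex.conj_im]
      have : -w.im - -T = -(w.im - T) := by ring
      rw [this, abs_neg]
      exact h5)
    rw [Finset.sum_image (fun x _ y _ h => (starRingEnd ℂ).injective h)] at h3
    refine le_trans (le_of_eq ?_) h3
    apply Finset.sum_congr rfl
    intro z hz
    have h5 := abs_le.1 (hS z hz).2
    rw [mult_cj]
    · rw [Complex.conj_conj]; rfl
    · rw [Complex.conj_conj]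
      exact hf z (by intro h; linarith)

lemma few_of_left {f : ℂ → ℂ} (hf : ∀ s : ℂ, s.im ≠ 0 → AnalyticAt ℂ f s) {E E' : Set ℝ} {θ : ℝ}
    (hE : ∀ x, x ∈ E → 1 - x ∈ E') (h1 : FewU (fun w => f (1 - w)) E' 1 θ)
    (h2 : FewU (fun w => cj f (1 - w)) E' 1 θ) : FewQ f E θ := by
  classical
  obtain ⟨T₁, hT1⟩ := h1
  obtain ⟨T₂, hT2⟩ := h2
  refine ⟨max (max T₁ T₂) 2, fun T hT S hS => ?_⟩
  have f1 : T₁ ≤ |T| := ((le_max_left _ _).trans (le_max_left _ _)).trans hT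
  have f2 : T₂ ≤ |T| := ((le_max_right _ _).trans (le_max_left _ _)).trans hT
  have f3 : 2 ≤ |T| := (le_max_right _ _).trans hT
  rcases le_or_gt 0 T with h | h
  · -- upper half plane
    rw [abs_of_nonneg h] at *
    have h3 := hT2 T f2 (S.image (fun s => 1 - (starRingEnd ℂ) s)) (by
      intro z hz
      rw [Finset.mem_image] at hz
      obtain ⟨w, hw, rfl⟩ := hz
      obtain ⟨h4, h5⟩ := hS w hw
      refine ⟨by simpa using hE _ h4, ?_⟩
      rw [Complex.sub_im, Complex.one_im, Complex.conj_im]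
      have : 0 - -w.im - T = w.im - T := by ring
      rw [this]
      exact h5)
    rw [Finset.sum_image (fun x _ y _ h => (starRingEnd ℂ).injective (sub_right_injective h))] at h3
    refine le_trans (le_of_eq ?_) h3
    apply Finset.sum_congr rfl
    intro z hz
    have h5 := abs_le.1 (hS z hz).2
    have e1 : (1 : ℂ) - (1 - (starRingEnd ℂ) z) = (starRingEnd ℂ) z := by ring
    have hz1 : AnalyticAt ℂ f z := hf z (by intro h; linarith)
    have hz2 : AnalyticAt ℂ (cj f) ((starRingEnd ℂ) z) := by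
      apply cj_an
      rw [Complex.conj_conj]
      exact hz1
    rw [mult_refl (by rw [e1]; exact hz2), e1, mult_cj]
    · rw [Complex.conj_conj]; rfl
    · rw [Complex.conj_conj]; exact hz1
  · rw [abs_of_neg h] at *
    have h3 := hT1 (-T) f1 (S.image (fun s => 1 - s)) (by
      intro z hz
      rw [Finset.mem_image] at hz
      obtain ⟨w, hw, rfl⟩ := hz
      obtain ⟨h4, h5⟩ := hS w hw
      refine ⟨by simpa using hE _ h4, ?_⟩
      rw [Complex.sub_im, Complex.one_im]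
      have : 0 - w.im - -T = -(w.im - T) := by ring
      rw [this, abs_neg]
      exact h5)
    rw [Finset.sum_image (fun x _ y _ h => sub_right_injective h)] at h3
    refine le_trans (le_of_eq ?_) h3
    apply Finset.sum_congr rfl
    intro z hz
    have h5 := abs_le.1 (hS z hz).2
    have e1 : (1 : ℂ) - (1 - z) = z := by ring
    have hz1 : AnalyticAt ℂ f z := hf z (by intro h; linarith)
    rw [mult_refl (by rw [e1]; exact hz1), e1]
    rfl

lemma left_of_few {f : ℂ → ℂ} (hf : ∀ s : ℂ, s.im ≠ 0 → AnalyticAt ℂ f s) {E E' : Set ℝ} {θ : ℝ}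
    (hE : ∀ x, x ∈ E' → 1 - x ∈ E) (h : FewQ f E θ) : FewU (fun w => f (1 - w)) E' 1 θ := by
  classical
  obtain ⟨T₁, hT1⟩ := h
  refine ⟨max T₁ 2, fun T hT S hS => ?_⟩
  have f1 : T₁ ≤ T := (le_max_left _ _).trans hT
  have f3 : 2 ≤ T := (le_max_right _ _).trans hT
  have e0 : |(-T)| = T := by rw [abs_neg, abs_of_nonneg (by linarith)]
  have h3 := hT1 (-T) (by rw [e0]; exact f1) (S.image (fun s => 1 - s)) (by
    intro z hz
    rw [Finset.mem_image] at hz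
    obtain ⟨w, hw, rfl⟩ := hz
    obtain ⟨h4, h5⟩ := hS w hw
    refine ⟨by simpa using hE _ h4, ?_⟩
    rw [Complex.sub_im, Complex.one_im]
    have : 0 - w.im - -T = -(w.im - T) := by ring
    rw [this, abs_neg]
    exact h5)
  rw [Finset.sum_image (fun x _ y _ h => sub_right_injective h), e0] at h3
  refine le_trans (le_of_eq ?_) h3
  apply Finset.sum_congr rfl
  intro z hz
  have h5 := abs_le.1 (hS z hz).2
  have hz2 : AnalyticAt ℂ f (1 - z) := hf _ (by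
    rw [Complex.sub_im, Complex.one_im]; intro h; linarith)
  rw [mult_refl hz2]
  rfl

/-- the bound to the right of `σ₀` -/
def Bd (σ₀ : ℝ) : Prop := ∀ σ : ℝ, σ₀ < σ → ∀ ε : ℝ, 0 < ε → ∃ C : ℝ, ∀ t : ℝ, 1 ≤ |t| →
  ‖riemannZeta (σ + t * I)‖ ≤ C * |t| ^ ε

lemma norm_neg_t (σ t : ℝ) : ‖riemannZeta (σ + t * I)‖ = ‖riemannZeta (⟨σ, |t|⟩ : ℂ)‖ := by
  rcases abs_cases t with ⟨h, _⟩ | ⟨h, _⟩
  · rw [h]
    congr 2
    apply Complex.ext <;> simp
  · rw [h]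
    have e : (⟨σ, -t⟩ : ℂ) = (starRingEnd ℂ) (σ + t * I) := by
      apply Complex.ext <;> simp
    rw [e, riemannZeta_conj, Complex.norm_conj]

lemma exu_of_bd {σ₀ : ℝ} (h : Bd σ₀) {σ : ℝ} (hσ : σ₀ < σ) : Exu σ 0 := by
  intro ε hε
  obtain ⟨C, hC⟩ := h σ hσ (ε / 2) (by positivity)
  obtain ⟨T₀, hT0, hT⟩ := absorb C (ε := ε / 2) (by positivity)
  refine ⟨T₀, fun t ht => ?_⟩
  have ht0 : 0 < t := by linarith
  have h1 := hC t (by rw [abs_of_pos ht0]; linarith)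
  rw [norm_neg_t, abs_of_pos ht0] at h1
  refine h1.trans ?_
  calc C * t ^ (ε / 2) ≤ t ^ (ε / 2) * t ^ (ε / 2) := mul_le_mul_of_nonneg_right (hT t ht) (by positivity)
    _ = t ^ (0 + ε) := by rw [← Real.rpow_add ht0]; congr 1; ring

lemma bd_line {σ m : ℝ} (hm : 0 ≤ m) (h : Exu σ m) {ε : ℝ} (hε : 0 < ε) : ∃ C : ℝ, ∀ t : ℝ, 1 ≤ |t| →
    ‖riemannZeta (σ + t * I)‖ ≤ C * |t| ^ (m + ε) := by
  obtain ⟨T₀, hT⟩ := h ε hε
  have hcont : ContinuousOn (fun t : ℝ => riemannZeta (⟨σ, t⟩ : ℂ)) (Icc 1 (max T₀ 1)) := by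
    intro t ht
    have h1 : (⟨σ, t⟩ : ℂ) ≠ 1 := by
      intro h
      have := congrArg Complex.im h
      simp at this
      linarith [ht.1]
    have h2 := (differentiableAt_riemannZeta h1).continuousAt
    have h3 : ContinuousAt (fun t : ℝ => (⟨σ, t⟩ : ℂ)) t := by
      have : (fun t : ℝ => (⟨σ, t⟩ : ℂ)) = fun t : ℝ => (σ : ℂ) + t * I := by
        funext t
        apply Complex.ext <;> simp
      rw [this]
      fun_prop
    exact (ContinuousAt.comp (f := fun t : ℝ => (⟨σ, t⟩ : ℂ)) (g := riemannZeta) h2 h3).continuousWithinAt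
  obtain ⟨B, hB⟩ := isCompact_Icc.exists_bound_of_continuousOn hcont
  refine ⟨|B| + 1, fun t ht => ?_⟩
  rw [norm_neg_t]
  have h1 : 1 ≤ |t| ^ (m + ε) := Real.one_le_rpow ht (by linarith)
  rcases le_or_gt T₀ |t| with h2 | h2
  · have h3 := hT |t| h2
    nlinarith [abs_nonneg B]
  · have h3 := hB |t| ⟨ht, (le_max_left _ _).trans' h2.le⟩
    nlinarith [abs_nonneg B, le_abs_self B]

lemma bd_of_exu {σ₀ : ℝ} (h : ∀ σ : ℝ, σ₀ < σ → σ ≤ 1 → Exu σ 0) : Bd σ₀ := by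
  intro σ hσ ε hε
  have key : Exu σ 0 := by
    rcases le_or_gt σ 1 with h2 | h2
    · exact h σ hσ h2
    · intro ε hε
      obtain ⟨A, hA1, hA⟩ := Pool.Agent.Y757.LS.zeta_bounds (a := σ) h2
      obtain ⟨T₀, -, hT⟩ := absorb A hε
      refine ⟨T₀, fun t ht => ?_⟩
      rw [zero_add]
      exact ((hA ⟨σ, t⟩ le_rfl).1).trans (hT t ht)
  have := bd_line le_rfl key hε
  simpa using this

theorem right_few {P : ℂ[X]} (hP : P ≠ 0) (N : ℕ) (b : ℕ → ℂ) {σ₀ : ℝ} (h0 : 1 / 2 ≤ σ₀) (h1 : σ₀ < 1)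
    (h : Bd σ₀) {δ θ : ℝ} (hδ : 0 < δ) (hθ : 0 < θ) : FewQ (Fr P N b) (Ici (σ₀ + δ)) θ := by
  have key : ∀ (Q : ℂ[X]) (b : ℕ → ℂ), Q ≠ 0 → FewU (Fr Q N b) (Ici (σ₀ + δ)) 1 θ := by
    intro Q b hQ
    set δ' := min δ (min (1 / 10) ((1 - σ₀) / 2)) with hδ'
    have h2 : 0 < δ' := lt_min hδ (lt_min (by norm_num) (by linarith))
    have h3 : δ' ≤ δ := min_le_left _ _
    have h4 : δ' ≤ 1 / 10 := (min_le_right _ _).trans (min_le_left _ _)
    have h5 : δ' ≤ (1 - σ₀) / 2 := (min_le_right _ _).trans (min_le_right _ _)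
    obtain ⟨c, hc, hcov⟩ := FewU.cover (f := Fr Q N b) (E := Ici (σ₀ + δ')) (y := δ' / 4)
      (by positivity) 1
    have h6 := right_jensen hQ N b h0 (fun σ h7 _ => exu_of_bd h h7) h2 h4 (by linarith)
      (ε := θ / c) (by positivity)
    have h7 := hcov _ (by positivity) h6
    rw [mul_div_cancel₀ _ hc.ne'] at h7
    exact h7.mono (fun x hx => by
      simp only [mem_Ici] at hx ⊢; linarith) le_rfl
  refine few_of_upper (fun s hs => fr_an' P N b hs) (key P b hP) ?_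
  rw [fr_cj]
  exact key _ _ (cp_ne hP)

theorem left_few {P : ℂ[X]} (hP : P ≠ 0) (N : ℕ) (b : ℕ → ℂ) {σ₀ : ℝ} (h0 : 1 / 2 ≤ σ₀) (h1 : σ₀ < 1)
    (h : Bd σ₀) {δ θ : ℝ} (hδ : 0 < δ) (hθ : 0 < θ) : FewQ (Fr P N b) (Icc (-1) (1 - σ₀ - δ)) θ := by
  have key : ∀ (Q : ℂ[X]) (b : ℕ → ℂ), Q ≠ 0 → FewU (fun w => Fr Q N b (1 - w)) (Icc (σ₀ + δ) 2) 1 θ := by
    intro Q b hQ
    obtain ⟨M, hM⟩ := dp_good N b
    set δ' := min δ (min (1 / 10) ((1 - σ₀) / 2)) with hδ'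
    have h2 : 0 < δ' := lt_min hδ (lt_min (by norm_num) (by linarith))
    have h3 : δ' ≤ δ := min_le_left _ _
    have h4 : δ' ≤ 1 / 10 := (min_le_right _ _).trans (min_le_left _ _)
    have h5 : δ' ≤ (1 - σ₀) / 2 := (min_le_right _ _).trans (min_le_right _ _)
    obtain ⟨c, hc, hcov⟩ := FewU.cover (f := Fl Q (DP N b)) (E := Icc (σ₀ + δ') 2) (y := δ' / 4)
      (by positivity) 1
    have h6 := left_jensen hQ hM h0 (fun σ h7 _ => exu_of_bd h h7) h2 h4 (by linarith)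
      (ε := θ / c) (by positivity)
    have h7 := hcov _ (by positivity) h6
    rw [mul_div_cancel₀ _ hc.ne'] at h7
    exact h7.mono (fun x hx => by
      simp only [mem_Icc] at hx ⊢; exact ⟨by linarith [hx.1], hx.2⟩) le_rfl
  refine few_of_left (fun s hs => fr_an' P N b hs) (E' := Icc (σ₀ + δ) 2) (fun x hx => by
      simp only [mem_Icc] at hx ⊢; constructor <;> linarith [hx.1, hx.2]) (key P b hP) ?_
  rw [fr_cj]
  exact key _ _ (cp_ne hP)

theorem right_exu {P : ℂ[X]} (hP : P ≠ 0) (N : ℕ) (b : ℕ → ℂ) {σ₀ : ℝ} (h0 : 1 / 2 ≤ σ₀) {σ : ℝ}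
    (hσ : σ₀ < σ) (hσ1 : σ ≤ 1) {κ : ℝ} (hκ : 0 < κ) :
    ∃ θ : ℝ, 0 < θ ∧ (FewQ (Fr P N b) (Ici σ₀) θ → Exu σ κ) := by
  obtain ⟨θ, hθ, h⟩ := right_back hP N b h0 hσ hσ1 hκ
  exact ⟨θ, hθ, fun h1 => h (few_up h1)⟩

theorem left_exu {P : ℂ[X]} (hP : P ≠ 0) (N : ℕ) (b : ℕ → ℂ) {σ₀ : ℝ} (h0 : 1 / 2 ≤ σ₀) {σ : ℝ}
    (hσ : σ₀ < σ) (hσ1 : σ ≤ 1) {κ : ℝ} (hκ : 0 < κ) :
    ∃ θ : ℝ, 0 < θ ∧ (FewQ (Fr P N b) (Icc (-1) (1 - σ₀)) θ → Exu σ κ) := by
  obtain ⟨M, hM⟩ := dp_good N b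
  set κ' : ℝ := min (κ / 2) (1 / 4) with hκ'
  have h1 : 0 < κ' := lt_min (by positivity) (by norm_num)
  have h2 : κ' ≤ 1 / 4 := min_le_right _ _
  have h3 : κ' ≤ κ / 2 := min_le_left _ _
  obtain ⟨θ, hθ, h⟩ := left_back hP hM h0 hσ hσ1 h1 (by linarith)
  refine ⟨θ, hθ, fun h4 => (h ?_).mono (by linarith)⟩
  exact left_of_few (fun s hs => fr_an' P N b hs) (fun x hx => by
      simp only [mem_Icc] at hx ⊢; constructor <;> linarith [hx.1, hx.2]) h4

/-- one side, quantitative -/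
theorem quant {P : ℂ[X]} (hP : P ≠ 0) (N : ℕ) (b : ℕ → ℂ) {σ₀ : ℝ} (h0 : 1 / 2 ≤ σ₀) (h1 : σ₀ < 1)
    {κ : ℝ} (hκ : 0 < κ) : ∃ δ θ : ℝ, 0 < δ ∧ 0 < θ ∧
    (FewQ (Fr P N b) (Ici (σ₀ + δ)) θ ∨ FewQ (Fr P N b) (Icc (-1) (1 - σ₀ - δ)) θ →
      ∃ C : ℝ, ∀ t : ℝ, 1 ≤ |t| → ‖riemannZeta (σ₀ + t * I)‖ ≤ C * |t| ^ κ) := by
  set δ : ℝ := min (κ / 2) ((1 - σ₀) / 2) with hδ
  have hδ0 : 0 < δ := lt_min (by positivity) (by linarith)
  have hδ1 : δ ≤ κ / 2 := min_le_left _ _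
  have hδ2 : δ ≤ (1 - σ₀) / 2 := min_le_right _ _
  obtain ⟨θ₁, hθ1, H1⟩ := right_exu hP N b (σ₀ := σ₀ + δ) (σ := σ₀ + 2 * δ) (by linarith) (by linarith)
    (by linarith) (κ := κ / 4) (by positivity)
  obtain ⟨θ₂, hθ2, H2⟩ := left_exu hP N b (σ₀ := σ₀ + δ) (σ := σ₀ + 2 * δ) (by linarith) (by linarith)
    (by linarith) (κ := κ / 4) (by positivity)
  refine ⟨δ, min θ₁ θ₂, hδ0, lt_min hθ1 hθ2, fun h => ?_⟩
  have hmono : ∀ (E : Set ℝ) (θ θ' : ℝ), θ ≤ θ' → FewQ (Fr P N b) E θ → FewQ (Fr P N b) E θ' := by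
    intro E θ θ' h3 ⟨T₀, hT⟩
    refine ⟨max T₀ 1, fun T hT' S hS => (hT T ((le_max_left _ _).trans hT') S hS).trans ?_⟩
    apply mul_le_mul_of_nonneg_right h3 (Real.log_nonneg ((le_max_right _ _).trans hT'))
  have key : Exu (σ₀ + 2 * δ) (κ / 4) := by
    rcases h with h | h
    · exact H1 (hmono _ _ _ (min_le_left _ _) h)
    · have e0 : 1 - σ₀ - δ = 1 - (σ₀ + δ) := by ring
      rw [e0] at h
      exact H2 (hmono _ _ _ (min_le_right _ _) h)
  have h4 := key.left' (σ' := σ₀) (by linarith) (by linarith) (by linarith) (by linarith)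
  have h5 : Exu σ₀ (3 * κ / 4) := h4.mono (by linarith)
  have h6 := bd_line (by positivity) h5 (ε := κ / 4) (by positivity)
  have e : 3 * κ / 4 + κ / 4 = κ := by ring
  rwa [e] at h6

theorem right_iff {P : ℂ[X]} (hP : P ≠ 0) (N : ℕ) (b : ℕ → ℂ) {σ₀ : ℝ} (h0 : 1 / 2 ≤ σ₀) (h1 : σ₀ < 1) :
    Bd σ₀ ↔ ∀ δ θ : ℝ, 0 < δ → 0 < θ → FewQ (Fr P N b) (Ici (σ₀ + δ)) θ := by
  constructor
  · intro h δ θ hδ hθ
    exact right_few hP N b h0 h1 h hδ hθ
  · intro h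
    refine bd_of_exu fun σ hσ hσ1 => Exu.closed fun m hm => ?_
    obtain ⟨θ, hθ, H⟩ := right_exu hP N b (σ₀ := (σ₀ + σ) / 2) (by linarith) (σ := σ) (by linarith) hσ1
      hm
    apply H
    have := h ((σ - σ₀) / 2) θ (by linarith) hθ
    rwa [show σ₀ + (σ - σ₀) / 2 = (σ₀ + σ) / 2 by ring] at this

theorem left_iff {P : ℂ[X]} (hP : P ≠ 0) (N : ℕ) (b : ℕ → ℂ) {σ₀ : ℝ} (h0 : 1 / 2 ≤ σ₀) (h1 : σ₀ < 1) :
    Bd σ₀ ↔ ∀ δ θ : ℝ, 0 < δ → 0 < θ → FewQ (Fr P N b) (Icc (-1) (1 - σ₀ - δ)) θ := by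
  constructor
  · intro h δ θ hδ hθ
    exact left_few hP N b h0 h1 h hδ hθ
  · intro h
    refine bd_of_exu fun σ hσ hσ1 => Exu.closed fun m hm => ?_
    obtain ⟨θ, hθ, H⟩ := left_exu hP N b (σ₀ := (σ₀ + σ) / 2) (by linarith) (σ := σ) (by linarith) hσ1
      hm
    apply H
    have := h ((σ - σ₀) / 2) θ (by linarith) hθ
    rwa [show 1 - σ₀ - (σ - σ₀) / 2 = 1 - (σ₀ + σ) / 2 by ring] at this

/-- the Lindelöf hypothesis -/
theorem lh_iff : (∀ ε : ℝ, 0 < ε → ∃ C : ℝ, ∀ t : ℝ, ‖riemannZeta (1 / 2 + t * I)‖ ≤ C * (1 + |t|) ^ ε) ↔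
    Bd (1 / 2) := by
  constructor
  · intro h
    have h0 : Exu (1 / 2) 0 := by
      intro ε hε
      obtain ⟨C, hC⟩ := h (ε / 2) (by positivity)
      obtain ⟨T₁, hT1, hT'⟩ := absorb |C * 2 ^ (ε / 2)| (ε := ε / 2) (by positivity)
      refine ⟨T₁, fun t ht => ?_⟩
      have ht0 : 0 < t := by linarith
      have h1 := hC t
      have e1 : ((1:ℂ) / 2 + t * I) = (((1 / 2 : ℝ) : ℂ) + t * I) := by norm_num
      rw [e1, norm_neg_t, abs_of_pos ht0] at h1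
      refine h1.trans ?_
      have hC0 : 0 ≤ C := by
        by_contra hcon
        push Not at hcon
        have h2 := (norm_nonneg _).trans h1
        have h3 : 0 < (1 + t) ^ (ε / 2) := by positivity
        nlinarith
      calc C * (1 + t) ^ (ε / 2) ≤ C * (2 ^ (ε / 2) * t ^ (ε / 2)) := by
            apply mul_le_mul_of_nonneg_left _ hC0
            rw [← Real.mul_rpow (by norm_num) ht0.le]
            exact Real.rpow_le_rpow (by linarith) (by linarith) (by positivity)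
        _ = C * 2 ^ (ε / 2) * t ^ (ε / 2) := by ring
        _ ≤ t ^ (ε / 2) * t ^ (ε / 2) := mul_le_mul_of_nonneg_right
            ((le_abs_self _).trans (hT' t ht)) (by positivity)
        _ = t ^ (0 + ε) := by rw [← Real.rpow_add ht0]; congr 1; ring
    apply bd_of_exu
    intro σ h1 h2 ε hε
    obtain ⟨T₀, hT0, hT⟩ := h0.right le_rfl (by norm_num) (by norm_num) hε
    exact ⟨T₀, fun t ht => hT ⟨σ, t⟩ h1.le (by simp only; linarith) ht⟩
  · intro h ε hε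
    have h0 : Exu (1 / 2) 0 := by
      apply Exu.closed
      intro m hm
      set σ : ℝ := min (1 / 2 + 2 * m) 1 with hσ
      have h1 : 1 / 2 < σ := lt_min (by linarith) (by norm_num)
      have h2 : σ ≤ 1 := min_le_right _ _
      have h3 : σ ≤ 1 / 2 + 2 * m := min_le_left _ _
      have h4 := (exu_of_bd h h1).left' h1 (by linarith) (σ' := 1 / 2) (by linarith) h1.le
      exact h4.mono (by linarith)
    obtain ⟨C, hC⟩ := bd_line le_rfl h0 hε
    rw [zero_add] at hC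
    have hcont : Continuous (fun t : ℝ => riemannZeta (1 / 2 + (t : ℂ) * I)) := by
      rw [continuous_iff_continuousAt]
      intro t
      have h : (1 / 2 + (t : ℂ) * I) ≠ 1 := by
        intro h
        have := congrArg Complex.re h
        norm_num at this
      have h1 := (differentiableAt_riemannZeta h).continuousAt
      have h2 : ContinuousAt (fun t : ℝ => (1 / 2 + (t : ℂ) * I)) t := by fun_prop
      exact ContinuousAt.comp (f := fun t : ℝ => (1 / 2 + (t : ℂ) * I)) (g := riemannZeta) h1 h2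
    obtain ⟨B, hB⟩ := (isCompact_Icc (a := (-1 : ℝ)) (b := 1)).exists_bound_of_continuousOn
      hcont.continuousOn
    refine ⟨|C| + |B|, fun t => ?_⟩
    have h1 : 1 ≤ (1 + |t|) ^ ε := Real.one_le_rpow (by linarith [abs_nonneg t]) hε.le
    rcases le_or_gt 1 |t| with h2 | h2
    · have h3 := hC t h2
      have e1 : ((1:ℂ) / 2 + t * I) = (((1 / 2 : ℝ) : ℂ) + t * I) := by norm_num
      rw [e1]
      have h4 : |t| ^ ε ≤ (1 + |t|) ^ ε := Real.rpow_le_rpow (abs_nonneg t) (by linarith) hε.le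
      have h5 : 0 ≤ |t| ^ ε := by positivity
      calc ‖riemannZeta (((1 / 2 : ℝ) : ℂ) + t * I)‖ ≤ C * |t| ^ ε := h3
        _ ≤ |C| * |t| ^ ε := mul_le_mul_of_nonneg_right (le_abs_self C) h5
        _ ≤ |C| * (1 + |t|) ^ ε := mul_le_mul_of_nonneg_left h4 (abs_nonneg C)
        _ ≤ _ := mul_le_mul_of_nonneg_right (by linarith [abs_nonneg B]) (by positivity)
    · have h3 := hB t (abs_le.1 h2.le)
      calc ‖riemannZeta (1 / 2 + (t : ℂ) * I)‖ ≤ B := h3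
        _ ≤ |C| + |B| := by linarith [abs_nonneg C, le_abs_self B]
        _ ≤ _ := le_mul_of_one_le_right (by positivity) h1

end Pool.Agent.L7h13.SP
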