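import Mathlib

/-!
# Linear differential operators with constant coefficients
-/

set_option autoImplicit false

open Complex Metric Set Filter Topology Polynomial

namespace Pool.Agent.L7h13.SP

/-- `P(d/ds) f` at `s` -/
noncomputable def Op (P : ℂ[X]) (f : ℂ → ℂ) (s : ℂ) : ℂ :=
  ∑ k ∈ Finset.range (P.natDegree + 1), P.coeff k * iteratedDeriv k f s

lemma op_analytic (P : ℂ[X]) {f : ℂ → ℂ} {s : ℂ} (hf : AnalyticAt ℂ f s) :
    AnalyticAt ℂ (Op P f) s := by
  unfold Op
  apply Finset.analyticAt_fun_sum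
  intro k _
  refine analyticAt_const.mul ?_
  have h := hf.iterated_deriv k
  rw [← iteratedDeriv_eq_iterate] at h
  exact h

lemma op_le (P : ℂ[X]) {r : ℝ} (hr : 0 < r) : ∃ C : ℝ, 1 ≤ C ∧ ∀ (f : ℂ → ℂ) (s : ℂ) (M : ℝ),
    0 ≤ M → DiffContOnCl ℂ f (ball s r) → (∀ z ∈ sphere s r, ‖f z‖ ≤ M) → ‖Op P f s‖ ≤ C * M := by
  refine ⟨1 + ∑ k ∈ Finset.range (P.natDegree + 1), ‖P.coeff k‖ * (k.factorial / r ^ k), ?_, ?_⟩
  · have : 0 ≤ ∑ k ∈ Finset.range (P.natDegree + 1), ‖P.coeff k‖ * (k.factorial / r ^ k) :=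
      Finset.sum_nonneg fun k _ => by positivity
    linarith
  · intro f s M hM hf hb
    unfold Op
    refine (norm_sum_le _ _).trans ?_
    rw [add_mul, one_mul, Finset.sum_mul]
    refine le_trans (Finset.sum_le_sum fun k _ => ?_) (le_add_of_nonneg_left hM)
    rw [norm_mul, mul_assoc]
    refine mul_le_mul_of_nonneg_left ?_ (norm_nonneg _)
    have := Complex.norm_iteratedDeriv_le_of_forall_mem_sphere_norm_le k hr hf hb
    refine this.trans (le_of_eq ?_)
    ring

lemma iter_le {k : ℕ} {r M : ℝ} (hr : 0 < r) {f : ℂ → ℂ} {s : ℂ} (hf : DiffContOnCl ℂ f (ball s r))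
    (hb : ∀ z ∈ sphere s r, ‖f z‖ ≤ M) : ‖iteratedDeriv k f s‖ ≤ k.factorial / r ^ k * M := by
  have := Complex.norm_iteratedDeriv_le_of_forall_mem_sphere_norm_le k hr hf hb
  refine this.trans (le_of_eq ?_)
  ring

/-- a solution of an inhomogeneous linear equation, along a horizontal segment, to the left -/
lemma ode (P : ℂ[X]) (hP : P ≠ 0) (B : ℝ) : ∃ C : ℝ, 1 ≤ C ∧ ∀ (Y : ℂ → ℂ) (a : ℂ) (x M : ℝ),
    0 ≤ x → x ≤ B → 0 ≤ M → (∀ u : ℝ, 0 ≤ u → u ≤ x → AnalyticAt ℂ Y (a - u)) →
    (∀ j : ℕ, j < P.natDegree → ‖iteratedDeriv j Y a‖ ≤ M) →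
    (∀ u : ℝ, 0 ≤ u → u ≤ x → ‖Op P Y (a - u)‖ ≤ M) → ‖Y (a - x)‖ ≤ C * M := by
  set d := P.natDegree with hd
  have hlc : P.leadingCoeff ≠ 0 := leadingCoeff_ne_zero.2 hP
  have hlc0 : 0 < ‖P.leadingCoeff‖ := norm_pos_iff.2 hlc
  rcases Nat.eq_zero_or_pos d with h0 | h0
  · refine ⟨1 + 1 / ‖P.leadingCoeff‖, by
      have : 0 < 1 / ‖P.leadingCoeff‖ := by positivity
      linarith, fun Y a x M hx hxB hM hY _ hO => ?_⟩
    have h1 := hO x hx le_rfl
    have h2 : Op P Y (a - x) = P.leadingCoeff * Y (a - x) := by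
      unfold Op
      rw [← hd, h0]
      simp [Polynomial.leadingCoeff, ← hd, h0]
    rw [h2, norm_mul] at h1
    have h3 : ‖Y (a - x)‖ ≤ 1 / ‖P.leadingCoeff‖ * M := by
      rw [one_div, inv_mul_eq_div, le_div_iff₀ hlc0]
      linarith
    linarith
  · -- constants
    set S : ℝ := ∑ k ∈ Finset.range d, ‖P.coeff k‖ with hS
    have hS0 : 0 ≤ S := Finset.sum_nonneg fun k _ => norm_nonneg _
    set K : ℝ := 1 + S / ‖P.leadingCoeff‖ with hK
    have hK0 : 0 < K := by positivity
    set E : ℝ := 1 / ‖P.leadingCoeff‖ with hE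
    have hE0 : 0 < E := by positivity
    refine ⟨max 1 (Real.exp (K * |B|) + E / K * (Real.exp (K * |B|) - 1)), le_max_left _ _, ?_⟩
    intro Y a x M hx hxB hM hY hj hO
    set f : ℝ → (Fin d → ℂ) := fun u j => iteratedDeriv j Y (a - u) with hf
    set f' : ℝ → (Fin d → ℂ) := fun u j => -(iteratedDeriv (j + 1) Y (a - u)) with hf'
    have hder : ∀ u : ℝ, 0 ≤ u → u ≤ x → HasDerivAt f (f' u) u := by
      intro u hu0 hux
      rw [hasDerivAt_pi]
      intro j
      have h1 : AnalyticAt ℂ (iteratedDeriv j Y) (a - u) := by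
        have h := (hY u hu0 hux).iterated_deriv j
        rwa [← iteratedDeriv_eq_iterate] at h
      have h2 : HasDerivAt (iteratedDeriv j Y) (iteratedDeriv (j + 1) Y (a - u)) (a - u) := by
        rw [iteratedDeriv_succ]
        exact h1.differentiableAt.hasDerivAt
      have h3 : HasDerivAt (fun v : ℝ => a - (v : ℂ)) (-1) u := by
        simpa using (Complex.ofRealCLM.hasDerivAt (x := u)).const_sub a
      have h4 := HasDerivAt.comp_of_eq u h2 h3 rfl
      have h5 : HasDerivAt (fun v : ℝ => iteratedDeriv j Y (a - (v : ℂ)))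
          (-(iteratedDeriv (j + 1) Y (a - u))) u := by
        have e : iteratedDeriv (j + 1) Y (a - u) * (-1) = -(iteratedDeriv (j + 1) Y (a - u)) := by ring
        rw [← e]
        exact h4
      exact h5
    have hbound : ∀ u ∈ Ico (0:ℝ) x, ‖f' u‖ ≤ K * ‖f u‖ + E * M := by
      intro u hu
      have hEM : 0 ≤ E * M := by positivity
      have hcomp : ∀ j : ℕ, j < d → ‖iteratedDeriv j Y (a - u)‖ ≤ ‖f u‖ := fun j hjd =>
        norm_le_pi_norm (f u) ⟨j, hjd⟩
      rw [pi_norm_le_iff_of_nonneg (by positivity)]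
      intro j
      simp only [hf', norm_neg]
      rcases Nat.lt_or_ge ((j : ℕ) + 1) d with h1 | h1
      · have h2 := hcomp _ h1
        have h3 : 1 * ‖f u‖ ≤ K * ‖f u‖ := by
          apply mul_le_mul_of_nonneg_right _ (norm_nonneg _)
          have : 0 ≤ S / ‖P.leadingCoeff‖ := by positivity
          linarith
        linarith
      · have h2 : (j : ℕ) + 1 = d := by
          have := j.2
          omega
        rw [h2]
        have h3 := hO u hu.1 hu.2.le
        unfold Op at h3
        rw [← hd, Finset.sum_range_succ] at h3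
        have h4 : ‖∑ k ∈ Finset.range d, P.coeff k * iteratedDeriv k Y (a - u)‖ ≤ S * ‖f u‖ := by
          refine (norm_sum_le _ _).trans ?_
          rw [hS, Finset.sum_mul]
          apply Finset.sum_le_sum
          intro k hk
          rw [norm_mul]
          exact mul_le_mul_of_nonneg_left (hcomp k (Finset.mem_range.1 hk)) (norm_nonneg _)
        have h5 : P.coeff d = P.leadingCoeff := rfl
        rw [h5] at h3
        have h6 : ‖P.leadingCoeff * iteratedDeriv d Y (a - u)‖ ≤ M + S * ‖f u‖ := by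
          set A := ∑ k ∈ Finset.range d, P.coeff k * iteratedDeriv k Y (a - u)
          set B' := P.leadingCoeff * iteratedDeriv d Y (a - u)
          have : B' = (A + B') - A := by ring
          rw [this]
          refine (norm_sub_le _ _).trans ?_
          linarith
        rw [norm_mul] at h6
        have h7 : ‖iteratedDeriv d Y (a - u)‖ ≤ (M + S * ‖f u‖) / ‖P.leadingCoeff‖ := by
          rw [le_div_iff₀ hlc0]
          linarith
        refine h7.trans ?_
        have h8 : (M + S * ‖f u‖) / ‖P.leadingCoeff‖ = E * M + S / ‖P.leadingCoeff‖ * ‖f u‖ := by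
          rw [hE]; ring
        rw [h8, hK]
        nlinarith [norm_nonneg (f u)]
    have hcont : ContinuousOn f (Icc 0 x) := fun u hu =>
      (hder u hu.1 hu.2).continuousAt.continuousWithinAt
    have h0' : ‖f 0‖ ≤ M := by
      rw [pi_norm_le_iff_of_nonneg hM]
      intro j
      simp only [hf]
      have := hj j j.2
      simpa using this
    have key := norm_le_gronwallBound_of_norm_deriv_right_le (f := f) (f' := f') (δ := M) (K := K)
      (ε := E * M) (a := 0) (b := x) hcont
      (fun u hu => (hder u hu.1 hu.2.le).hasDerivWithinAt) h0' hbound x ⟨hx, le_rfl⟩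
    rw [sub_zero, gronwallBound_of_K_ne_0 hK0.ne'] at key
    have h1 : ‖Y (a - x)‖ ≤ ‖f x‖ := by
      have := norm_le_pi_norm (f x) ⟨0, h0⟩
      simpa [hf] using this
    have h2 : Real.exp (K * x) ≤ Real.exp (K * |B|) := by
      apply Real.exp_le_exp.2
      exact mul_le_mul_of_nonneg_left (hxB.trans (le_abs_self B)) hK0.le
    calc ‖Y (a - x)‖ ≤ M * Real.exp (K * x) + E * M / K * (Real.exp (K * x) - 1) := h1.trans key
      _ ≤ M * Real.exp (K * |B|) + E * M / K * (Real.exp (K * |B|) - 1) := by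
          gcongr
      _ = (Real.exp (K * |B|) + E / K * (Real.exp (K * |B|) - 1)) * M := by ring
      _ ≤ _ := mul_le_mul_of_nonneg_right (le_max_right _ _) hM

/-- the derivatives of `exp (-l u) H u` for large `l` -/
lemma expderiv (k : ℕ) {r : ℝ} (hr : 0 < r) : ∃ C : ℝ, 0 ≤ C ∧ ∀ (l M : ℝ) (H : ℂ → ℂ), 1 ≤ l →
    2 / r ≤ l → 0 ≤ M → AnalyticOnNhd ℂ H (closedBall 0 r) → (∀ u ∈ closedBall (0:ℂ) r, ‖H u‖ ≤ M) →
    ‖iteratedDeriv k (fun u => Complex.exp (-(l : ℂ) * u) * H u) 0 - (-(l:ℂ)) ^ k * H 0‖ ≤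
      C * M * l ^ k / l := by
  refine ⟨k.factorial * Real.exp 1 * (2 / r), by positivity, fun l M H hl hlr hM hH hb => ?_⟩
  have hl0 : 0 < l := by linarith
  have h1l : 1 / l ≤ r / 2 := by
    rw [div_le_iff₀ hl0]
    rw [div_le_iff₀ hr] at hlr
    linarith
  set G : ℂ → ℂ := fun u => Complex.exp (-(l : ℂ) * u) * (H u - H 0) with hG
  have hsplit : (fun u => Complex.exp (-(l : ℂ) * u) * H u) =
      fun u => Complex.exp (-(l : ℂ) * u) * H 0 + G u := by
    funext u
    simp only [hG]
    ring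
  have h0r : (0 : ℂ) ∈ closedBall (0 : ℂ) r := mem_closedBall_self hr.le
  have hHa : AnalyticAt ℂ H 0 := hH 0 h0r
  have hGa : AnalyticAt ℂ G 0 := by
    have : AnalyticAt ℂ (fun u : ℂ => Complex.exp (-(l : ℂ) * u)) 0 := by fun_prop
    exact this.mul (hHa.sub analyticAt_const)
  have hEa : AnalyticAt ℂ (fun u : ℂ => Complex.exp (-(l : ℂ) * u) * H 0) 0 := by fun_prop
  have e1 : iteratedDeriv k (fun u => Complex.exp (-(l : ℂ) * u) * H 0) 0 = (-(l:ℂ)) ^ k * H 0 := by
    have h2 : (fun u => Complex.exp (-(l : ℂ) * u) * H 0) =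
        fun u => H 0 * Complex.exp (-(l : ℂ) * u) := by
      funext u; ring
    rw [h2, iteratedDeriv_const_mul_field, iteratedDeriv_cexp_const_mul]
    simp
    ring
  have e2 : iteratedDeriv k (fun u => Complex.exp (-(l : ℂ) * u) * H 0 + G u) 0 =
      iteratedDeriv k (fun u => Complex.exp (-(l : ℂ) * u) * H 0) 0 + iteratedDeriv k G 0 := by
    have := iteratedDeriv_add (n := k) (x := (0:ℂ)) hEa.contDiffAt hGa.contDiffAt
    exact this
  rw [hsplit, e2, e1, add_sub_cancel_left]
  -- Lipschitz bound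
  have hsub : ∀ y : ℂ, ‖y‖ ≤ r → y ∈ closedBall (0 : ℂ) r := fun y hy => by
    rwa [mem_closedBall, dist_zero_right]
  have hlip : ∀ u : ℂ, ‖u‖ ≤ 1 / l → ‖H u - H 0‖ ≤ M / (r / 2) * ‖u‖ := by
    intro u hu
    have hdiff : ∀ x ∈ closedBall (0:ℂ) (r / 2), ‖deriv H x‖ ≤ M / (r / 2) := by
      intro x hx
      rw [mem_closedBall, dist_zero_right] at hx
      refine Complex.norm_deriv_le_of_forall_mem_sphere_norm_le (by positivity) ?_ ?_
      · refine DifferentiableOn.diffContOnCl ?_
        rw [closure_ball _ (by positivity : r / 2 ≠ 0)]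
        intro y hy
        rw [mem_closedBall, dist_eq_norm] at hy
        have h3 : ‖y‖ ≤ r := by
          calc ‖y‖ = ‖(y - x) + x‖ := by congr 1; ring
            _ ≤ ‖y - x‖ + ‖x‖ := norm_add_le _ _
            _ ≤ r := by linarith
        exact (hH y (hsub y h3)).differentiableAt.differentiableWithinAt
      · intro y hy
        rw [mem_sphere, dist_eq_norm] at hy
        apply hb
        apply hsub
        calc ‖y‖ = ‖(y - x) + x‖ := by congr 1; ring
            _ ≤ ‖y - x‖ + ‖x‖ := norm_add_le _ _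
            _ ≤ r := by linarith
    have h2 := (convex_closedBall (0:ℂ) (r / 2)).norm_image_sub_le_of_norm_deriv_le (𝕜 := ℂ) (f := H)
      (C := M / (r / 2)) (x := 0) (y := u) (fun x hx => by
        rw [mem_closedBall, dist_zero_right] at hx
        exact (hH x (hsub x (by linarith))).differentiableAt) hdiff
      (mem_closedBall_self (by positivity)) (by
        rw [mem_closedBall, dist_zero_right]
        linarith)
    rwa [sub_zero] at h2
  have h1l0 : 0 < 1 / l := by positivity
  have hGd : DiffContOnCl ℂ G (ball 0 (1 / l)) := by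
    refine DifferentiableOn.diffContOnCl ?_
    rw [closure_ball _ h1l0.ne']
    intro y hy
    rw [mem_closedBall, dist_zero_right] at hy
    have h3 := (hH y (hsub y (by linarith))).differentiableAt
    have h4 : DifferentiableAt ℂ (fun u : ℂ => Complex.exp (-(l : ℂ) * u)) y := by fun_prop
    exact (h4.mul (h3.sub_const _)).differentiableWithinAt
  have hGb : ∀ z ∈ sphere (0:ℂ) (1 / l), ‖G z‖ ≤ Real.exp 1 * (M / (r / 2) * (1 / l)) := by
    intro z hz
    rw [mem_sphere, dist_zero_right] at hz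
    simp only [hG]
    rw [norm_mul]
    apply mul_le_mul _ ((hlip z hz.le).trans (by rw [hz])) (norm_nonneg _) (Real.exp_pos _).le
    rw [Complex.norm_exp]
    apply Real.exp_le_exp.2
    have h3 : (-(l : ℂ) * z).re = -(l * z.re) := by simp
    rw [h3]
    have h4 := Complex.abs_re_le_norm z
    rw [hz] at h4
    have h5 := neg_abs_le z.re
    have h6 : l * -(1 / l) ≤ l * z.re := mul_le_mul_of_nonneg_left (by linarith) hl0.le
    have h7 : l * -(1 / l) = -1 := by field_simp
    linarith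
  have key := iter_le (k := k) h1l0 hGd hGb
  refine key.trans (le_of_eq ?_)
  rw [one_div, inv_pow]
  field_simp

end Pool.Agent.L7h13.SP
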