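import Pool.Agent.L7h13.SP.Zeta
import Pool.Agent.L7h13.SP.Op
import Pool.Agent.L7h13.SP.Base

/-!
# Derivatives of the zeta function to the left of the critical line
-/

set_option autoImplicit false

open Complex Set Metric Polynomial

namespace Pool.Agent.L7h13.SP

open H345 H345.Chi

lemma zfe {w : ℂ} (hw : 1 ≤ w.im) : riemannZeta (1 - w) = XX w * riemannZeta w := by
  apply zeta_fe
  · intro n hn
    have := congrArg Complex.im hn
    simp at this
    linarith
  · rintro rfl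
    simp at hw
    linarith

lemma one_sub_ne {w : ℂ} (hw : 0 < w.im) : 1 - w ≠ 1 := by
  intro h
  have := congrArg Complex.im h
  simp at this
  linarith

lemma zeta_an' {w : ℂ} (hw : 0 < w.im) : AnalyticAt ℂ riemannZeta (1 - w) := by
  have hopen : IsOpen {s : ℂ | s ≠ 1} := isOpen_ne
  have : DifferentiableOn ℂ riemannZeta {s : ℂ | s ≠ 1} := fun s hs =>
    (differentiableAt_riemannZeta hs).differentiableWithinAt
  exact this.analyticAt (hopen.mem_nhds (one_sub_ne hw))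

lemma zeta_an {w : ℂ} (hw : 0 < w.im) : AnalyticAt ℂ riemannZeta w := by
  have hopen : IsOpen {s : ℂ | s ≠ 1} := isOpen_ne
  have : DifferentiableOn ℂ riemannZeta {s : ℂ | s ≠ 1} := fun s hs =>
    (differentiableAt_riemannZeta hs).differentiableWithinAt
  refine this.analyticAt (hopen.mem_nhds ?_)
  rintro rfl
  simp at hw

lemma near_re_im {w u : ℂ} {r : ℝ} (hu : ‖u‖ ≤ r) : |(w - u).re - w.re| ≤ r ∧ |(w - u).im - w.im| ≤ r := by
  constructor
  · rw [Complex.sub_re, sub_sub_cancel_left, abs_neg]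
    exact (Complex.abs_re_le_norm u).trans hu
  · rw [Complex.sub_im, sub_sub_cancel_left, abs_neg]
    exact (Complex.abs_im_le_norm u).trans hu

/-- the derivatives of zeta to the left of the critical strip -/
lemma cenk (k : ℕ) {η : ℝ} (hη : 0 < η) (hη1 : η ≤ 1 / 2) : ∃ C T₀ : ℝ, 0 ≤ C ∧ 3 ≤ T₀ ∧ ∀ w : ℂ,
    1 + η ≤ w.re → w.re ≤ 7 / 2 → T₀ ≤ w.im →
    ‖iteratedDeriv k riemannZeta (1 - w) / XX w - (-(Real.log w.im : ℂ)) ^ k * riemannZeta w‖ ≤
      C * Real.log w.im ^ k / Real.log w.im := by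
  obtain ⟨K, hK, hX⟩ := XX_size
  obtain ⟨A, hA1, hA⟩ := Pool.Agent.Y757.LS.zeta_bounds (a := 1 + η / 2) (by linarith)
  obtain ⟨C, hC0, hC⟩ := expderiv k (r := η / 2) (by positivity)
  refine ⟨C * (Real.exp K * Real.exp K * 2 ^ (4:ℝ) * A), max 3 (Real.exp (4 / η)), by positivity,
    le_max_left _ _, fun w h1 h2 h3 => ?_⟩
  set T := w.im with hT
  have hT3 : 3 ≤ T := (le_max_left _ _).trans h3
  have hT0 : 0 < T := by linarith
  have hlog : 4 / η ≤ Real.log T := (Real.le_log_iff_exp_le hT0).2 ((le_max_right _ _).trans h3)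
  have hlog1 : 1 ≤ Real.log T := by
    refine le_trans ?_ hlog
    rw [le_div_iff₀ hη]; linarith
  set l := Real.log T with hl
  have hXw := hX w (by linarith) (by linarith) (by linarith)
  have hXpos : 0 < ‖XX w‖ := lt_of_lt_of_le (by positivity) hXw.1
  have hXne : XX w ≠ 0 := norm_pos_iff.1 hXpos
  set H : ℂ → ℂ := fun u => Complex.exp ((l : ℂ) * u) * (riemannZeta (1 - w + u) / XX w) with hH
  have hun : ∀ u ∈ closedBall (0:ℂ) (η / 2), ‖u‖ ≤ η / 2 := fun u hu => by
    rwa [mem_closedBall, dist_zero_right] at hu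
  have e1 : ∀ u : ℂ, 1 - w + u = 1 - (w - u) := fun u => by ring
  have hHa : AnalyticOnNhd ℂ H (closedBall 0 (η / 2)) := by
    intro u hu
    have hn := near_re_im (w := w) (hun u hu)
    have h4 := abs_le.1 hn.2
    have h5 : AnalyticAt ℂ riemannZeta (1 - w + u) := by
      rw [e1]
      exact zeta_an' (by linarith)
    have h6 : AnalyticAt ℂ (fun u : ℂ => riemannZeta (1 - w + u)) u :=
      AnalyticAt.comp (g := riemannZeta) (f := fun u : ℂ => 1 - w + u) h5 (by fun_prop)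
    have h7 : AnalyticAt ℂ (fun u : ℂ => Complex.exp ((l : ℂ) * u)) u := by fun_prop
    exact h7.mul (h6.div analyticAt_const hXne)
  have hHb : ∀ u ∈ closedBall (0:ℂ) (η / 2), ‖H u‖ ≤ Real.exp K * Real.exp K * 2 ^ (4:ℝ) * A := by
    intro u hu
    have hu' := hun u hu
    have hn := near_re_im (w := w) hu'
    have h4 := abs_le.1 hn.2
    have h5 := abs_le.1 hn.1
    have him : 1 ≤ (w - u).im := by linarith
    simp only [hH]
    rw [e1, zfe him, norm_mul, norm_div, norm_mul, Complex.norm_exp]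
    have h6 : ((l : ℂ) * u).re = l * u.re := by simp
    rw [h6]
    have h7 := (hX (w - u) (by linarith) (by linarith) him).2
    have h8 := (hA (w - u) (by linarith)).1
    have h9 : Real.exp (l * u.re) = T ^ u.re := by
      rw [Real.rpow_def_of_pos hT0]
    have h10 : (w - u).im ^ ((w - u).re - 1 / 2) ≤ 2 ^ (4:ℝ) * T ^ ((w - u).re - 1 / 2) := by
      have h11 : 0 ≤ (w - u).re - 1 / 2 := by linarith
      have h12 : (w - u).re - 1 / 2 ≤ 4 := by linarith
      calc (w - u).im ^ ((w - u).re - 1 / 2) ≤ (2 * T) ^ ((w - u).re - 1 / 2) :=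
            Real.rpow_le_rpow (by linarith) (by linarith) h11
        _ = 2 ^ ((w - u).re - 1 / 2) * T ^ ((w - u).re - 1 / 2) := Real.mul_rpow (by norm_num) hT0.le
        _ ≤ _ := mul_le_mul_of_nonneg_right
            (Real.rpow_le_rpow_of_exponent_le (by norm_num) h12) (by positivity)
    rw [h9]
    have h13 : ‖XX (w - u)‖ * ‖riemannZeta (w - u)‖ / ‖XX w‖ ≤
        (Real.exp K * (2 ^ (4:ℝ) * T ^ ((w - u).re - 1 / 2))) * A /
          (Real.exp (-K) * T ^ (w.re - 1 / 2)) := by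
      apply div_le_div₀ (by positivity) _ (by positivity) hXw.1
      apply mul_le_mul _ h8 (norm_nonneg _) (by positivity)
      exact h7.trans (mul_le_mul_of_nonneg_left h10 (Real.exp_pos _).le)
    calc T ^ u.re * (‖XX (w - u)‖ * ‖riemannZeta (w - u)‖ / ‖XX w‖)
        ≤ T ^ u.re * ((Real.exp K * (2 ^ (4:ℝ) * T ^ ((w - u).re - 1 / 2))) * A /
          (Real.exp (-K) * T ^ (w.re - 1 / 2))) := mul_le_mul_of_nonneg_left h13 (by positivity)
      _ = Real.exp K * Real.exp K * 2 ^ (4:ℝ) * A := by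
          have h14 : T ^ (w.re - 1 / 2) = T ^ u.re * T ^ ((w - u).re - 1 / 2) := by
            rw [← Real.rpow_add hT0]
            congr 1
            rw [Complex.sub_re]; ring
          rw [h14, Real.exp_neg]
          have : T ^ u.re ≠ 0 := by positivity
          have : T ^ ((w - u).re - 1 / 2) ≠ 0 := by positivity
          field_simp
  have key := hC l (Real.exp K * Real.exp K * 2 ^ (4:ℝ) * A) H hlog1 (by
    refine le_trans (le_of_eq ?_) hlog
    field_simp
    norm_num) (by positivity) hHa hHb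
  have e2 : (fun u => Complex.exp (-(l : ℂ) * u) * H u) =
      fun u => (XX w)⁻¹ * riemannZeta (1 - w + u) := by
    funext u
    simp only [hH]
    rw [← mul_assoc, ← Complex.exp_add]
    have : -(l : ℂ) * u + (l : ℂ) * u = 0 := by ring
    rw [this, Complex.exp_zero, one_mul]
    ring
  have e3 : iteratedDeriv k (fun u => Complex.exp (-(l : ℂ) * u) * H u) 0 =
      iteratedDeriv k riemannZeta (1 - w) / XX w := by
    rw [e2, iteratedDeriv_const_mul_field, iteratedDeriv_comp_const_add]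
    simp only [add_zero]
    ring
  have e4 : H 0 = riemannZeta w := by
    simp only [hH]
    rw [mul_zero, Complex.exp_zero, one_mul, add_zero, zfe (by linarith)]
    field_simp
  rw [e3, e4] at key
  exact key

/-- `(P(d/ds) ζ)(1 - w)` -/
noncomputable def Gl (P : ℂ[X]) (w : ℂ) : ℂ := Op P riemannZeta (1 - w)

lemma gl_an (P : ℂ[X]) {w : ℂ} (hw : 0 < w.im) : AnalyticAt ℂ (Gl P) w := by
  have h1 := op_analytic P (zeta_an' hw)
  exact AnalyticAt.comp (g := Op P riemannZeta) (f := fun w : ℂ => 1 - w) h1 (by fun_prop)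

/-- the size of `GL` in `Re w ≥ 1 + η` -/
lemma cen {P : ℂ[X]} (hP : P ≠ 0) {η : ℝ} (hη : 0 < η) (hη1 : η ≤ 1 / 2) :
    ∃ c C T₀ : ℝ, 0 < c ∧ 0 < C ∧ 3 ≤ T₀ ∧ ∀ w : ℂ, 1 + η ≤ w.re → w.re ≤ 7 / 2 → T₀ ≤ w.im →
      c * Real.log w.im ^ P.natDegree * ‖XX w‖ ≤ ‖Gl P w‖ ∧
      ‖Gl P w‖ ≤ C * Real.log w.im ^ P.natDegree * ‖XX w‖ := by
  choose D T hD0 hT3 hD using fun k : ℕ => cenk k hη hη1
  obtain ⟨K, hK, hX⟩ := XX_size
  obtain ⟨A, hA1, hA⟩ := Pool.Agent.Y757.LS.zeta_bounds (a := 1 + η) (by linarith)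
  have hA0 : 0 < A := by linarith
  set d := P.natDegree with hd
  have hlc : P.leadingCoeff ≠ 0 := leadingCoeff_ne_zero.2 hP
  have hlc0 : 0 < ‖P.leadingCoeff‖ := norm_pos_iff.2 hlc
  set S : ℝ := ∑ k ∈ Finset.range (d + 1), ‖P.coeff k‖ * (D k + A) with hS
  have hS0 : 0 ≤ S := Finset.sum_nonneg fun k _ => mul_nonneg (norm_nonneg _) (by linarith [hD0 k])
  set T₁ : ℝ := ∑ k ∈ Finset.range (d + 1), T k with hT₁
  have hTk : ∀ k ∈ Finset.range (d + 1), T k ≤ T₁ := fun k hk =>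
    Finset.single_le_sum (f := T) (fun i _ => by linarith [hT3 i]) hk
  set l₀ : ℝ := 1 + 2 * A * S / ‖P.leadingCoeff‖ with hl₀
  have hl01 : 1 ≤ l₀ := by
    have : 0 ≤ 2 * A * S / ‖P.leadingCoeff‖ := by positivity
    linarith
  refine ⟨‖P.leadingCoeff‖ / (2 * A), ‖P.leadingCoeff‖ * A + S, max (max 3 T₁) (Real.exp l₀),
    by positivity, by positivity, (le_max_left _ _).trans (le_max_left _ _), fun w h1 h2 h3 => ?_⟩
  set T := w.im with hTdef
  have hT3' : 3 ≤ T := ((le_max_left _ _).trans (le_max_left _ _)).trans h3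
  have hT1' : T₁ ≤ T := ((le_max_right _ _).trans (le_max_left _ _)).trans h3
  have hT0 : 0 < T := by linarith
  have hlog : l₀ ≤ Real.log T := (Real.le_log_iff_exp_le hT0).2 ((le_max_right _ _).trans h3)
  set l := Real.log T with hl
  have hl1 : 1 ≤ l := hl01.trans hlog
  have hl0 : 0 < l := by linarith
  have hXw := hX w (by linarith) (by linarith) (by linarith)
  have hXpos : 0 < ‖XX w‖ := lt_of_lt_of_le (by positivity) hXw.1
  have hXne : XX w ≠ 0 := norm_pos_iff.1 hXpos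
  obtain ⟨hz1, hz2⟩ := hA w h1
  -- the quotient
  have hq : Gl P w / XX w = ∑ k ∈ Finset.range (d + 1),
      P.coeff k * (iteratedDeriv k riemannZeta (1 - w) / XX w) := by
    unfold Gl Op
    rw [Finset.sum_div]
    apply Finset.sum_congr rfl
    intro k _
    ring
  have hmain : ‖Gl P w / XX w - P.leadingCoeff * ((-(l : ℂ)) ^ d * riemannZeta w)‖ ≤ S * (l ^ d / l) := by
    rw [hq, Finset.sum_range_succ]
    have e1 : P.coeff d = P.leadingCoeff := rfl
    rw [e1, add_sub_assoc, ← mul_sub, hS, Finset.sum_mul, Finset.sum_range_succ]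
    refine (norm_add_le _ _).trans (add_le_add ?_ ?_)
    · refine (norm_sum_le _ _).trans (Finset.sum_le_sum fun k hk => ?_)
      rw [Finset.mem_range] at hk
      have h4 := hD k w h1 h2 ((hTk k (Finset.mem_range.2 (by omega))).trans hT1')
      rw [norm_mul, mul_assoc]
      apply mul_le_mul_of_nonneg_left _ (norm_nonneg _)
      have h5 : ‖(-(l : ℂ)) ^ k * riemannZeta w‖ ≤ l ^ k * A := by
        rw [norm_mul, norm_pow, norm_neg, Complex.norm_real, Real.norm_eq_abs, abs_of_pos hl0]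
        exact mul_le_mul_of_nonneg_left hz1 (by positivity)
      have h6 : l ^ k ≤ l ^ d / l := by
        rw [le_div_iff₀ hl0, ← pow_succ]
        exact pow_le_pow_right₀ hl1 (by omega)
      have h7 : D k * l ^ k / l ≤ D k * (l ^ d / l) := by
        rw [mul_div_assoc]
        apply mul_le_mul_of_nonneg_left _ (hD0 k)
        exact div_le_div_of_nonneg_right (pow_le_pow_right₀ hl1 hk.le) hl0.le
      calc ‖iteratedDeriv k riemannZeta (1 - w) / XX w‖
          = ‖(iteratedDeriv k riemannZeta (1 - w) / XX w - (-(l : ℂ)) ^ k * riemannZeta w) +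
            (-(l : ℂ)) ^ k * riemannZeta w‖ := by congr 1; ring
        _ ≤ D k * l ^ k / l + l ^ k * A := (norm_add_le _ _).trans (add_le_add h4 h5)
        _ ≤ D k * (l ^ d / l) + (l ^ d / l) * A := add_le_add h7
            (mul_le_mul_of_nonneg_right h6 hA0.le)
        _ = (D k + A) * (l ^ d / l) := by ring
    · have h4 := hD d w h1 h2 ((hTk d (Finset.mem_range.2 (by omega))).trans hT1')
      rw [norm_mul, mul_assoc]
      apply mul_le_mul_of_nonneg_left _ (norm_nonneg _)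
      refine h4.trans ?_
      have : 0 ≤ l ^ d / l := by positivity
      rw [mul_div_assoc]
      nlinarith
  have hlead : ‖P.leadingCoeff * ((-(l : ℂ)) ^ d * riemannZeta w)‖ =
      ‖P.leadingCoeff‖ * (l ^ d * ‖riemannZeta w‖) := by
    rw [norm_mul, norm_mul, norm_pow, norm_neg, Complex.norm_real, Real.norm_eq_abs, abs_of_pos hl0]
  have hsmall : S * (l ^ d / l) ≤ ‖P.leadingCoeff‖ / (2 * A) * l ^ d := by
    have h4 : 2 * A * S / ‖P.leadingCoeff‖ ≤ l := by linarith
    rw [div_le_iff₀ hlc0] at h4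
    rw [mul_div_assoc', div_mul_eq_mul_div, div_le_div_iff₀ hl0 (by positivity)]
    have : 0 ≤ l ^ d := by positivity
    nlinarith
  have hdiv : ‖Gl P w‖ = ‖Gl P w / XX w‖ * ‖XX w‖ := by
    rw [norm_div, div_mul_cancel₀ _ hXpos.ne']
  constructor
  · rw [hdiv]
    apply mul_le_mul_of_nonneg_right _ (norm_nonneg _)
    have h5 := norm_sub_norm_le (P.leadingCoeff * ((-(l : ℂ)) ^ d * riemannZeta w)) (Gl P w / XX w)
    rw [norm_sub_rev, hlead] at h5
    have h6 : ‖P.leadingCoeff‖ / A * l ^ d ≤ ‖P.leadingCoeff‖ * (l ^ d * ‖riemannZeta w‖) := by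
      calc ‖P.leadingCoeff‖ / A * l ^ d = ‖P.leadingCoeff‖ * (l ^ d * (1 / A)) := by ring
        _ ≤ _ := by gcongr
    have h7 : ‖P.leadingCoeff‖ / A * l ^ d = 2 * (‖P.leadingCoeff‖ / (2 * A) * l ^ d) := by
      field_simp
    linarith
  · rw [hdiv]
    apply mul_le_mul_of_nonneg_right _ (norm_nonneg _)
    have h5 := norm_sub_norm_le (Gl P w / XX w) (P.leadingCoeff * ((-(l : ℂ)) ^ d * riemannZeta w))
    rw [hlead] at h5
    have h6 : ‖P.leadingCoeff‖ * (l ^ d * ‖riemannZeta w‖) ≤ ‖P.leadingCoeff‖ * (l ^ d * A) := by gcongr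
    have h7 : S * (l ^ d / l) ≤ S * l ^ d := by
      apply mul_le_mul_of_nonneg_left _ hS0
      exact div_le_self (by positivity) hl1
    linarith

/-- zeta near `1 - w`, from an exponent -/
lemma zl_up {σ m : ℝ} (h : Exu σ m) (hm : 0 ≤ m) (hσ : 1 / 2 < σ) (hσ2 : σ ≤ 2) {ε : ℝ} (hε : 0 < ε) :
    ∃ ρ T₀ : ℝ, 0 < ρ ∧ ρ ≤ 1 / 10 ∧ 3 ≤ T₀ ∧ ∀ w : ℂ, σ ≤ w.re → w.re ≤ 14 / 5 → T₀ ≤ w.im →
      ∀ u : ℂ, ‖u‖ ≤ ρ → ‖riemannZeta (1 - w + u)‖ ≤ w.im ^ (w.re - 1 / 2 + m + ε) := by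
  obtain ⟨K, hK, hX⟩ := XX_size
  obtain ⟨T₁, h1, hT1⟩ := h.right hm (by linarith) (by linarith) (ε := ε / 4) (by positivity)
  obtain ⟨T₂, h2, hT2⟩ := h.left hσ hσ2 (ε := ε / 4) (by positivity)
  obtain ⟨T₃, h3, hT3⟩ := absorb (Real.exp K * 2 ^ (4 + m + ε)) (ε := ε / 4) (by positivity)
  refine ⟨min (min (1 / 10) (ε / 4)) (σ - 1 / 2), max (max (T₁ + 1) (T₂ + 1)) (max T₃ 3),
    lt_min (lt_min (by norm_num) (by positivity)) (by linarith),
    (min_le_left _ _).trans (min_le_left _ _), (le_max_right _ _).trans (le_max_right _ _),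
    fun w g1 g2 g3 u hu => ?_⟩
  set T := w.im with hT
  have f1 : T₁ + 1 ≤ T := ((le_max_left _ _).trans (le_max_left _ _)).trans g3
  have f2 : T₂ + 1 ≤ T := ((le_max_right _ _).trans (le_max_left _ _)).trans g3
  have f3 : T₃ ≤ T := ((le_max_left _ _).trans (le_max_right _ _)).trans g3
  have f4 : 3 ≤ T := ((le_max_right _ _).trans (le_max_right _ _)).trans g3
  have hT0 : 0 < T := by linarith
  have hu1 : ‖u‖ ≤ 1 / 10 := hu.trans ((min_le_left _ _).trans (min_le_left _ _))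
  have hu2 : ‖u‖ ≤ ε / 4 := hu.trans ((min_le_left _ _).trans (min_le_right _ _))
  have hu3 : ‖u‖ ≤ σ - 1 / 2 := hu.trans (min_le_right _ _)
  have n1 := near_re_im (w := w) hu1
  have n2 := near_re_im (w := w) hu2
  have n3 := near_re_im (w := w) hu3
  have a1 := abs_le.1 n1.1
  have a2 := abs_le.1 n1.2
  have a3 := abs_le.1 n2.1
  have a4 := abs_le.1 n3.1
  set w' := w - u with hw'
  have him : 1 ≤ w'.im := by linarith
  have e1 : 1 - w + u = 1 - w' := by rw [hw']; ring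
  rw [e1, zfe him, norm_mul]
  have b1 := (hX w' (by linarith) (by linarith) him).2
  have b2 : ‖riemannZeta w'‖ ≤ w'.im ^ (m + ε / 2) := by
    rcases le_or_gt σ w'.re with c1 | c1
    · refine (hT1 w' c1 (by linarith) (by linarith)).trans ?_
      exact Real.rpow_le_rpow_of_exponent_le him (by linarith)
    · refine (hT2 w' (by linarith) c1.le (by linarith)).trans ?_
      exact Real.rpow_le_rpow_of_exponent_le him (by linarith)
  have hp : 0 < w'.im := by linarith
  calc ‖XX w'‖ * ‖riemannZeta w'‖ ≤ (Real.exp K * w'.im ^ (w'.re - 1 / 2)) * w'.im ^ (m + ε / 2) := by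
        gcongr
    _ = Real.exp K * w'.im ^ (w'.re - 1 / 2 + (m + ε / 2)) := by
        rw [mul_assoc, ← Real.rpow_add hp]
    _ ≤ Real.exp K * (2 * T) ^ (w'.re - 1 / 2 + (m + ε / 2)) := by
        apply mul_le_mul_of_nonneg_left _ (Real.exp_pos _).le
        exact Real.rpow_le_rpow hp.le (by linarith) (by linarith)
    _ = Real.exp K * 2 ^ (w'.re - 1 / 2 + (m + ε / 2)) * T ^ (w'.re - 1 / 2 + (m + ε / 2)) := by
        rw [Real.mul_rpow (by norm_num) hT0.le]; ring
    _ ≤ Real.exp K * 2 ^ (4 + m + ε) * T ^ (w'.re - 1 / 2 + (m + ε / 2)) := by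
        apply mul_le_mul_of_nonneg_right _ (by positivity)
        apply mul_le_mul_of_nonneg_left _ (Real.exp_pos _).le
        exact Real.rpow_le_rpow_of_exponent_le (by norm_num) (by linarith)
    _ ≤ T ^ (ε / 4) * T ^ (w'.re - 1 / 2 + (m + ε / 2)) :=
        mul_le_mul_of_nonneg_right (hT3 T f3) (by positivity)
    _ = T ^ (ε / 4 + (w'.re - 1 / 2 + (m + ε / 2))) := by rw [← Real.rpow_add hT0]
    _ ≤ _ := Real.rpow_le_rpow_of_exponent_le (by linarith) (by linarith)

lemma ball_an {w : ℂ} {ρ : ℝ} (hρ : 0 < ρ) (hρ1 : ρ ≤ 1 / 10) (hw : 1 ≤ w.im) :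
    DiffContOnCl ℂ riemannZeta (ball (1 - w) ρ) := by
  refine DifferentiableOn.diffContOnCl ?_
  rw [closure_ball _ hρ.ne']
  intro z hz
  rw [mem_closedBall, dist_eq_norm] at hz
  have h1 := near_re_im (w := w) (u := z - (1 - w)) hz
  have h2 := abs_le.1 h1.2
  have h3 := zeta_an' (w := w - (z - (1 - w))) (by linarith)
  have e : 1 - (w - (z - (1 - w))) = z := by ring
  rw [e] at h3
  exact h3.differentiableAt.differentiableWithinAt

/-- the size of `GL` and of the derivatives of zeta, from an exponent -/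
lemma gl_up (P : ℂ[X]) {σ m : ℝ} (h : Exu σ m) (hm : 0 ≤ m) (hσ : 1 / 2 < σ) (hσ2 : σ ≤ 2) {ε : ℝ}
    (hε : 0 < ε) : ∃ T₀ : ℝ, 3 ≤ T₀ ∧ ∀ w : ℂ, σ ≤ w.re → w.re ≤ 14 / 5 → T₀ ≤ w.im →
      ‖Gl P w‖ ≤ w.im ^ (w.re - 1 / 2 + m + ε) ∧
      ∀ j : ℕ, j < P.natDegree → ‖iteratedDeriv j riemannZeta (1 - w)‖ ≤ w.im ^ (w.re - 1 / 2 + m + ε) := by
  obtain ⟨ρ, T₁, hρ, hρ1, hT3, hz⟩ := zl_up h hm hσ hσ2 (ε := ε / 2) (by positivity)
  obtain ⟨C, hC1, hC⟩ := op_le P hρ
  set D : ℝ := ∑ j ∈ Finset.range P.natDegree, (j.factorial / ρ ^ j : ℝ) with hD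
  obtain ⟨T₂, _, hT2⟩ := absorb (max C D) (ε := ε / 2) (by positivity)
  refine ⟨max T₁ T₂, hT3.trans (le_max_left _ _), fun w g1 g2 g3 => ?_⟩
  have f1 : T₁ ≤ w.im := (le_max_left _ _).trans g3
  have f2 := hT2 w.im ((le_max_right _ _).trans g3)
  have hT0 : 0 < w.im := by linarith
  have hM : ∀ z ∈ sphere (1 - w) ρ, ‖riemannZeta z‖ ≤ w.im ^ (w.re - 1 / 2 + m + ε / 2) := by
    intro z hz'
    rw [mem_sphere, dist_eq_norm] at hz'
    have := hz w g1 g2 f1 (z - (1 - w)) hz'.le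
    rwa [add_sub_cancel] at this
  have hM0 : 0 ≤ w.im ^ (w.re - 1 / 2 + m + ε / 2) := by positivity
  have hfin : ∀ B : ℝ, B ≤ max C D → B * w.im ^ (w.re - 1 / 2 + m + ε / 2) ≤
      w.im ^ (w.re - 1 / 2 + m + ε) := by
    intro B hB
    calc B * w.im ^ (w.re - 1 / 2 + m + ε / 2) ≤ w.im ^ (ε / 2) * w.im ^ (w.re - 1 / 2 + m + ε / 2) :=
          mul_le_mul_of_nonneg_right (hB.trans f2) hM0
      _ = _ := by rw [← Real.rpow_add hT0]; congr 1; ring
  constructor
  · exact (hC riemannZeta (1 - w) _ hM0 (ball_an hρ hρ1 (by linarith)) hM).trans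
      (hfin C (le_max_left _ _))
  · intro j hj
    have h1 := iter_le (k := j) hρ (ball_an hρ hρ1 (by linarith)) hM
    refine h1.trans (hfin _ (le_trans ?_ (le_max_right _ _)))
    exact Finset.single_le_sum (f := fun j : ℕ => (j.factorial / ρ ^ j : ℝ))
      (fun i _ => by positivity) (Finset.mem_range.2 hj)

end Pool.Agent.L7h13.SP
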