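import Pool.Agent.L7h13.SP.LeftJ

/-!
# Few zeros to the left give the Lindelöf exponent
-/

set_option autoImplicit false

open Complex Set Metric Polynomial

namespace Pool.Agent.L7h13.SP

open H345 H345.Chi H370

lemma exu_five {σ : ℝ} (h1 : -1 ≤ σ) : Exu σ 5 := by
  obtain ⟨C, _, hC⟩ := zgrow σ
  intro ε hε
  obtain ⟨T₀, h2, hT⟩ := absorb C hε
  refine ⟨T₀, fun t ht => ?_⟩
  have ht0 : 0 < t := by linarith
  refine (hC ⟨σ, t⟩ h1 le_rfl (by simp only; linarith)).trans ?_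
  rw [add_comm, Real.rpow_add ht0]
  exact mul_le_mul_of_nonneg_right (hT t ht) (by positivity)

lemma log_absorb (d : ℕ) {ε : ℝ} (hε : 0 < ε) : ∃ T₀ : ℝ, 1 ≤ T₀ ∧ ∀ t : ℝ, T₀ ≤ t →
    Real.log t ^ d ≤ t ^ ε := by
  have h1 := isLittleO_log_rpow_rpow_atTop (d : ℝ) hε
  have h2 := h1.bound (c := 1) one_pos
  obtain ⟨T₀, hT⟩ := Filter.eventually_atTop.1 h2
  refine ⟨max T₀ 1, le_max_right _ _, fun t ht => ?_⟩
  have h3 := hT t ((le_max_left _ _).trans ht)
  have h4 : 1 ≤ t := (le_max_right _ _).trans ht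
  rw [one_mul, Real.norm_eq_abs, Real.norm_eq_abs, Real.rpow_natCast] at h3
  have h5 : 0 ≤ t ^ ε := by positivity
  rw [abs_of_nonneg h5] at h3
  exact (le_abs_self _).trans h3

/-- the exponent is small if it decreases nearly at the rate `1` to the right -/
lemma exu_small {σ κ : ℝ} (hσ : 1 / 2 < σ) (hσ1 : σ ≤ 1) (hκ : 0 < κ) (hκ1 : κ < 1 / 2)
    (H : ∀ m : ℝ, 0 ≤ m → Exu σ m → ∀ σ' : ℝ, σ < σ' → σ' ≤ 2 → Exu σ' (max 0 (m - (σ' - σ)) + κ)) :
    Exu σ (2 * κ) := by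
  set S : Set ℝ := {m | 0 ≤ m ∧ Exu σ m} with hS
  have hne : S.Nonempty := ⟨5, by norm_num, exu_five (by linarith)⟩
  have hbdd : BddBelow S := ⟨0, fun m hm => hm.1⟩
  set m₀ := sInf S with hm₀
  have hm0 : 0 ≤ m₀ := le_csInf hne fun m hm => hm.1
  have hmem : Exu σ m₀ := by
    apply Exu.closed
    intro m' hm'
    obtain ⟨m, hm, hmm⟩ := exists_lt_of_csInf_lt hne hm'
    exact hm.2.mono hmm.le
  rcases le_or_gt m₀ (2 * κ) with h0 | h0
  · exact hmem.mono h0
  · exfalso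
    set d : ℝ := min m₀ 1 with hd
    have hd0 : 2 * κ < d := lt_min h0 (by linarith)
    have hd1 : d ≤ 1 := min_le_right _ _
    have hdm : d ≤ m₀ := min_le_left _ _
    have h1 := H m₀ hm0 hmem (σ + d) (by linarith) (by linarith)
    have h2 : max 0 (m₀ - (σ + d - σ)) = m₀ - d := by
      rw [max_eq_right]
      · ring
      · linarith
    rw [h2] at h1
    have h3 := h1.left' (σ' := σ) (by linarith) (by linarith) (by linarith) (by linarith)
    have h4 : m₀ - d + κ + (σ + d - σ) / 2 ∈ S := ⟨by linarith, h3⟩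
    have h5 := csInf_le hbdd h4
    linarith

/-- few zeros to the left give the bound -/
lemma left_back {P : ℂ[X]} (hP : P ≠ 0) {A : ℂ → ℂ} {M : ℝ} (hA : Good A M) {σ₀ : ℝ} (h0 : 1 / 2 ≤ σ₀)
    {σ : ℝ} (hσ : σ₀ < σ) (hσ1 : σ ≤ 1) {κ : ℝ} (hκ : 0 < κ) (hκ1 : κ < 1 / 2) :
    ∃ θ : ℝ, 0 < θ ∧ (FewU (Fl P A) (Icc σ₀ 2) 1 θ → Exu σ (2 * κ)) := by
  have hM := hA.nonneg
  set d := P.natDegree with hd
  set η : ℝ := min (1 / 16) ((σ - σ₀) / 4) with hη
  have hη0 : 0 < η := lt_min (by norm_num) (by linarith)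
  have hη1 : η ≤ 1 / 16 := min_le_left _ _
  have hη2 : η ≤ (σ - σ₀) / 4 := min_le_right _ _
  set R : ℝ := 1 + 4 * η - σ with hR
  set e : ℝ := κ / 5 with he
  have he0 : 0 < e := by positivity
  obtain ⟨K, hK, hX⟩ := XX_size
  obtain ⟨c, C, T₂, hc0, hC0, hT2, hcen⟩ := cenA hP hA (η := η) hη0 (by linarith)
  set B : ℝ := 1 + C * 2 ^ d * Real.exp K * 8 + 1 / (c * Real.exp (-K)) with hB
  have hB1 : 1 ≤ B := by
    have : 0 ≤ C * 2 ^ d * Real.exp K * 8 := by positivity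
    have : 0 ≤ 1 / (c * Real.exp (-K)) := by positivity
    linarith
  obtain ⟨θ, hθ, L₀, hBL⟩ := gbacklund (R := R) (δ := η) (r := η / 2) (A := 7) (B := B) hη0
    (by linarith) (by positivity) (by linarith) (by norm_num) hB1 he0
  refine ⟨θ, hθ, fun h => ?_⟩
  apply exu_small (by linarith) hσ1 hκ hκ1
  intro m hm hE σ' hσσ' hσ2 ε hε
  obtain ⟨T₁, hT1, hG⟩ := fl_up P hA (σ := σ - 2 * η) (m := 5) (exu_five (by linarith)) (by norm_num)
    (by linarith) (by linarith) (ε := 1) one_pos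
  obtain ⟨T₃, hT3⟩ := h
  obtain ⟨T₄, hT41, hT4⟩ := absorb (2 ^ (3 + 6 : ℝ)) (ε := 1) one_pos
  obtain ⟨T₅, hT51, hT5⟩ := log_absorb d he0
  obtain ⟨T₆, hT61, hT6⟩ := absorb (C * Real.exp K) he0
  obtain ⟨T₇, hT71, hT7⟩ := gl_up P hE hm (by linarith) (by linarith) (ε := e) he0
  obtain ⟨C₁, hC1, hode⟩ := ode P hP 2
  obtain ⟨T₈, hT81, hT8⟩ := absorb (C₁ * Real.exp K) he0
  obtain ⟨T₉, hT91, hT9⟩ := absorb (1 + M) he0
  refine ⟨T₁ + T₂ + |T₃| + T₄ + T₅ + T₆ + T₇ + T₈ + T₉ + Real.exp |L₀| + 10, fun T hT => ?_⟩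
  have p3 := abs_nonneg T₃
  have pL := Real.exp_pos |L₀|
  have f1 : T₁ + 2 ≤ T := by linarith
  have f2 : T₂ + 2 ≤ T := by linarith
  have f3 : T₃ ≤ T := by linarith [le_abs_self T₃]
  have f4 : T₄ ≤ T := by linarith
  have f5 : T₅ ≤ T := by linarith
  have f6 : T₆ ≤ T := by linarith
  have f7 : T₇ ≤ T := by linarith
  have f8 : T₈ ≤ T := by linarith
  have f9 : Real.exp |L₀| ≤ T := by linarith
  have f11 : T₉ ≤ T := by linarith
  have f10 : 10 ≤ T := by linarith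
  have hT0 : 0 < T := by linarith
  have hl1 : 1 ≤ Real.log T := by
    rw [Real.le_log_iff_exp_le hT0]
    have := Real.exp_one_lt_d9
    linarith
  have hL0 : L₀ ≤ Real.log T := (le_abs_self L₀).trans ((Real.le_log_iff_exp_le hT0).2 f9)
  have f3' : ∀ S : Finset ℂ, (∀ z ∈ S, z.re ∈ Icc σ₀ 2 ∧ |z.im - T| ≤ 1) →
      ∑ z ∈ S, (mult (Fl P A) z : ℝ) ≤ θ * Real.log T := hT3 T f3
  set L := Real.log T with hL
  have hexp : ∀ p : ℝ, Real.exp (p * L) = T ^ p := fun p => by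
    rw [Real.rpow_def_of_pos hT0, mul_comm]
  have hLd : 0 < L ^ d := by positivity
  have hLd1 : 1 ≤ L ^ d := one_le_pow₀ hl1
  set g : ℂ → ℂ := fun z => tw L z * ((L : ℂ) ^ d)⁻¹ with hg
  have hLc : (L : ℂ) ≠ 0 := by
    have : L ≠ 0 := by linarith
    exact_mod_cast this
  have hg_an : ∀ z, AnalyticAt ℂ g z := fun z => (tw_an L z).mul analyticAt_const
  have hg_ne : ∀ z, g z ≠ 0 := fun z => mul_ne_zero (tw_ne L z) (inv_ne_zero (pow_ne_zero _ hLc))
  have hg_norm : ∀ z, ‖g z‖ = T ^ (-(z.re - 1 / 2)) * (L ^ d)⁻¹ := by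
    intro z
    simp only [hg]
    rw [norm_mul, hL, tw_norm hT0, ← hL, norm_inv, norm_pow, Complex.norm_real, Real.norm_eq_abs,
      abs_of_pos (by linarith)]
  set f : ℂ → ℂ := fun z => Fl P A z * g z with hf
  set c₀ : ℂ := ⟨1 + 2 * η, T⟩ with hc₀
  have hball : ∀ (ρ : ℝ) (z : ℂ), z ∈ closedBall c₀ ρ → 1 + 2 * η - ρ ≤ z.re ∧ z.re ≤ 1 + 2 * η + ρ ∧
      T - ρ ≤ z.im ∧ z.im ≤ T + ρ := by
    intro ρ z hz
    rw [mem_closedBall, dist_eq_norm] at hz
    have g1 := abs_le.1 ((Complex.abs_re_le_norm (z - c₀)).trans hz)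
    have g2 := abs_le.1 ((Complex.abs_im_le_norm (z - c₀)).trans hz)
    rw [Complex.sub_re] at g1
    rw [Complex.sub_im] at g2
    simp only [hc₀] at g1 g2
    refine ⟨by linarith, by linarith, by linarith, by linarith⟩
  have hR1 : R ≤ 1 := by linarith
  -- the two-sided bound near the centre
  have hcenter : ∀ z : ℂ, 1 + η ≤ z.re → z.re ≤ 3 → T - 1 ≤ z.im → z.im ≤ 2 * T →
      ‖Fl P A z‖ ≤ C * 2 ^ d * Real.exp K * 8 * L ^ d * T ^ (z.re - 1 / 2) := by
    intro z g1 g2 g3 g4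
    have g5 := (hcen z g1 (by linarith) (by linarith)).2
    have g6 := (hX z (by linarith) (by linarith) (by linarith)).2
    have g7 : Real.log z.im ≤ 2 * L := by
      have : (2:ℝ) * L = Real.log (T ^ 2) := by rw [hL, Real.log_pow]; norm_num
      rw [this]
      apply Real.log_le_log (by linarith)
      nlinarith
    have g8 : z.im ^ (z.re - 1 / 2) ≤ 8 * T ^ (z.re - 1 / 2) := by
      calc z.im ^ (z.re - 1 / 2) ≤ (2 * T) ^ (z.re - 1 / 2) :=
            Real.rpow_le_rpow (by linarith) g4 (by linarith)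
        _ = 2 ^ (z.re - 1 / 2) * T ^ (z.re - 1 / 2) := Real.mul_rpow (by norm_num) hT0.le
        _ ≤ 2 ^ (3:ℝ) * T ^ (z.re - 1 / 2) := mul_le_mul_of_nonneg_right
            (Real.rpow_le_rpow_of_exponent_le (by norm_num) (by linarith)) (by positivity)
        _ = _ := by norm_num
    have g9 : 0 ≤ Real.log z.im := Real.log_nonneg (by linarith)
    calc ‖Fl P A z‖ ≤ C * Real.log z.im ^ d * ‖XX z‖ := g5
      _ ≤ C * (2 * L) ^ d * (Real.exp K * (8 * T ^ (z.re - 1 / 2))) := by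
          apply mul_le_mul
          · apply mul_le_mul_of_nonneg_left _ hC0.le
            exact pow_le_pow_left₀ g9 g7 d
          · exact g6.trans (mul_le_mul_of_nonneg_left g8 (Real.exp_pos _).le)
          · positivity
          · positivity
      _ = _ := by rw [mul_pow]; ring
  have key := hBL L hL0 (by linarith) f c₀ (by
    intro z hz
    obtain ⟨g1, g2, g3, g4⟩ := hball R z hz
    exact (fl_an P hA (by linarith)).mul (hg_an z)) (by
    intro z hz
    obtain ⟨g1, g2, g3, g4⟩ := hball R z hz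
    have g5 := hG z (by linarith) (by linarith) (by linarith)
    have g5' : ‖Fl P A z‖ ≤ z.im ^ (z.re - 1 / 2 + 6) := by
      rw [show z.re - 1 / 2 + 6 = z.re - 1 / 2 + 5 + 1 by ring]; exact g5
    have g6 := tw_up (f := Fl P A) (z := z) (T := T) (ε := 1) (q := 6) (by linarith) (by linarith)
      (by linarith) (by linarith) (by linarith) (by norm_num) g5' (hT4 T f4)
    rw [hexp]
    have e1 : f z = (Fl P A z * tw L z) * ((L : ℂ) ^ d)⁻¹ := by simp only [hf, hg]; ring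
    rw [e1, norm_mul, norm_inv, norm_pow, Complex.norm_real, Real.norm_eq_abs,
      abs_of_pos (by linarith)]
    have e2 : (L ^ d)⁻¹ ≤ 1 := inv_le_one_of_one_le₀ hLd1
    calc ‖Fl P A z * tw L z‖ * (L ^ d)⁻¹ ≤ T ^ ((6:ℝ) + 1) * 1 := by
          apply mul_le_mul g6 e2 (by positivity) (by positivity)
      _ = T ^ (7:ℝ) := by norm_num) (by
    intro z hz
    obtain ⟨g1, g2, g3, g4⟩ := hball (η / 2) z hz
    have g5 := hcenter z (by linarith) (by linarith) (by linarith) (by linarith)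
    simp only [hf]
    rw [norm_mul, hg_norm]
    calc ‖Fl P A z‖ * (T ^ (-(z.re - 1 / 2)) * (L ^ d)⁻¹)
        ≤ (C * 2 ^ d * Real.exp K * 8 * L ^ d * T ^ (z.re - 1 / 2)) *
          (T ^ (-(z.re - 1 / 2)) * (L ^ d)⁻¹) := mul_le_mul_of_nonneg_right g5 (by positivity)
      _ = C * 2 ^ d * Real.exp K * 8 * (L ^ d * (L ^ d)⁻¹) *
          (T ^ (z.re - 1 / 2) * T ^ (-(z.re - 1 / 2))) := by ring
      _ = C * 2 ^ d * Real.exp K * 8 := by
          rw [← Real.rpow_add hT0, add_neg_cancel, Real.rpow_zero, mul_inv_cancel₀ hLd.ne']; ring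
      _ ≤ B := by
          have : 0 ≤ 1 / (c * Real.exp (-K)) := by positivity
          rw [hB]; linarith) (by
    have g1 := (hcen c₀ (by simp only [hc₀]; linarith) (by simp only [hc₀]; linarith)
      (by simp only [hc₀]; linarith)).1
    have g2 := (hX c₀ (by simp only [hc₀]; linarith) (by simp only [hc₀]; linarith)
      (by simp only [hc₀]; linarith)).1
    have e1 : c₀.im = T := rfl
    rw [e1, ← hL] at g1
    rw [e1] at g2
    simp only [hf]
    rw [norm_mul, hg_norm]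
    have g3 : 1 / B ≤ c * Real.exp (-K) := by
      have g5 : 0 < c * Real.exp (-K) := by positivity
      rw [div_le_iff₀ (by linarith)]
      have g6 : 1 / (c * Real.exp (-K)) ≤ B := by
        have : 0 ≤ C * 2 ^ d * Real.exp K * 8 := by positivity
        rw [hB]; linarith
      rw [div_le_iff₀ g5] at g6
      linarith
    refine g3.trans ?_
    calc c * Real.exp (-K) = (c * L ^ d * (Real.exp (-K) * T ^ (c₀.re - 1 / 2))) *
          (T ^ (-(c₀.re - 1 / 2)) * (L ^ d)⁻¹) := by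
          have e2 : T ^ (c₀.re - 1 / 2) * T ^ (-(c₀.re - 1 / 2)) = 1 := by
            rw [← Real.rpow_add hT0]; simp
          have e3 : L ^ d * (L ^ d)⁻¹ = 1 := mul_inv_cancel₀ hLd.ne'
          calc c * Real.exp (-K) = c * Real.exp (-K) * (L ^ d * (L ^ d)⁻¹) *
                (T ^ (c₀.re - 1 / 2) * T ^ (-(c₀.re - 1 / 2))) := by rw [e2, e3]; ring
            _ = _ := by ring
      _ ≤ (c * L ^ d * ‖XX c₀‖) * (T ^ (-(c₀.re - 1 / 2)) * (L ^ d)⁻¹) := by gcongr
      _ ≤ _ := mul_le_mul_of_nonneg_right g1 (by positivity)) (by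
    intro S hS
    refine le_trans (le_of_eq ?_) (f3' S fun z hz => ?_)
    · apply Finset.sum_congr rfl
      intro z hz
      obtain ⟨g1, g2, g3, g4⟩ := hball _ z (hS z hz).1
      rw [hf, mult_mul (fl_an P hA (by linarith)) (hg_an z) (hg_ne z)]
    · obtain ⟨g1, g2, g3, g4⟩ := hball _ z (hS z hz).1
      refine ⟨⟨by linarith, by linarith⟩, ?_⟩
      rw [abs_le]
      constructor <;> linarith)
  -- the bound on the segment
  have hseg' : ∀ x : ℝ, σ ≤ x → x ≤ 2 → ‖Fl P A ⟨x, T⟩‖ ≤ T ^ (x - 1 / 2 + 3 * e) := by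
    intro x hx1 hx2
    have hpos : 0 < T ^ (x - 1 / 2) := by positivity
    rcases le_or_gt x (1 + 4 * η) with hx3 | hx3
    · have g1 := key ⟨x, T⟩ (by
        rw [mem_closedBall, dist_eq_norm]
        refine (Complex.norm_le_abs_re_add_abs_im _).trans ?_
        rw [Complex.sub_re, Complex.sub_im]
        simp only [hc₀, sub_self, abs_zero, add_zero]
        rw [abs_le]
        constructor <;> linarith)
      rw [hexp] at g1
      simp only [hf] at g1
      rw [norm_mul, hg_norm] at g1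
      have g2 : ‖Fl P A ⟨x, T⟩‖ = (‖Fl P A ⟨x, T⟩‖ * (T ^ (-(x - 1 / 2)) * (L ^ d)⁻¹)) *
          (T ^ (x - 1 / 2) * L ^ d) := by
        have e2 : T ^ (x - 1 / 2) * T ^ (-(x - 1 / 2)) = 1 := by
          rw [← Real.rpow_add hT0]; simp
        have e3 : L ^ d * (L ^ d)⁻¹ = 1 := mul_inv_cancel₀ hLd.ne'
        calc ‖Fl P A ⟨x, T⟩‖ = ‖Fl P A ⟨x, T⟩‖ * (L ^ d * (L ^ d)⁻¹) *
              (T ^ (x - 1 / 2) * T ^ (-(x - 1 / 2))) := by rw [e2, e3]; ring
          _ = _ := by ring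
      rw [g2]
      calc (‖Fl P A ⟨x, T⟩‖ * (T ^ (-(x - 1 / 2)) * (L ^ d)⁻¹)) * (T ^ (x - 1 / 2) * L ^ d)
          ≤ T ^ e * (T ^ (x - 1 / 2) * T ^ e) := by
            apply mul_le_mul g1 _ (by positivity) (by positivity)
            exact mul_le_mul_of_nonneg_left (hT5 T f5) hpos.le
        _ = T ^ (x - 1 / 2 + 2 * e) := by
            rw [← Real.rpow_add hT0, ← Real.rpow_add hT0]; congr 1; ring
        _ ≤ _ := Real.rpow_le_rpow_of_exponent_le (by linarith) (by linarith)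
    · have g5 := (hcen ⟨x, T⟩ (by simp only; linarith) (by simp only; linarith)
        (by simp only; linarith)).2
      have g6 := (hX ⟨x, T⟩ (by simp only; linarith) (by simp only; linarith)
        (by simp only; linarith)).2
      simp only at g5 g6
      calc ‖Fl P A ⟨x, T⟩‖ ≤ C * L ^ d * ‖XX ⟨x, T⟩‖ := g5
        _ ≤ C * L ^ d * (Real.exp K * T ^ (x - 1 / 2)) := mul_le_mul_of_nonneg_left g6 (by positivity)
        _ = (C * Real.exp K) * L ^ d * T ^ (x - 1 / 2) := by ring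
        _ ≤ T ^ e * T ^ e * T ^ (x - 1 / 2) := by
            apply mul_le_mul_of_nonneg_right _ hpos.le
            exact mul_le_mul (hT6 T f6) (hT5 T f5) hLd.le (by positivity)
        _ = T ^ (x - 1 / 2 + 2 * e) := by
            rw [← Real.rpow_add hT0, ← Real.rpow_add hT0]; congr 1; ring
        _ ≤ _ := Real.rpow_le_rpow_of_exponent_le (by linarith) (by linarith)
  have hseg : ∀ x : ℝ, σ ≤ x → x ≤ 2 → ‖Gl P ⟨x, T⟩‖ ≤ T ^ (x - 1 / 2 + 4 * e) := by
    intro x hx1 hx2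
    have g1 := hseg' x hx1 hx2
    have g2 : ‖A (1 - ⟨x, T⟩)‖ ≤ M := hA.2 _ (by
      rw [Complex.sub_re, Complex.one_re]; simp only; linarith)
    have g3 : Gl P ⟨x, T⟩ = Fl P A ⟨x, T⟩ + A (1 - ⟨x, T⟩) := by unfold Fl; ring
    have g4 : 1 ≤ T ^ (x - 1 / 2 + 3 * e) := Real.one_le_rpow (by linarith) (by linarith)
    rw [g3]
    calc ‖Fl P A ⟨x, T⟩ + A (1 - ⟨x, T⟩)‖ ≤ T ^ (x - 1 / 2 + 3 * e) + M :=
          (norm_add_le _ _).trans (by linarith)
      _ ≤ (1 + M) * T ^ (x - 1 / 2 + 3 * e) := by nlinarith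
      _ ≤ T ^ e * T ^ (x - 1 / 2 + 3 * e) := mul_le_mul_of_nonneg_right (hT9 T f11) (by positivity)
      _ = _ := by rw [← Real.rpow_add hT0]; congr 1; ring
  -- the differential equation
  set q : ℝ := max 0 (m - (σ' - σ)) with hq
  have hq1 : 0 ≤ q := le_max_left _ _
  have hq2 : m - (σ' - σ) ≤ q := le_max_right _ _
  have hfin := hode riemannZeta (1 - ⟨σ, T⟩) (σ' - σ) (T ^ (σ' - 1 / 2 + q + 4 * e)) (by linarith)
    (by linarith) (by positivity) (by
      intro u hu1 hu2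
      have e1 : (1 - ⟨σ, T⟩ - (u : ℂ)) = 1 - (⟨σ + u, T⟩ : ℂ) := by
        apply Complex.ext
        · simp; ring
        · simp
      rw [e1]
      exact zeta_an' (by simpa using hT0)) (by
      intro j hj
      have g1 := (hT7 ⟨σ, T⟩ le_rfl (by simp only; linarith) f7).2 j hj
      refine g1.trans ?_
      exact Real.rpow_le_rpow_of_exponent_le (by linarith) (by simp only; linarith)) (by
      intro u hu1 hu2
      have e1 : (1 - ⟨σ, T⟩ - (u : ℂ)) = 1 - (⟨σ + u, T⟩ : ℂ) := by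
        apply Complex.ext
        · simp; ring
        · simp
      rw [e1]
      have g1 := hseg (σ + u) (by linarith) (by linarith)
      refine g1.trans ?_
      exact Real.rpow_le_rpow_of_exponent_le (by linarith) (by linarith))
  have e1 : (1 - ⟨σ, T⟩ - ((σ' - σ : ℝ) : ℂ)) = 1 - (⟨σ', T⟩ : ℂ) := by
    apply Complex.ext
    · simp
    · simp
  rw [e1, zfe (by simp only; linarith), norm_mul] at hfin
  have g6 := (hX ⟨σ', T⟩ (by simp only; linarith) (by simp only; linarith)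
        (by simp only; linarith)).1
  simp only at g6
  have hp' : 0 < T ^ (σ' - 1 / 2) := by positivity
  have g7 : Real.exp (-K) * T ^ (σ' - 1 / 2) * ‖riemannZeta ⟨σ', T⟩‖ ≤
      C₁ * T ^ (σ' - 1 / 2 + q + 4 * e) :=
    (mul_le_mul_of_nonneg_right g6 (norm_nonneg _)).trans hfin
  have g8 : ‖riemannZeta ⟨σ', T⟩‖ ≤ C₁ * Real.exp K * T ^ (q + 4 * e) := by
    have e2 : T ^ (σ' - 1 / 2 + q + 4 * e) = T ^ (σ' - 1 / 2) * T ^ (q + 4 * e) := by
      rw [← Real.rpow_add hT0]; congr 1; ring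
    rw [e2] at g7
    have e3 : Real.exp K * Real.exp (-K) = 1 := by rw [← Real.exp_add]; simp
    have e4 : ‖riemannZeta ⟨σ', T⟩‖ * T ^ (σ' - 1 / 2) ≤
        (C₁ * Real.exp K * T ^ (q + 4 * e)) * T ^ (σ' - 1 / 2) := by
      calc ‖riemannZeta ⟨σ', T⟩‖ * T ^ (σ' - 1 / 2) = (Real.exp K * Real.exp (-K)) *
            (‖riemannZeta ⟨σ', T⟩‖ * T ^ (σ' - 1 / 2)) := by rw [e3, one_mul]
        _ = Real.exp K * (Real.exp (-K) * T ^ (σ' - 1 / 2) * ‖riemannZeta ⟨σ', T⟩‖) := by ring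
        _ ≤ Real.exp K * (C₁ * (T ^ (σ' - 1 / 2) * T ^ (q + 4 * e))) :=
            mul_le_mul_of_nonneg_left g7 (Real.exp_pos _).le
        _ = _ := by ring
    exact le_of_mul_le_mul_right e4 hp'
  refine g8.trans ?_
  calc C₁ * Real.exp K * T ^ (q + 4 * e) ≤ T ^ e * T ^ (q + 4 * e) :=
        mul_le_mul_of_nonneg_right (hT8 T f8) (by positivity)
    _ = T ^ (q + κ) := by
        rw [← Real.rpow_add hT0]; congr 1; rw [he]; ring
    _ ≤ _ := Real.rpow_le_rpow_of_exponent_le (by linarith) (by linarith)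

end Pool.Agent.L7h13.SP
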