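import Pool.Agent.L7h13.SP.Win

/-!
# The Lindelöf exponent gives few zeros to the left
-/

set_option autoImplicit false

open Complex Set Metric Polynomial

namespace Pool.Agent.L7h13.SP

open H345 H345.Chi H370

/-- entire, and bounded to the right of `-3` -/
def Good (A : ℂ → ℂ) (M : ℝ) : Prop := (∀ s, AnalyticAt ℂ A s) ∧ ∀ s : ℂ, -3 ≤ s.re → ‖A s‖ ≤ M

lemma Good.nonneg {A : ℂ → ℂ} {M : ℝ} (h : Good A M) : 0 ≤ M :=
  (norm_nonneg _).trans (h.2 0 (by simp))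

/-- the perturbed function at `1 - w` -/
noncomputable def Fl (P : ℂ[X]) (A : ℂ → ℂ) (w : ℂ) : ℂ := Gl P w - A (1 - w)

lemma fl_an (P : ℂ[X]) {A : ℂ → ℂ} {M : ℝ} (hA : Good A M) {w : ℂ} (hw : 0 < w.im) :
    AnalyticAt ℂ (Fl P A) w := by
  have h1 : AnalyticAt ℂ (fun w => A (1 - w)) w :=
    AnalyticAt.comp (g := A) (f := fun w : ℂ => 1 - w) (hA.1 _) (by fun_prop)
  exact (gl_an P hw).sub h1

/-- the size of `Fl` in `Re w ≥ 1 + η` -/
lemma cenA {P : ℂ[X]} (hP : P ≠ 0) {A : ℂ → ℂ} {M : ℝ} (hA : Good A M) {η : ℝ} (hη : 0 < η)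
    (hη1 : η ≤ 1 / 2) :
    ∃ c C T₀ : ℝ, 0 < c ∧ 0 < C ∧ 3 ≤ T₀ ∧ ∀ w : ℂ, 1 + η ≤ w.re → w.re ≤ 7 / 2 → T₀ ≤ w.im →
      c * Real.log w.im ^ P.natDegree * ‖XX w‖ ≤ ‖Fl P A w‖ ∧
      ‖Fl P A w‖ ≤ C * Real.log w.im ^ P.natDegree * ‖XX w‖ := by
  obtain ⟨c, C, T₁, hc, hC, hT1, h⟩ := cen hP hη hη1
  obtain ⟨K, hK, hX⟩ := XX_size
  obtain ⟨T₂, hT21, hT2⟩ := absorb (2 * M * Real.exp K / c) (ε := 1 / 2) (by norm_num)
  have hM := hA.nonneg
  refine ⟨c / 2, C + c / 2, T₁ + T₂, by positivity, by positivity, by linarith, fun w h1 h2 h3 => ?_⟩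
  have hT0 : 0 < w.im := by linarith
  have hl1 : 1 ≤ Real.log w.im := by
    rw [Real.le_log_iff_exp_le hT0]
    have := Real.exp_one_lt_d9
    linarith
  obtain ⟨h4, h5⟩ := h w h1 h2 (by linarith)
  have h6 := (hX w (by linarith) (by linarith) (by linarith)).1
  have h7 := hT2 w.im (by linarith)
  have h8 : w.im ^ (1 / 2 : ℝ) ≤ w.im ^ (w.re - 1 / 2) :=
    Real.rpow_le_rpow_of_exponent_le (by linarith) (by linarith)
  rw [div_le_iff₀ hc] at h7
  have h9 : M ≤ c / 2 * ‖XX w‖ := by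
    have e1 : Real.exp K * Real.exp (-K) = 1 := by rw [← Real.exp_add]; simp
    have h10 : 2 * M = 2 * M * Real.exp K * Real.exp (-K) := by rw [mul_assoc, e1, mul_one]
    have h11 : 2 * M * Real.exp K * Real.exp (-K) ≤ (w.im ^ (1 / 2 : ℝ) * c) * Real.exp (-K) :=
      mul_le_mul_of_nonneg_right h7 (Real.exp_pos _).le
    have h12 : (w.im ^ (1 / 2 : ℝ) * c) * Real.exp (-K) ≤ c * ‖XX w‖ := by
      calc (w.im ^ (1 / 2 : ℝ) * c) * Real.exp (-K) = c * (Real.exp (-K) * w.im ^ (1 / 2 : ℝ)) := by ring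
        _ ≤ c * (Real.exp (-K) * w.im ^ (w.re - 1 / 2)) := by gcongr
        _ ≤ _ := mul_le_mul_of_nonneg_left h6 hc.le
    linarith
  have h13 : 1 ≤ Real.log w.im ^ P.natDegree := one_le_pow₀ hl1
  have h14 : M ≤ c / 2 * Real.log w.im ^ P.natDegree * ‖XX w‖ := by
    refine h9.trans ?_
    rw [mul_assoc]
    apply mul_le_mul_of_nonneg_left _ (by positivity)
    exact le_mul_of_one_le_left (norm_nonneg _) h13
  have h15 : ‖A (1 - w)‖ ≤ M := hA.2 _ (by rw [Complex.sub_re, Complex.one_re]; linarith)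
  unfold Fl
  constructor
  · have h16 := norm_sub_norm_le (Gl P w) (A (1 - w))
    have h17 : c * Real.log w.im ^ P.natDegree * ‖XX w‖ =
        2 * (c / 2 * Real.log w.im ^ P.natDegree * ‖XX w‖) := by ring
    linarith
  · refine (norm_sub_le _ _).trans ?_
    have h17 : (C + c / 2) * Real.log w.im ^ P.natDegree * ‖XX w‖ =
        C * Real.log w.im ^ P.natDegree * ‖XX w‖ + c / 2 * Real.log w.im ^ P.natDegree * ‖XX w‖ := by ring
    linarith

/-- the size of `Fl` from an exponent -/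
lemma fl_up (P : ℂ[X]) {A : ℂ → ℂ} {M : ℝ} (hA : Good A M) {σ m : ℝ} (h : Exu σ m) (hm : 0 ≤ m)
    (hσ : 1 / 2 < σ) (hσ2 : σ ≤ 2) {ε : ℝ} (hε : 0 < ε) :
    ∃ T₀ : ℝ, 3 ≤ T₀ ∧ ∀ w : ℂ, σ ≤ w.re → w.re ≤ 14 / 5 → T₀ ≤ w.im →
      ‖Fl P A w‖ ≤ w.im ^ (w.re - 1 / 2 + m + ε) := by
  obtain ⟨T₁, hT1, h1⟩ := gl_up P h hm hσ hσ2 (ε := ε / 2) (by positivity)
  obtain ⟨T₂, hT21, hT2⟩ := absorb (1 + M) (ε := ε / 2) (by positivity)
  have hM := hA.nonneg
  refine ⟨T₁ + T₂, by linarith, fun w g1 g2 g3 => ?_⟩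
  have hT0 : 0 < w.im := by linarith
  have g4 := (h1 w g1 g2 (by linarith)).1
  have g5 := hT2 w.im (by linarith)
  have g6 : ‖A (1 - w)‖ ≤ M := hA.2 _ (by rw [Complex.sub_re, Complex.one_re]; linarith)
  have g7 : 1 ≤ w.im ^ (w.re - 1 / 2 + m + ε / 2) := Real.one_le_rpow (by linarith) (by linarith)
  unfold Fl
  calc ‖Gl P w - A (1 - w)‖ ≤ w.im ^ (w.re - 1 / 2 + m + ε / 2) + M := (norm_sub_le _ _).trans (by linarith)
    _ ≤ (1 + M) * w.im ^ (w.re - 1 / 2 + m + ε / 2) := by nlinarith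
    _ ≤ w.im ^ (ε / 2) * w.im ^ (w.re - 1 / 2 + m + ε / 2) := mul_le_mul_of_nonneg_right g5 (by positivity)
    _ = _ := by rw [← Real.rpow_add hT0]; congr 1; ring

/-- the twist -/
noncomputable def tw (L : ℝ) (z : ℂ) : ℂ := Complex.exp (-(z - 1 / 2) * L)

lemma tw_an (L : ℝ) (z : ℂ) : AnalyticAt ℂ (tw L) z := by
  unfold tw
  fun_prop

lemma tw_ne (L : ℝ) (z : ℂ) : tw L z ≠ 0 := Complex.exp_ne_zero _

lemma tw_norm {T : ℝ} (hT : 0 < T) (z : ℂ) : ‖tw (Real.log T) z‖ = T ^ (-(z.re - 1 / 2)) := by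
  unfold tw
  rw [Complex.norm_exp, Real.rpow_def_of_pos hT]
  congr 1
  have : (-(z - 1 / 2) * (Real.log T : ℂ)).re = -(z.re - 1/2) * Real.log T := by
    rw [Complex.re_mul_ofReal]
    simp
  rw [this]; ring

/-- the twisted function is of size `T ^ ε` -/
lemma tw_up {f : ℂ → ℂ} {z : ℂ} {T ε q : ℝ} (hT : 1 ≤ T) (hz1 : 0 < z.im) (hz2 : z.im ≤ 2 * T)
    (h1 : 1 / 2 ≤ z.re) (h2 : z.re ≤ 7 / 2) (hε : 0 ≤ q) (hf : ‖f z‖ ≤ z.im ^ (z.re - 1 / 2 + q))
    (hc : 2 ^ (3 + q) ≤ T ^ ε) : ‖f z * tw (Real.log T) z‖ ≤ T ^ (q + ε) := by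
  have hT0 : 0 < T := by linarith
  rw [norm_mul, tw_norm hT0]
  have h3 : z.im ^ (z.re - 1 / 2 + q) ≤ 2 ^ (3 + q) * T ^ (z.re - 1 / 2 + q) := by
    calc z.im ^ (z.re - 1 / 2 + q) ≤ (2 * T) ^ (z.re - 1 / 2 + q) :=
          Real.rpow_le_rpow hz1.le hz2 (by linarith)
      _ = 2 ^ (z.re - 1 / 2 + q) * T ^ (z.re - 1 / 2 + q) := Real.mul_rpow (by norm_num) hT0.le
      _ ≤ _ := mul_le_mul_of_nonneg_right
          (Real.rpow_le_rpow_of_exponent_le (by norm_num) (by linarith)) (by positivity)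
  calc ‖f z‖ * T ^ (-(z.re - 1 / 2)) ≤ (T ^ ε * T ^ (z.re - 1 / 2 + q)) * T ^ (-(z.re - 1 / 2)) := by
        apply mul_le_mul_of_nonneg_right _ (by positivity)
        exact (hf.trans h3).trans (mul_le_mul_of_nonneg_right hc (by positivity))
    _ = T ^ (q + ε) := by
        rw [← Real.rpow_add hT0, ← Real.rpow_add hT0]
        congr 1; ring

/-- few zeros to the left -/
lemma left_jensen {P : ℂ[X]} (hP : P ≠ 0) {A : ℂ → ℂ} {M : ℝ} (hA : Good A M) {σ₀ : ℝ} (h0 : 1 / 2 ≤ σ₀)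
    (h : ∀ σ : ℝ, σ₀ < σ → σ ≤ 1 → Exu σ 0)
    {δ : ℝ} (hδ : 0 < δ) (hδ1 : δ ≤ 1 / 10) (hδ2 : σ₀ + δ < 1) {ε : ℝ} (hε : 0 < ε) :
    FewU (Fl P A) (Icc (σ₀ + δ) 2) (δ / 4) ε := by
  set R : ℝ := 8 / 5 - σ₀ - δ / 2 with hR
  obtain ⟨η, hη, hJ⟩ := gjensen (R := R) (δ := δ / 4) (by positivity) (by linarith) hε
  obtain ⟨K, hK, hX⟩ := XX_size
  obtain ⟨T₁, hT1, hG⟩ := fl_up P hA (σ := σ₀ + δ / 4) (m := 0) (h _ (by linarith) (by linarith)) le_rfl
    (by linarith) (by linarith) (ε := η / 2) (by positivity)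
  obtain ⟨c, C, T₂, hc0, hC0, hT2, hcen⟩ := cenA hP hA (η := 1 / 2) (by norm_num) le_rfl
  obtain ⟨T₃, hT31, hT3⟩ := absorb (2 ^ (3 + η / 2)) (ε := η / 2) (by positivity)
  obtain ⟨T₄, hT41, hT4⟩ := absorb (1 / (c * Real.exp (-K))) (ε := η) (by positivity)
  refine ⟨max (max (T₁ + 2) T₂) (max (max T₃ T₄) 5), fun T hT S hS => ?_⟩
  have f1 : T₁ + 2 ≤ T := ((le_max_left _ _).trans (le_max_left _ _)).trans hT
  have f2 : T₂ ≤ T := ((le_max_right _ _).trans (le_max_left _ _)).trans hT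
  have f3 : T₃ ≤ T := (((le_max_left _ _).trans (le_max_left _ _)).trans (le_max_right _ _)).trans hT
  have f4 : T₄ ≤ T := (((le_max_right _ _).trans (le_max_left _ _)).trans (le_max_right _ _)).trans hT
  have f5 : 5 ≤ T := ((le_max_right _ _).trans (le_max_right _ _)).trans hT
  have hT0 : 0 < T := by linarith
  have hl1 : 1 ≤ Real.log T := by
    rw [Real.le_log_iff_exp_le hT0]
    have := Real.exp_one_lt_d9
    linarith
  set L := Real.log T with hL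
  have hexp : ∀ p : ℝ, Real.exp (p * L) = T ^ p := fun p => by
    rw [Real.rpow_def_of_pos hT0, mul_comm]
  set f : ℂ → ℂ := fun z => Fl P A z * tw L z with hf
  set c₀ : ℂ := ⟨8 / 5, T⟩ with hc₀
  have hball : ∀ z ∈ closedBall c₀ R, σ₀ + δ / 2 ≤ z.re ∧ z.re ≤ 14 / 5 ∧ T - 2 ≤ z.im ∧ z.im ≤ T + 2 := by
    intro z hz
    rw [mem_closedBall, dist_eq_norm] at hz
    have g1 := abs_le.1 ((Complex.abs_re_le_norm (z - c₀)).trans hz)
    have g2 := abs_le.1 ((Complex.abs_im_le_norm (z - c₀)).trans hz)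
    rw [Complex.sub_re] at g1
    rw [Complex.sub_im] at g2
    simp only [hc₀] at g1 g2
    refine ⟨by linarith, by linarith, by linarith, by linarith⟩
  have key := hJ L (by linarith) f c₀ (by
    intro z hz
    obtain ⟨g1, g2, g3, g4⟩ := hball z hz
    exact (fl_an P hA (by linarith)).mul (tw_an L z)) (by
    intro z hz
    obtain ⟨g1, g2, g3, g4⟩ := hball z hz
    have g5 := hG z (by linarith) g2 (by linarith)
    rw [add_zero] at g5
    have g6 := tw_up (f := Fl P A) (z := z) (T := T) (ε := η / 2) (q := η / 2) (by linarith) (by linarith)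
      (by linarith) (by linarith) (by linarith) (by positivity) g5 (hT3 T f3)
    rw [hexp]
    refine g6.trans (le_of_eq ?_)
    congr 1; ring) (by
    have g1 := (hcen c₀ (by simp only [hc₀]; norm_num) (by simp only [hc₀]; norm_num) f2).1
    have g2 := (hX c₀ (by simp only [hc₀]; norm_num) (by simp only [hc₀]; norm_num)
      (by simp only [hc₀]; linarith)).1
    have e1 : c₀.im = T := rfl
    have e2 : c₀.re = 8 / 5 := rfl
    rw [e1] at g1 g2
    simp only [hf]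
    rw [norm_mul, hL, tw_norm hT0, ← hL, show -(η * L) = (-η) * L by ring, hexp]
    have g3 : T ^ (-η) ≤ c * Real.exp (-K) := by
      have g4 := hT4 T f4
      have g5 : 0 < c * Real.exp (-K) := by positivity
      rw [Real.rpow_neg hT0.le]
      rw [inv_le_comm₀ (by positivity) g5, ← one_div]
      exact g4
    have g6 : 1 ≤ L ^ P.natDegree := one_le_pow₀ hl1
    calc T ^ (-η) ≤ c * Real.exp (-K) := g3
      _ = c * 1 * (Real.exp (-K) * T ^ (c₀.re - 1 / 2)) * T ^ (-(c₀.re - 1 / 2)) := by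
          have : T ^ (c₀.re - 1 / 2) * T ^ (-(c₀.re - 1 / 2)) = 1 := by
            rw [← Real.rpow_add hT0]; simp
          rw [mul_assoc _ _ (T ^ (-(c₀.re - 1 / 2))), mul_assoc (Real.exp (-K)), this]
          ring
      _ ≤ c * L ^ P.natDegree * ‖XX c₀‖ * T ^ (-(c₀.re - 1 / 2)) := by gcongr
      _ ≤ _ := mul_le_mul_of_nonneg_right g1 (by positivity))
    S (by
      intro z hz
      obtain ⟨g1, g2⟩ := hS z hz
      rw [mem_closedBall, dist_eq_norm]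
      refine (Complex.norm_le_abs_re_add_abs_im _).trans ?_
      rw [Complex.sub_re, Complex.sub_im]
      simp only [hc₀]
      have g3 : |z.re - 8 / 5| ≤ 8 / 5 - σ₀ - δ := by
        rw [abs_le]
        constructor
        · linarith [g1.1]
        · linarith [g1.2]
      linarith)
  refine le_trans (le_of_eq ?_) key
  apply Finset.sum_congr rfl
  intro z hz
  obtain ⟨g1, g2⟩ := hS z hz
  have g3 := abs_le.1 g2
  rw [hf, mult_mul (fl_an P hA (by linarith)) (tw_an L z) (tw_ne L z)]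

end Pool.Agent.L7h13.SP
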