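import Pool.Agent.L7h13.SP.Dir

/-!
# The right side
-/

set_option autoImplicit false

open Complex Set Metric Polynomial

namespace Pool.Agent.L7h13.SP

open H370

lemma op_an (P : ℂ[X]) {s : ℂ} (hs : 0 < s.im) : AnalyticAt ℂ (Op P riemannZeta) s :=
  op_analytic P (zeta_an hs)

lemma ball_dc {s : ℂ} {ρ : ℝ} (hρ : 0 < ρ) (hs : ρ < s.im) : DiffContOnCl ℂ riemannZeta (ball s ρ) := by
  refine DifferentiableOn.diffContOnCl ?_
  rw [closure_ball _ hρ.ne']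
  intro z hz
  rw [mem_closedBall, dist_eq_norm] at hz
  have h2 := abs_le.1 ((Complex.abs_im_le_norm (z - s)).trans hz)
  rw [Complex.sub_im] at h2
  exact (zeta_an (by linarith)).differentiableAt.differentiableWithinAt

/-- the size of `Op P ζ` to the right of an exponent -/
lemma op_up (P : ℂ[X]) {σ m : ℝ} (h : Exu σ m) (hm : 0 ≤ m) (hσ0 : -1 ≤ σ) (hσ : σ < 3) {ρ : ℝ} (hρ : 0 < ρ)
    {ε : ℝ} (hε : 0 < ε) : ∃ T₀ : ℝ, 1 ≤ T₀ ∧ ∀ s : ℂ, σ + ρ ≤ s.re → T₀ ≤ s.im →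
      ‖Op P riemannZeta s‖ ≤ s.im ^ (m + ε) := by
  obtain ⟨T₁, hT1, hT⟩ := h.right hm hσ0 hσ (ε := ε / 2) (by positivity)
  obtain ⟨A, hA1, hA⟩ := Pool.Agent.Y757.LS.zeta_bounds (a := 2) (by norm_num)
  obtain ⟨C, hC1, hC⟩ := op_le P hρ
  obtain ⟨T₂, hT21, hT2⟩ := absorb (C * A * 2 ^ (m + ε / 2)) (ε := ε / 2) (by positivity)
  refine ⟨T₁ + T₂ + 2 * ρ, by linarith, fun s h1 h2 => ?_⟩
  have hT0 : 0 < s.im := by linarith
  have hM : ∀ z ∈ sphere s ρ, ‖riemannZeta z‖ ≤ A * 2 ^ (m + ε / 2) * s.im ^ (m + ε / 2) := by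
    intro z hz
    rw [mem_sphere, dist_eq_norm] at hz
    have g1 := abs_le.1 ((Complex.abs_re_le_norm (z - s)).trans hz.le)
    have g2 := abs_le.1 ((Complex.abs_im_le_norm (z - s)).trans hz.le)
    rw [Complex.sub_re] at g1
    rw [Complex.sub_im] at g2
    have hz0 : 0 < z.im := by linarith
    have g3 : z.im ^ (m + ε / 2) ≤ 2 ^ (m + ε / 2) * s.im ^ (m + ε / 2) := by
      rw [← Real.mul_rpow (by norm_num) hT0.le]
      exact Real.rpow_le_rpow hz0.le (by linarith) (by linarith)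
    have g4 : 1 ≤ 2 ^ (m + ε / 2) * s.im ^ (m + ε / 2) := by
      have g5 : (1:ℝ) ≤ 2 ^ (m + ε / 2) := Real.one_le_rpow (by norm_num) (by linarith)
      have g6 : (1:ℝ) ≤ s.im ^ (m + ε / 2) := Real.one_le_rpow (by linarith) (by linarith)
      nlinarith
    rw [mul_assoc]
    rcases le_or_gt z.re 3 with h3 | h3
    · have g5 := hT z (by linarith) h3 (by linarith)
      calc ‖riemannZeta z‖ ≤ 1 * (2 ^ (m + ε / 2) * s.im ^ (m + ε / 2)) := by
            rw [one_mul]; exact g5.trans g3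
        _ ≤ _ := mul_le_mul_of_nonneg_right hA1 (by positivity)
    · have g5 := (hA z (by linarith)).1
      calc ‖riemannZeta z‖ ≤ A * 1 := by rw [mul_one]; exact g5
        _ ≤ _ := mul_le_mul_of_nonneg_left g4 (by linarith)
  have h3 := hC riemannZeta s _ (by positivity) (ball_dc hρ (by linarith)) hM
  refine h3.trans ?_
  calc C * (A * 2 ^ (m + ε / 2) * s.im ^ (m + ε / 2)) = (C * A * 2 ^ (m + ε / 2)) *
        s.im ^ (m + ε / 2) := by ring
    _ ≤ s.im ^ (ε / 2) * s.im ^ (m + ε / 2) :=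
        mul_le_mul_of_nonneg_right (hT2 _ (by linarith)) (by positivity)
    _ = s.im ^ (m + ε) := by rw [← Real.rpow_add hT0]; congr 1; ring

lemma op_far (P : ℂ[X]) : ∃ C : ℝ, 1 ≤ C ∧ ∀ s : ℂ, 3 ≤ s.re → 2 ≤ s.im → ‖Op P riemannZeta s‖ ≤ C := by
  obtain ⟨A, hA1, hA⟩ := Pool.Agent.Y757.LS.zeta_bounds (a := 2) (by norm_num)
  obtain ⟨C, hC1, hC⟩ := op_le P (r := 1) one_pos
  refine ⟨C * A, by nlinarith, fun s h1 h2 => ?_⟩
  refine hC riemannZeta s A (by linarith) (ball_dc one_pos (by linarith)) fun z hz => ?_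
  rw [mem_sphere, dist_eq_norm] at hz
  have g1 := abs_le.1 ((Complex.abs_re_le_norm (z - s)).trans hz.le)
  rw [Complex.sub_re] at g1
  exact (hA z (by linarith)).1

/-- the perturbed function -/
noncomputable def Fr (P : ℂ[X]) (N : ℕ) (b : ℕ → ℂ) (s : ℂ) : ℂ := Op P riemannZeta s - DP N b s

lemma fr_an (P : ℂ[X]) (N : ℕ) (b : ℕ → ℂ) {s : ℂ} (hs : 0 < s.im) : AnalyticAt ℂ (Fr P N b) s := by
  obtain ⟨M, hM⟩ := dp_good N b
  exact (op_an P hs).sub (hM.1 s)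

lemma fr_up (P : ℂ[X]) (N : ℕ) (b : ℕ → ℂ) {σ m : ℝ} (h : Exu σ m) (hm : 0 ≤ m) (hσ0 : -1 ≤ σ)
    (hσ : σ < 3) {ρ : ℝ} (hρ : 0 < ρ) {ε : ℝ} (hε : 0 < ε) : ∃ T₀ : ℝ, 1 ≤ T₀ ∧ ∀ s : ℂ,
      σ + ρ ≤ s.re → T₀ ≤ s.im → ‖Fr P N b s‖ ≤ s.im ^ (m + ε) := by
  obtain ⟨M, hM⟩ := dp_good N b
  have hM0 := hM.nonneg
  obtain ⟨T₁, hT1, h1⟩ := op_up P h hm hσ0 hσ hρ (ε := ε / 2) (by positivity)
  obtain ⟨T₂, hT21, hT2⟩ := absorb (1 + M) (ε := ε / 2) (by positivity)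
  refine ⟨T₁ + T₂, by linarith, fun s g1 g2 => ?_⟩
  have hT0 : 0 < s.im := by linarith
  have g4 := h1 s g1 (by linarith)
  have g5 := hT2 s.im (by linarith)
  have g6 : ‖DP N b s‖ ≤ M := hM.2 _ (by linarith)
  have g7 : 1 ≤ s.im ^ (m + ε / 2) := Real.one_le_rpow (by linarith) (by linarith)
  unfold Fr
  calc ‖Op P riemannZeta s - DP N b s‖ ≤ s.im ^ (m + ε / 2) + M := (norm_sub_le _ _).trans (by linarith)
    _ ≤ (1 + M) * s.im ^ (m + ε / 2) := by nlinarith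
    _ ≤ s.im ^ (ε / 2) * s.im ^ (m + ε / 2) := mul_le_mul_of_nonneg_right g5 (by positivity)
    _ = _ := by rw [← Real.rpow_add hT0]; congr 1; ring

lemma fr_far (P : ℂ[X]) (N : ℕ) (b : ℕ → ℂ) : ∃ C : ℝ, 1 ≤ C ∧ ∀ s : ℂ, 3 ≤ s.re → 2 ≤ s.im →
    ‖Fr P N b s‖ ≤ C := by
  obtain ⟨M, hM⟩ := dp_good N b
  have hM0 := hM.nonneg
  obtain ⟨C, hC1, hC⟩ := op_far P
  refine ⟨C + M, by linarith, fun s h1 h2 => ?_⟩
  have g6 : ‖DP N b s‖ ≤ M := hM.2 _ (by linarith)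
  exact (norm_sub_le _ _).trans (add_le_add (hC s h1 h2) g6)

/-- few zeros to the right -/
lemma right_jensen {P : ℂ[X]} (hP : P ≠ 0) (N : ℕ) (b : ℕ → ℂ) {σ₀ : ℝ} (h0 : 1 / 2 ≤ σ₀)
    (h : ∀ σ : ℝ, σ₀ < σ → σ ≤ 1 → Exu σ 0)
    {δ : ℝ} (hδ : 0 < δ) (hδ1 : δ ≤ 1 / 10) (hδ2 : σ₀ + δ < 1) {ε : ℝ} (hε : 0 < ε) :
    FewU (Fr P N b) (Ici (σ₀ + δ)) (δ / 4) ε := by
  classical
  obtain ⟨n₀, c, X, hn0, hc0, hX4, hlow'⟩ := rlow hP N b
  have hlow : ∀ s : ℂ, X ≤ s.re → c * (n₀ : ℝ) ^ (-s.re) ≤ ‖Fr P N b s‖ := hlow'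
  have hn0' : (0:ℝ) < n₀ := by exact_mod_cast (by omega : 0 < n₀)
  set R : ℝ := X - σ₀ - δ / 2 with hR
  obtain ⟨η, hη, hJ⟩ := gjensen (R := R) (δ := δ / 4) (by positivity) (by linarith) hε
  obtain ⟨T₁, hT1, hG⟩ := fr_up P N b (σ := σ₀ + δ / 4) (m := 0) (h _ (by linarith) (by linarith)) le_rfl
    (by linarith) (by linarith) (ρ := δ / 4) (by positivity) (ε := η / 2) (by positivity)
  obtain ⟨T₃, hT31, hT3⟩ := absorb (2 ^ (η / 2)) (ε := η / 2) (by positivity)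
  obtain ⟨T₄, hT41, hT4⟩ := absorb (1 / (c * (n₀ : ℝ) ^ (-X))) (ε := η) (by positivity)
  refine ⟨T₁ + T₃ + T₄ + X + 5, fun T hT S hS => ?_⟩
  have hT0 : 0 < T := by linarith
  have hl1 : 1 ≤ Real.log T := by
    rw [Real.le_log_iff_exp_le hT0]
    have := Real.exp_one_lt_d9
    linarith
  set L := Real.log T with hL
  have hexp : ∀ p : ℝ, Real.exp (p * L) = T ^ p := fun p => by
    rw [Real.rpow_def_of_pos hT0, mul_comm]
  set c₀ : ℂ := ⟨X, T⟩ with hc₀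
  have hball : ∀ z ∈ closedBall c₀ R, σ₀ + δ / 2 ≤ z.re ∧ T - X ≤ z.im ∧ z.im ≤ T + X := by
    intro z hz
    rw [mem_closedBall, dist_eq_norm] at hz
    have g1 := abs_le.1 ((Complex.abs_re_le_norm (z - c₀)).trans hz)
    have g2 := abs_le.1 ((Complex.abs_im_le_norm (z - c₀)).trans hz)
    rw [Complex.sub_re] at g1
    rw [Complex.sub_im] at g2
    simp only [hc₀] at g1 g2
    refine ⟨by linarith, by linarith, by linarith⟩
  rw [← Finset.sum_filter_add_sum_filter_not S (fun z => z.re ≤ X)]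
  have hz0 : ∑ z ∈ S.filter (fun z => ¬ z.re ≤ X), (mult (Fr P N b) z : ℝ) = 0 := by
    apply Finset.sum_eq_zero
    intro z hz
    rw [Finset.mem_filter, not_le] at hz
    have g1 := hlow z hz.2.le
    have g2 := abs_le.1 (hS z hz.1).2
    have g3 : 0 < c * (n₀ : ℝ) ^ (-z.re) := by positivity
    rw [mult_pos_zero (fr_an P N b (by linarith)) (norm_pos_iff.1 (by linarith))]
    exact Nat.cast_zero
  rw [hz0, add_zero]
  refine hJ L (by linarith) (Fr P N b) c₀ (by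
    intro z hz
    obtain ⟨g1, g2, g3⟩ := hball z hz
    exact fr_an P N b (by linarith)) (by
    intro z hz
    obtain ⟨g1, g2, g3⟩ := hball z hz
    have g5 := hG z (by linarith) (by linarith)
    rw [zero_add] at g5
    rw [hexp]
    refine g5.trans ?_
    calc z.im ^ (η / 2) ≤ (2 * T) ^ (η / 2) :=
          Real.rpow_le_rpow (by linarith) (by linarith) (by positivity)
      _ = 2 ^ (η / 2) * T ^ (η / 2) := Real.mul_rpow (by norm_num) hT0.le
      _ ≤ T ^ (η / 2) * T ^ (η / 2) := mul_le_mul_of_nonneg_right (hT3 T (by linarith)) (by positivity)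
      _ = T ^ η := by rw [← Real.rpow_add hT0]; congr 1; ring) (by
    have g1 := hlow c₀ le_rfl
    refine le_trans ?_ g1
    rw [show -(η * L) = (-η) * L by ring, hexp]
    have g4 := hT4 T (by linarith)
    have e1 : c₀.re = X := rfl
    rw [e1]
    have g5 : 0 < c * (n₀ : ℝ) ^ (-X) := by positivity
    rw [Real.rpow_neg hT0.le]
    rw [inv_le_comm₀ (by positivity) g5, ← one_div]
    exact g4)
    _ (by
      intro z hz
      rw [Finset.mem_filter] at hz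
      obtain ⟨g1, g2⟩ := hS z hz.1
      rw [mem_closedBall, dist_eq_norm]
      refine (Complex.norm_le_abs_re_add_abs_im _).trans ?_
      rw [Complex.sub_re, Complex.sub_im]
      simp only [hc₀]
      have g4 : σ₀ + δ ≤ z.re := g1
      have g3 : |z.re - X| ≤ X - σ₀ - δ := by
        rw [abs_le]
        constructor
        · linarith
        · linarith [hz.2]
      linarith)

/-- few zeros to the right give the bound -/
lemma right_back {P : ℂ[X]} (hP : P ≠ 0) (N : ℕ) (b : ℕ → ℂ) {σ₀ : ℝ} (h0 : 1 / 2 ≤ σ₀)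
    {σ : ℝ} (hσ : σ₀ < σ) (hσ1 : σ ≤ 1) {κ : ℝ} (hκ : 0 < κ) :
    ∃ θ : ℝ, 0 < θ ∧ (FewU (Fr P N b) (Ici σ₀) 1 θ → Exu σ κ) := by
  obtain ⟨n₀, c, X, hn0, hc0, hX4, hlow'⟩ := rlow hP N b
  have hlow : ∀ s : ℂ, X ≤ s.re → c * (n₀ : ℝ) ^ (-s.re) ≤ ‖Fr P N b s‖ := hlow'
  have hn0' : (0:ℝ) < n₀ := by exact_mod_cast (by omega : 0 < n₀)
  obtain ⟨C, hC1, hfar⟩ := fr_far P N b
  set δ : ℝ := (σ - σ₀) / 4 with hδ
  have hδ0 : 0 < δ := by rw [hδ]; linarith
  set R : ℝ := X - σ + 2 * δ with hR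
  set e : ℝ := κ / 3 with he
  have he0 : 0 < e := by positivity
  set B : ℝ := C + 1 / (c * (n₀ : ℝ) ^ (-X)) with hB
  have hcX : 0 < c * (n₀ : ℝ) ^ (-X) := by positivity
  have hB1 : C ≤ B := by
    have : 0 ≤ 1 / (c * (n₀ : ℝ) ^ (-X)) := by positivity
    linarith
  obtain ⟨θ, hθ, L₀, hBL⟩ := gbacklund (R := R) (δ := δ) (r := 1) (A := 7) (B := B) hδ0
    (by linarith) one_pos (by linarith) (by norm_num) (by linarith) he0
  obtain ⟨c', hc', hcov⟩ := FewU.cover (f := Fr P N b) (E := Ici σ₀) one_pos R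
  refine ⟨θ / c', by positivity, fun h => ?_⟩
  intro ε hε
  obtain ⟨T₁, hT1, hG⟩ := fr_up P N b (σ := σ - 3 * δ) (m := 5) (exu_five (by linarith)) (by norm_num)
    (by linarith) (by linarith) (ρ := δ) hδ0 (ε := 1) one_pos
  have hcov' := hcov _ (by positivity) h
  rw [mul_div_cancel₀ _ hc'.ne'] at hcov'
  obtain ⟨T₃, hT3⟩ := hcov'
  obtain ⟨M, hM⟩ := dp_good N b
  have hM0 := hM.nonneg
  obtain ⟨T₆, hT61, hT6⟩ := absorb (1 + M) he0
  obtain ⟨T₄, hT41, hT4⟩ := absorb (2 ^ (6 : ℝ)) (ε := 1) one_pos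
  obtain ⟨C₁, hC1', hode⟩ := ode P hP 3
  obtain ⟨A, hA1, hA⟩ := Pool.Agent.Y757.LS.zeta_bounds (a := 2) (by norm_num)
  set D : ℝ := ∑ j ∈ Finset.range P.natDegree, (j.factorial / (1:ℝ) ^ j : ℝ) * A with hD
  obtain ⟨T₅, hT51, hT5⟩ := absorb (C₁ * (D + C + 1)) he0
  have hD0 : 0 ≤ D := Finset.sum_nonneg fun j _ => by positivity
  refine ⟨T₁ + |T₃| + T₄ + T₅ + T₆ + Real.exp |L₀| + 2 * X + 10, fun T hT => ?_⟩
  have p3 := abs_nonneg T₃
  have pL := Real.exp_pos |L₀|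
  have hT0 : 0 < T := by linarith
  have hl1 : 1 ≤ Real.log T := by
    rw [Real.le_log_iff_exp_le hT0]
    have := Real.exp_one_lt_d9
    linarith
  have hL0 : L₀ ≤ Real.log T := (le_abs_self L₀).trans
    ((Real.le_log_iff_exp_le hT0).2 (by linarith))
  have f3' := hT3 T (by linarith [le_abs_self T₃])
  set L := Real.log T with hL
  have hexp : ∀ p : ℝ, Real.exp (p * L) = T ^ p := fun p => by
    rw [Real.rpow_def_of_pos hT0, mul_comm]
  set c₀ : ℂ := ⟨X, T⟩ with hc₀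
  have hball : ∀ (ρ : ℝ) (z : ℂ), z ∈ closedBall c₀ ρ → X - ρ ≤ z.re ∧ T - ρ ≤ z.im ∧ z.im ≤ T + ρ := by
    intro ρ z hz
    rw [mem_closedBall, dist_eq_norm] at hz
    have g1 := abs_le.1 ((Complex.abs_re_le_norm (z - c₀)).trans hz)
    have g2 := abs_le.1 ((Complex.abs_im_le_norm (z - c₀)).trans hz)
    rw [Complex.sub_re] at g1
    rw [Complex.sub_im] at g2
    simp only [hc₀] at g1 g2
    refine ⟨by linarith, by linarith, by linarith⟩
  have hRX : R ≤ X := by linarith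
  have key := hBL L hL0 (by linarith) (Fr P N b) c₀ (by
    intro z hz
    obtain ⟨g1, g2, g3⟩ := hball R z hz
    exact fr_an P N b (by linarith)) (by
    intro z hz
    obtain ⟨g1, g2, g3⟩ := hball R z hz
    have g5 := hG z (by linarith) (by linarith)
    rw [hexp]
    refine g5.trans ?_
    calc z.im ^ ((5:ℝ) + 1) = z.im ^ (6:ℝ) := by norm_num
      _ ≤ (2 * T) ^ (6:ℝ) := Real.rpow_le_rpow (by linarith) (by linarith) (by positivity)
      _ = 2 ^ (6:ℝ) * T ^ (6:ℝ) := Real.mul_rpow (by norm_num) hT0.le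
      _ ≤ T ^ (1:ℝ) * T ^ (6:ℝ) := mul_le_mul_of_nonneg_right (hT4 T (by linarith)) (by positivity)
      _ = T ^ (7:ℝ) := by rw [← Real.rpow_add hT0]; norm_num) (by
    intro z hz
    obtain ⟨g1, g2, g3⟩ := hball 1 z hz
    exact (hfar z (by linarith) (by linarith)).trans hB1) (by
    have g1 := hlow c₀ le_rfl
    refine le_trans ?_ g1
    have e1 : c₀.re = X := rfl
    rw [e1, div_le_iff₀ (by linarith)]
    have g6 : 1 / (c * (n₀ : ℝ) ^ (-X)) ≤ B := by linarith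
    rw [div_le_iff₀ hcX] at g6
    linarith) (by
    intro S hS
    refine f3' S fun z hz => ?_
    obtain ⟨g1, g2, g3⟩ := hball _ z (hS z hz).1
    refine ⟨?_, ?_⟩
    · simp only [mem_Ici]; linarith
    · rw [abs_le]
      constructor <;> linarith)
  have hseg' : ∀ x : ℝ, σ ≤ x → x ≤ 3 → ‖Fr P N b ⟨x, T⟩‖ ≤ T ^ e := by
    intro x hx1 hx2
    rw [← hexp]
    apply key
    rw [mem_closedBall, dist_eq_norm]
    refine (Complex.norm_le_abs_re_add_abs_im _).trans ?_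
    rw [Complex.sub_re, Complex.sub_im]
    simp only [hc₀, sub_self, abs_zero, add_zero]
    rw [abs_le]
    constructor <;> linarith
  have hseg : ∀ x : ℝ, σ ≤ x → x ≤ 3 → ‖Op P riemannZeta ⟨x, T⟩‖ ≤ T ^ (2 * e) := by
    intro x hx1 hx2
    have g1 := hseg' x hx1 hx2
    have g2 : ‖DP N b ⟨x, T⟩‖ ≤ M := hM.2 _ (by simp only; linarith)
    have g3 : Op P riemannZeta ⟨x, T⟩ = Fr P N b ⟨x, T⟩ + DP N b ⟨x, T⟩ := by unfold Fr; ring
    have g4 : 1 ≤ T ^ e := Real.one_le_rpow (by linarith) he0.le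
    rw [g3]
    calc ‖Fr P N b ⟨x, T⟩ + DP N b ⟨x, T⟩‖ ≤ T ^ e + M := (norm_add_le _ _).trans (by linarith)
      _ ≤ (1 + M) * T ^ e := by nlinarith
      _ ≤ T ^ e * T ^ e := mul_le_mul_of_nonneg_right (hT6 T (by linarith)) (by positivity)
      _ = _ := by rw [← Real.rpow_add hT0]; congr 1; ring
  have hTe : 1 ≤ T ^ (2 * e) := Real.one_le_rpow (by linarith) (by positivity)
  have hfin := hode riemannZeta ⟨3, T⟩ (3 - σ) ((D + C + 1) * T ^ (2 * e)) (by linarith) (by linarith)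
    (by positivity) (by
      intro u hu1 hu2
      apply zeta_an
      simpa using hT0) (by
      intro j hj
      have g1 := iter_le (k := j) (r := 1) (M := A) one_pos
        (ball_dc (s := ⟨3, T⟩) one_pos (by simp only; linarith)) (by
        intro z hz
        rw [mem_sphere, dist_eq_norm] at hz
        have g1 := abs_le.1 ((Complex.abs_re_le_norm (z - ⟨3, T⟩)).trans hz.le)
        rw [Complex.sub_re] at g1
        simp only at g1
        exact (hA z (by linarith)).1)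
      have g2 : (j.factorial / (1:ℝ) ^ j : ℝ) * A ≤ D :=
        Finset.single_le_sum (f := fun j : ℕ => (j.factorial / (1:ℝ) ^ j : ℝ) * A)
          (fun i _ => by positivity) (Finset.mem_range.2 hj)
      calc ‖iteratedDeriv j riemannZeta ⟨3, T⟩‖ ≤ D := g1.trans g2
        _ ≤ (D + C + 1) * 1 := by linarith
        _ ≤ _ := mul_le_mul_of_nonneg_left hTe (by linarith)) (by
      intro u hu1 hu2
      have e1 : (⟨3, T⟩ - (u : ℂ)) = (⟨3 - u, T⟩ : ℂ) := by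
        apply Complex.ext
        · simp
        · simp
      rw [e1]
      have g1 := hseg (3 - u) (by linarith) (by linarith)
      refine g1.trans ?_
      nlinarith)
  have e1 : (⟨3, T⟩ - ((3 - σ : ℝ) : ℂ)) = (⟨σ, T⟩ : ℂ) := by
    apply Complex.ext
    · simp
    · simp
  rw [e1] at hfin
  calc ‖riemannZeta ⟨σ, T⟩‖ ≤ C₁ * ((D + C + 1) * T ^ (2 * e)) := hfin
    _ = (C₁ * (D + C + 1)) * T ^ (2 * e) := by ring
    _ ≤ T ^ e * T ^ (2 * e) := mul_le_mul_of_nonneg_right (hT5 T (by linarith)) (by positivity)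
    _ = T ^ κ := by
        rw [← Real.rpow_add hT0]; congr 1; rw [he]; ring
    _ ≤ _ := Real.rpow_le_rpow_of_exponent_le (by linarith) (by linarith)

end Pool.Agent.L7h13.SP
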