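import Pool.Agent.L7h13.SP.Left

/-!
# Counting zeros in windows
-/

set_option autoImplicit false

open Complex Set Metric Polynomial

namespace Pool.Agent.L7h13.SP

open H370

/-- at most `θ log T` zeros with real part in `E` in the windows `|Im z - T| ≤ y` -/
def FewU (f : ℂ → ℂ) (E : Set ℝ) (y θ : ℝ) : Prop := ∃ T₀ : ℝ, ∀ T : ℝ, T₀ ≤ T →
  ∀ S : Finset ℂ, (∀ z ∈ S, z.re ∈ E ∧ |z.im - T| ≤ y) → ∑ z ∈ S, (mult f z : ℝ) ≤ θ * Real.log T

lemma FewU.mono {f : ℂ → ℂ} {E E' : Set ℝ} {y y' θ : ℝ} (h : FewU f E y θ) (hE : E' ⊆ E) (hy : y' ≤ y) :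
    FewU f E' y' θ := by
  obtain ⟨T₀, hT⟩ := h
  exact ⟨T₀, fun T hT' S hS => hT T hT' S fun z hz => ⟨hE (hS z hz).1, (hS z hz).2.trans hy⟩⟩

lemma FewU.double {f : ℂ → ℂ} {E : Set ℝ} {y θ : ℝ} (hy : 0 < y) (hθ : 0 ≤ θ) (h : FewU f E y θ) :
    FewU f E (2 * y) (4 * θ) := by
  classical
  obtain ⟨T₀, hT⟩ := h
  refine ⟨max (T₀ + y) (max (2 * y) 2), fun T hT' S hS => ?_⟩
  have f1 : T₀ + y ≤ T := (le_max_left _ _).trans hT'
  have f2 : 2 * y ≤ T := ((le_max_left _ _).trans (le_max_right _ _)).trans hT'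
  have f3 : 2 ≤ T := ((le_max_right _ _).trans (le_max_right _ _)).trans hT'
  have h1 := hT (T + y) (by linarith) (S.filter fun z => T ≤ z.im) (by
    intro z hz
    rw [Finset.mem_filter] at hz
    obtain ⟨h2, h3⟩ := hS z hz.1
    refine ⟨h2, ?_⟩
    rw [abs_le] at h3 ⊢
    constructor <;> linarith [hz.2])
  have h2 := hT (T - y) (by linarith) (S.filter fun z => ¬ T ≤ z.im) (by
    intro z hz
    rw [Finset.mem_filter] at hz
    obtain ⟨h2, h3⟩ := hS z hz.1
    have h4 := not_le.1 hz.2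
    refine ⟨h2, ?_⟩
    rw [abs_le] at h3 ⊢
    constructor <;> linarith)
  rw [← Finset.sum_filter_add_sum_filter_not S (fun z => T ≤ z.im)]
  have h3 : Real.log (T + y) ≤ 2 * Real.log T := by
    have : (2:ℝ) * Real.log T = Real.log (T ^ 2) := by rw [Real.log_pow]; norm_num
    rw [this]
    apply Real.log_le_log (by linarith)
    nlinarith
  have h4 : Real.log (T - y) ≤ 2 * Real.log T := by
    have h5 : Real.log (T - y) ≤ Real.log T := Real.log_le_log (by linarith) (by linarith)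
    have h6 : 0 ≤ Real.log T := Real.log_nonneg (by linarith)
    linarith
  have h5 := mul_le_mul_of_nonneg_left h3 hθ
  have h6 := mul_le_mul_of_nonneg_left h4 hθ
  linarith

lemma FewU.cover {f : ℂ → ℂ} {E : Set ℝ} {y : ℝ} (hy : 0 < y) (H : ℝ) : ∃ c : ℝ, 0 < c ∧
    ∀ θ : ℝ, 0 ≤ θ → FewU f E y θ → FewU f E H (c * θ) := by
  obtain ⟨n, hn⟩ := pow_unbounded_of_one_lt (H / y) (show (1:ℝ) < 2 by norm_num)
  rw [div_lt_iff₀ hy] at hn
  refine ⟨4 ^ n, by positivity, fun θ hθ h => ?_⟩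
  have key : ∀ n : ℕ, FewU f E (2 ^ n * y) (4 ^ n * θ) := by
    intro n
    induction n with
    | zero => simpa using h
    | succ k ih =>
      have := ih.double (by positivity) (by positivity)
      rw [pow_succ, pow_succ]
      convert this using 1
      · ring
      · ring
  exact (key n).mono (fun _ h => h) hn.le

lemma mult_mul {f g : ℂ → ℂ} {z : ℂ} (hf : AnalyticAt ℂ f z) (hg : AnalyticAt ℂ g z) (h0 : g z ≠ 0) :
    mult (fun w => f w * g w) z = mult f z := by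
  unfold mult
  unfold analyticOrderNatAt
  have h1 : analyticOrderAt (fun w => f w * g w) z = analyticOrderAt f z + analyticOrderAt g z :=
    analyticOrderAt_mul hf hg
  have h2 : analyticOrderAt g z = 0 := hg.analyticOrderAt_eq_zero.2 h0
  rw [h1, h2, add_zero]

lemma mult_pos_zero {f : ℂ → ℂ} {z : ℂ} (hf : AnalyticAt ℂ f z) (h : f z ≠ 0) : mult f z = 0 := by
  unfold mult analyticOrderNatAt
  rw [hf.analyticOrderAt_eq_zero.2 h]
  rfl

/-- the conjugate function -/
noncomputable def cj (f : ℂ → ℂ) (s : ℂ) : ℂ := (starRingEnd ℂ) (f ((starRingEnd ℂ) s))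

lemma cj_cj (f : ℂ → ℂ) : cj (cj f) = f := by
  funext s
  simp [cj]

lemma cj_an {f : ℂ → ℂ} {s : ℂ} (hf : AnalyticAt ℂ f ((starRingEnd ℂ) s)) : AnalyticAt ℂ (cj f) s := by
  rw [analyticAt_iff_eventually_differentiableAt] at hf ⊢
  have hc : Filter.Tendsto (starRingEnd ℂ) (nhds s) (nhds ((starRingEnd ℂ) s)) :=
    Complex.continuous_conj.tendsto s
  filter_upwards [hc.eventually hf] with z hz
  have := hz.conj_conj
  rw [Complex.conj_conj] at this
  exact this

lemma mult_cj {f : ℂ → ℂ} {s : ℂ} (hf : AnalyticAt ℂ f ((starRingEnd ℂ) s)) :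
    mult (cj f) s = mult f ((starRingEnd ℂ) s) := by
  unfold mult analyticOrderNatAt
  congr 1
  have hc : Filter.Tendsto (starRingEnd ℂ) (nhds s) (nhds ((starRingEnd ℂ) s)) :=
    Complex.continuous_conj.tendsto s
  rcases eq_or_ne (analyticOrderAt f ((starRingEnd ℂ) s)) ⊤ with h | h
  · rw [h]
    rw [analyticOrderAt_eq_top] at h ⊢
    filter_upwards [hc.eventually h] with z hz
    simp [cj, hz]
  · obtain ⟨n, hn⟩ := ENat.ne_top_iff_exists.1 h
    rw [← hn]
    rw [eq_comm, hf.analyticOrderAt_eq_natCast] at hn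
    rw [(cj_an hf).analyticOrderAt_eq_natCast]
    obtain ⟨g, hg, hg0, hfg⟩ := hn
    refine ⟨cj g, cj_an hg, ?_, ?_⟩
    · simpa [cj] using hg0
    · filter_upwards [hc.eventually hfg] with z hz
      simp only [cj, hz, smul_eq_mul, map_mul, map_pow, map_sub, Complex.conj_conj]

end Pool.Agent.L7h13.SP
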